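import Mathlib

/-!
Mollification of continuous weak solutions of the Euler equations: convolution with a smooth
compactly supported kernel, pointwise equations, energy identity.
-/

set_option autoImplicit false

open MeasureTheory Set Filter Topology
open scoped ContDiff

namespace Pool.Agent.EUL22

/-- The space `ℝ³`. -/
abbrev X : Type := Fin 3 → ℝ

/-- Space-time. -/
abbrev E : Type := ℝ × (Fin 3 → ℝ)

/-- The unit vector of the `i`-th space direction. -/
abbrev ei (i : Fin 3) : E := (0, (Pi.single i (1 : ℝ) : Fin 3 → ℝ))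

/-- The unit vector of time. -/
abbrev et : E := ((1 : ℝ), (0 : Fin 3 → ℝ))

/-- Convolution of a function with a kernel. -/
noncomputable def cv (K : E → ℝ) (f : E → ℝ) (z : E) : ℝ := ∫ y, f y * K (z - y)

instance instHaarE : Measure.IsAddHaarMeasure (volume : Measure E) :=
  inferInstanceAs (Measure.IsAddHaarMeasure
    ((volume : Measure ℝ).prod (volume : Measure (Fin 3 → ℝ))))

theorem cv_eq_convolution (K f : E → ℝ) :
    cv K f = convolution f K (ContinuousLinearMap.mul ℝ ℝ) volume := by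
  funext z
  simp [cv, convolution]

theorem cv_eq (K f : E → ℝ) (z : E) : cv K f z = ∫ y, K y * f (z - y) := by
  unfold cv
  rw [← integral_sub_left_eq_self (fun y => f y * K (z - y)) volume z]
  refine integral_congr_ae (Eventually.of_forall fun y => ?_)
  simp [mul_comm]

theorem contDiff_cv {K : E → ℝ} (hK : ContDiff ℝ ∞ K) (hKc : HasCompactSupport K) {f : E → ℝ}
    (hf : Continuous f) : ContDiff ℝ ∞ (cv K f) := by
  rw [cv_eq_convolution]
  exact hKc.contDiff_convolution_right (ContinuousLinearMap.mul ℝ ℝ) hf.locallyIntegrable hK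

theorem fderiv_cv {K : E → ℝ} (hK : ContDiff ℝ ∞ K) (hKc : HasCompactSupport K) {f : E → ℝ}
    (hf : Continuous f) (z w : E) :
    fderiv ℝ (cv K f) z w = cv (fun y => fderiv ℝ K y w) f z := by
  have h := hKc.hasFDerivAt_convolution_right (ContinuousLinearMap.mul ℝ ℝ) (μ := volume)
    hf.locallyIntegrable (hK.of_le (by exact_mod_cast le_top)) z
  rw [cv_eq_convolution K f, h.fderiv]
  unfold convolution cv
  rw [ContinuousLinearMap.integral_apply]
  · simp
  · have h2 : HasCompactSupport (fderiv ℝ K) := hKc.fderiv ℝ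
    have h3 : Continuous (fderiv ℝ K) := hK.continuous_fderiv (by simp)
    exact (h2.convolutionExists_right ((ContinuousLinearMap.mul ℝ ℝ).precompR E)
      hf.locallyIntegrable h3 z).integrable

theorem hasCompactSupport_comp_sub {G : E → ℝ} (hGc : HasCompactSupport G) (z : E) :
    HasCompactSupport (fun y => G (z - y)) :=
  hGc.comp_homeomorph (Homeomorph.subLeft z)

theorem integrable_mul_comp_sub {f G : E → ℝ} (hf : Continuous f) (hG : Continuous G)
    (hGc : HasCompactSupport G) (z : E) : Integrable (fun y => f y * G (z - y)) :=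
  (hf.mul (hG.comp (continuous_const.sub continuous_id))).integrable_of_hasCompactSupport
    (hasCompactSupport_comp_sub hGc z).mul_left

theorem tsupport_comp_sub {G : E → ℝ} (z : E) {U : Set E}
    (h : ∀ y ∈ tsupport G, z - y ∈ U) : tsupport (fun y => G (z - y)) ⊆ U := by
  intro y hy
  have h1 : tsupport (fun y => G (z - y)) ⊆ (fun y => z - y) ⁻¹' tsupport G :=
    tsupport_comp_subset_preimage G (continuous_const.sub continuous_id)
  have h2 := h _ (h1 hy)
  simpa using h2

theorem fderiv_comp_sub {G : E → ℝ} (hG : ContDiff ℝ ∞ G) (z y w : E) :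
    fderiv ℝ (fun y => G (z - y)) y w = - fderiv ℝ G (z - y) w := by
  have h1 : HasFDerivAt G (fderiv ℝ G (z - y)) (z - y) :=
    (hG.differentiable (by simp)).differentiableAt.hasFDerivAt
  have h2 : HasFDerivAt (fun y : E => z - y) (-ContinuousLinearMap.id ℝ E) y :=
    (hasFDerivAt_id y).const_sub z
  have h3 := h1.comp y h2
  have h4 : fderiv ℝ (fun y => G (z - y)) y
      = (fderiv ℝ G (z - y)).comp (-ContinuousLinearMap.id ℝ E) := h3.fderiv
  rw [h4]
  simp

/-- The weak form of `div v = 0` on `(0,T)`. -/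
def WeakDiv (T : ℝ) (v : E → X) : Prop :=
  ∀ ψ : E → ℝ, ContDiff ℝ ((⊤ : ℕ∞) : WithTop ℕ∞) ψ → HasCompactSupport ψ →
    tsupport ψ ⊆ Set.Ioo (0 : ℝ) T ×ˢ (Set.univ : Set (Fin 3 → ℝ)) →
    ∫ z, ∑ i : Fin 3, v z i * fderiv ℝ ψ z (0, (Pi.single i (1 : ℝ) : Fin 3 → ℝ)) = 0

/-- The weak form of the momentum equation on `(0,T)`. -/
def WeakMom (T : ℝ) (v : E → X) (p : E → ℝ) : Prop :=
  ∀ φ : E → X, ContDiff ℝ ((⊤ : ℕ∞) : WithTop ℕ∞) φ →
    HasCompactSupport φ →
    tsupport φ ⊆ Set.Ioo (0 : ℝ) T ×ˢ (Set.univ : Set (Fin 3 → ℝ)) →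
    ∫ z, (∑ i : Fin 3, v z i * fderiv ℝ φ z ((1 : ℝ), (0 : Fin 3 → ℝ)) i
      + ∑ i : Fin 3, ∑ j : Fin 3,
          v z i * v z j * fderiv ℝ φ z (0, (Pi.single j (1 : ℝ) : Fin 3 → ℝ)) i
      + p z * ∑ i : Fin 3, fderiv ℝ φ z (0, (Pi.single i (1 : ℝ) : Fin 3 → ℝ)) i) = 0

theorem div_cv {T : ℝ} {v : E → X} (hv : Continuous v) (hd : WeakDiv T v)
    {K : E → ℝ} (hK : ContDiff ℝ ∞ K) (hKc : HasCompactSupport K) (z : E)
    (hz : ∀ y ∈ tsupport K, z - y ∈ Set.Ioo (0 : ℝ) T ×ˢ (Set.univ : Set (Fin 3 → ℝ))) :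
    ∑ i : Fin 3, fderiv ℝ (cv K (fun y => v y i)) z (ei i) = 0 := by
  have hvi : ∀ i : Fin 3, Continuous (fun y => v y i) := fun i => (continuous_apply i).comp hv
  have h1 := hd (fun y => K (z - y)) (hK.comp (contDiff_const.sub contDiff_id))
    (hasCompactSupport_comp_sub hKc z) (tsupport_comp_sub z hz)
  have hKd : ∀ w : E, Continuous (fun y => fderiv ℝ K y w) := fun w =>
    (hK.continuous_fderiv (by simp)).clm_apply continuous_const
  have hKdc : ∀ w : E, HasCompactSupport (fun y => fderiv ℝ K y w) := fun w =>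
    (hKc.fderiv ℝ).comp_left (g := fun L : E →L[ℝ] ℝ => L w) (by simp)
  have h2 : ∀ y : E, ∑ i : Fin 3, v y i * fderiv ℝ (fun y => K (z - y)) y (ei i)
      = - ∑ i : Fin 3, v y i * fderiv ℝ K (z - y) (ei i) := by
    intro y
    rw [← Finset.sum_neg_distrib]
    refine Finset.sum_congr rfl fun i _ => ?_
    rw [fderiv_comp_sub hK]; ring
  simp only [h2, integral_neg, neg_eq_zero] at h1
  rw [integral_finsetSum] at h1
  · simp only [fderiv_cv hK hKc (hvi _)]
    exact h1
  · intro i _
    exact integrable_mul_comp_sub (hvi i) (hKd _) (hKdc _) z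

theorem mom_cv {T : ℝ} {v : E → X} {p : E → ℝ} (hv : Continuous v) (hp : Continuous p)
    (hm : WeakMom T v p)
    {K : E → ℝ} (hK : ContDiff ℝ ∞ K) (hKc : HasCompactSupport K) (z : E)
    (hz : ∀ y ∈ tsupport K, z - y ∈ Set.Ioo (0 : ℝ) T ×ˢ (Set.univ : Set (Fin 3 → ℝ)))
    (i : Fin 3) :
    fderiv ℝ (cv K (fun y => v y i)) z et
      + ∑ j : Fin 3, fderiv ℝ (cv K (fun y => v y i * v y j)) z (ei j)
      + fderiv ℝ (cv K p) z (ei i) = 0 := by
  have hvi : ∀ i : Fin 3, Continuous (fun y => v y i) := fun i => (continuous_apply i).comp hv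
  have hKd : ∀ w : E, Continuous (fun y => fderiv ℝ K y w) := fun w =>
    (hK.continuous_fderiv (by simp)).clm_apply continuous_const
  have hKdc : ∀ w : E, HasCompactSupport (fun y => fderiv ℝ K y w) := fun w =>
    (hKc.fderiv ℝ).comp_left (g := fun L : E →L[ℝ] ℝ => L w) (by simp)
  have hKs : ContDiff ℝ ∞ (fun y => K (z - y)) := hK.comp (contDiff_const.sub contDiff_id)
  set φ : E → X := fun y => Pi.single i (K (z - y)) with hφ
  have hφs : ContDiff ℝ ∞ φ := by
    rw [contDiff_pi]
    intro j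
    by_cases h : j = i
    · subst h
      simpa [hφ] using hKs
    · simpa [hφ, Pi.single_apply, h] using contDiff_const
  have hφc : HasCompactSupport φ :=
    (hasCompactSupport_comp_sub hKc z).comp_left (g := fun r : ℝ => (Pi.single i r : X)) (by simp)
  have hφt : tsupport φ ⊆ Set.Ioo (0 : ℝ) T ×ˢ (Set.univ : Set (Fin 3 → ℝ)) := by
    refine Subset.trans ?_ (tsupport_comp_sub z hz)
    refine closure_mono ?_
    intro y hy
    simp only [Function.mem_support, hφ] at hy ⊢
    intro h0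
    exact hy (by simp [h0])
  have hfd : ∀ y w : E, fderiv ℝ φ y w = Pi.single i (- fderiv ℝ K (z - y) w) := by
    intro y w
    have h1 : HasFDerivAt φ ((ContinuousLinearMap.single ℝ (fun _ : Fin 3 => ℝ) i).comp
        (fderiv ℝ (fun y => K (z - y)) y)) y :=
      (ContinuousLinearMap.single ℝ (fun _ : Fin 3 => ℝ) i).hasFDerivAt.comp y
        (hKs.differentiable (by simp)).differentiableAt.hasFDerivAt
    rw [h1.fderiv, ContinuousLinearMap.comp_apply, fderiv_comp_sub hK]
    rfl
  have h1 := hm φ hφs hφc hφt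
  have h2 : ∀ y : E, (∑ i : Fin 3, v y i * fderiv ℝ φ y ((1 : ℝ), (0 : Fin 3 → ℝ)) i
      + ∑ i : Fin 3, ∑ j : Fin 3,
          v y i * v y j * fderiv ℝ φ y (0, (Pi.single j (1 : ℝ) : Fin 3 → ℝ)) i
      + p y * ∑ i : Fin 3, fderiv ℝ φ y (0, (Pi.single i (1 : ℝ) : Fin 3 → ℝ)) i)
      = - (v y i * fderiv ℝ K (z - y) et
        + ∑ j : Fin 3, v y i * v y j * fderiv ℝ K (z - y) (ei j)
        + p y * fderiv ℝ K (z - y) (ei i)) := by
    intro y
    simp only [hfd, Pi.single_apply]
    simp only [mul_ite, mul_zero, Finset.sum_ite_eq', Finset.mem_univ, if_true]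
    rw [Finset.sum_comm]
    simp only [Finset.sum_ite_eq', Finset.mem_univ, if_true]
    have h3 : ∑ j : Fin 3, v y i * v y j * -(fderiv ℝ K (z - y)) (ei j)
        = - ∑ j : Fin 3, v y i * v y j * (fderiv ℝ K (z - y)) (ei j) := by
      rw [← Finset.sum_neg_distrib]
      exact Finset.sum_congr rfl fun j _ => by ring
    rw [h3]
    ring
  simp only [h2, integral_neg, neg_eq_zero] at h1
  have i1 : Integrable (fun y => v y i * fderiv ℝ K (z - y) et) :=
    integrable_mul_comp_sub (hvi i) (hKd _) (hKdc _) z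
  have i2 : ∀ j : Fin 3, Integrable (fun y => v y i * v y j * fderiv ℝ K (z - y) (ei j)) :=
    fun j => integrable_mul_comp_sub ((hvi i).mul (hvi j)) (hKd _) (hKdc _) z
  have i3 : Integrable (fun y => p y * fderiv ℝ K (z - y) (ei i)) :=
    integrable_mul_comp_sub hp (hKd _) (hKdc _) z
  have i2' : Integrable (fun y => ∑ j : Fin 3, v y i * v y j * fderiv ℝ K (z - y) (ei j)) :=
    integrable_finsetSum _ fun j _ => i2 j
  have i12 : Integrable (fun y => v y i * fderiv ℝ K (z - y) et
      + ∑ j : Fin 3, v y i * v y j * fderiv ℝ K (z - y) (ei j)) := i1.add i2'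
  rw [integral_add i12 i3, integral_add i1 i2', integral_finsetSum _ fun j _ => i2 j] at h1
  have h4 : ∀ j : Fin 3, fderiv ℝ (cv K (fun y => v y i * v y j)) z (ei j)
      = cv (fun y => fderiv ℝ K y (ei j)) (fun y => v y i * v y j) z := fun j =>
    fderiv_cv hK hKc ((hvi i).mul (hvi j)) z _
  simp only [fderiv_cv hK hKc (hvi _), fderiv_cv hK hKc hp, h4]
  exact h1

end Pool.Agent.EUL22
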