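import Pool.Agent.EUL22.Conv

/-!
The functional `Dis` on small bumps.
-/

set_option autoImplicit false

open MeasureTheory Set Filter Topology
open scoped ContDiff

namespace Pool.Agent.EUL22

/-- The local energy inequality on `(0,T)`. -/
def WeakLEI (T : ℝ) (v : E → X) (p : E → ℝ) : Prop :=
  ∀ ψ : E → ℝ, ContDiff ℝ ((⊤ : ℕ∞) : WithTop ℕ∞) ψ → HasCompactSupport ψ →
    tsupport ψ ⊆ Set.Ioo (0 : ℝ) T ×ˢ (Set.univ : Set (Fin 3 → ℝ)) →
    (∀ z, 0 ≤ ψ z) →
    0 ≤ ∫ z, ((∑ i : Fin 3, v z i ^ 2) / 2 * fderiv ℝ ψ z ((1 : ℝ), (0 : Fin 3 → ℝ))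
      + ((∑ i : Fin 3, v z i ^ 2) / 2 + p z) *
          ∑ j : Fin 3, v z j * fderiv ℝ ψ z (0, (Pi.single j (1 : ℝ) : Fin 3 → ℝ)))

variable {v : E → X} {p : E → ℝ}

theorem integrable_mul_fderiv {f φ : E → ℝ} (hf : Continuous f) (hφ : ContDiff ℝ ∞ φ)
    (hφc : HasCompactSupport φ) (w : E) : Integrable (fun z => f z * fderiv ℝ φ z w) := by
  have h1 : Continuous (fun z => fderiv ℝ φ z w) :=
    (hφ.continuous_fderiv (by simp)).clm_apply continuous_const
  have h2 : HasCompactSupport (fun z => fderiv ℝ φ z w) :=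
    (hφc.fderiv ℝ).comp_left (g := fun L : E →L[ℝ] ℝ => L w) (by simp)
  exact (hf.mul h1).integrable_of_hasCompactSupport h2.mul_left

theorem cont_S (hv : Continuous v) : Continuous (fun z => (∑ i : Fin 3, v z i ^ 2) / 2) :=
  (continuous_finsetSum _ fun i _ => ((continuous_apply i).comp hv).pow 2).div_const 2

theorem integrable_Dis (hv : Continuous v) (hp : Continuous p) {φ : E → ℝ}
    (hφ : ContDiff ℝ ∞ φ) (hφc : HasCompactSupport φ) :
    Integrable (fun z => ((∑ i : Fin 3, v z i ^ 2) / 2 * fderiv ℝ φ z ((1 : ℝ), (0 : Fin 3 → ℝ))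
    + ((∑ i : Fin 3, v z i ^ 2) / 2 + p z) *
        ∑ j : Fin 3, v z j * fderiv ℝ φ z (0, (Pi.single j (1 : ℝ) : Fin 3 → ℝ)))) := by
  have hvi : ∀ i : Fin 3, Continuous (fun y => v y i) := fun i => (continuous_apply i).comp hv
  have hS := cont_S hv
  refine (integrable_mul_fderiv hS hφ hφc _).add ?_
  simp only [Finset.mul_sum, ← mul_assoc]
  exact integrable_finsetSum _ fun j _ =>
    integrable_mul_fderiv ((hS.add hp).mul (hvi j)) hφ hφc _

theorem Dis_add (hv : Continuous v) (hp : Continuous p) {φ ψ : E → ℝ}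
    (hφ : ContDiff ℝ ∞ φ) (hφc : HasCompactSupport φ) (hψ : ContDiff ℝ ∞ ψ)
    (hψc : HasCompactSupport ψ) :
    Dis v p (fun z => φ z + ψ z) = Dis v p φ + Dis v p ψ := by
  unfold Dis
  rw [← integral_add (integrable_Dis hv hp hφ hφc) (integrable_Dis hv hp hψ hψc)]
  refine integral_congr_ae (Eventually.of_forall fun z => ?_)
  have h1 : ∀ w, fderiv ℝ (fun z => φ z + ψ z) z w = fderiv ℝ φ z w + fderiv ℝ ψ z w :=
    fun w => fd_add (hφ.differentiable (by simp) z) (hψ.differentiable (by simp) z) w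
  simp only [h1, Fin.sum_univ_three]
  ring

theorem Dis_smul {φ : E → ℝ} (hφ : ContDiff ℝ ∞ φ) (c : ℝ) :
    Dis v p (fun z => c * φ z) = c * Dis v p φ := by
  unfold Dis
  rw [← integral_const_mul]
  refine integral_congr_ae (Eventually.of_forall fun z => ?_)
  have h1 : ∀ w, fderiv ℝ (fun z => c * φ z) z w = c * fderiv ℝ φ z w := by
    intro w
    rw [fderiv_const_mul (hφ.differentiable (by simp) z)]; simp
  simp only [h1, Fin.sum_univ_three]
  ring

theorem Dis_zero_fun : Dis v p (fun _ => 0) = 0 := by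
  unfold Dis
  simp

theorem Dis_sum (hv : Continuous v) (hp : Continuous p) {ι : Type} (s : Finset ι)
    {φ : ι → E → ℝ} (hφ : ∀ i ∈ s, ContDiff ℝ ∞ (φ i))
    (hφc : ∀ i ∈ s, HasCompactSupport (φ i)) :
    Dis v p (fun z => ∑ i ∈ s, φ i z) = ∑ i ∈ s, Dis v p (φ i) := by
  classical
  induction s using Finset.induction_on with
  | empty => simpa using Dis_zero_fun
  | insert a s ha ih =>
    simp only [Finset.sum_insert ha]
    have h1 : ContDiff ℝ ∞ (fun z => ∑ i ∈ s, φ i z) :=
      ContDiff.sum fun i hi => hφ i (Finset.mem_insert_of_mem hi)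
    have h2 : HasCompactSupport (fun z => ∑ i ∈ s, φ i z) := by
      have : ∀ (t : Finset ι), (∀ i ∈ t, HasCompactSupport (φ i)) →
          HasCompactSupport (fun z => ∑ i ∈ t, φ i z) := by
        intro t
        induction t using Finset.induction_on with
        | empty =>
          intro _
          simp only [Finset.sum_empty]
          exact (HasCompactSupport.zero : HasCompactSupport (0 : E → ℝ))
        | insert b t hb iht =>
          intro ht
          simp only [Finset.sum_insert hb]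
          exact (ht b (Finset.mem_insert_self b t)).add
            (iht fun i hi => ht i (Finset.mem_insert_of_mem hi))
      exact this s fun i hi => hφc i (Finset.mem_insert_of_mem hi)
    rw [Dis_add hv hp (hφ a (Finset.mem_insert_self a s)) (hφc a (Finset.mem_insert_self a s))
      h1 h2, ih (fun i hi => hφ i (Finset.mem_insert_of_mem hi))
      (fun i hi => hφc i (Finset.mem_insert_of_mem hi))]

theorem integral_add5 {f g h k l : E → ℝ} (hf : Integrable f) (hg : Integrable g)
    (hh : Integrable h) (hk : Integrable k) (hl : Integrable l) :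
    ∫ z, (f z + g z + h z + k z + l z)
      = (∫ z, f z) + (∫ z, g z) + (∫ z, h z) + (∫ z, k z) + ∫ z, l z := by
  have h1 : Integrable (fun z => f z + g z) := hf.add hg
  have h2 : Integrable (fun z => f z + g z + h z) := h1.add hh
  have h3 : Integrable (fun z => f z + g z + h z + k z) := h2.add hk
  rw [integral_add h3 hl, integral_add h2 hk, integral_add h1 hh, integral_add hf hg]

/-- Galilean form of the local energy balance. -/
theorem Dis_galilean (hv : Continuous v) (hp : Continuous p) {T : ℝ} (hd : WeakDiv T v)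
    (hm : WeakMom T v p) {φ : E → ℝ} (hφ : ContDiff ℝ ∞ φ) (hφc : HasCompactSupport φ)
    (hφT : tsupport φ ⊆ Set.Ioo (0 : ℝ) T ×ˢ (Set.univ : Set (Fin 3 → ℝ)))
    (V : X) (q : ℝ) :
    Dis v p φ = ∫ z, ((∑ i : Fin 3, (v z i - V i) ^ 2) / 2
        * (fderiv ℝ φ z et + ∑ j : Fin 3, v z j * fderiv ℝ φ z (ei j))
      + (p z - q) * ∑ j : Fin 3, (v z j - V j) * fderiv ℝ φ z (ei j)) := by
  have hvi : ∀ i : Fin 3, Continuous (fun y => v y i) := fun i => (continuous_apply i).comp hv
  have hφ1 : ContDiff ℝ 1 φ := hφ.of_le (by exact_mod_cast le_top)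
  have I1 : ∫ z, ∑ i : Fin 3, v z i * fderiv ℝ φ z (ei i) = 0 := hd φ hφ hφc hφT
  have I2 : ∀ i : Fin 3, ∫ z, (v z i * fderiv ℝ φ z et
      + ∑ j : Fin 3, v z i * v z j * fderiv ℝ φ z (ei j) + p z * fderiv ℝ φ z (ei i)) = 0 := by
    intro i
    set Φ : E → X := fun y => Pi.single i (φ y) with hΦ
    have hΦs : ContDiff ℝ ∞ Φ := by
      rw [contDiff_pi]
      intro j
      by_cases h : j = i
      · subst h
        simpa [hΦ] using hφ
      · simpa [hΦ, Pi.single_apply, h] using contDiff_const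
    have hΦc : HasCompactSupport Φ :=
      hφc.comp_left (g := fun r : ℝ => (Pi.single i r : X)) (by simp)
    have hΦt : tsupport Φ ⊆ Set.Ioo (0 : ℝ) T ×ˢ (Set.univ : Set (Fin 3 → ℝ)) := by
      refine Subset.trans ?_ hφT
      refine closure_mono ?_
      intro y hy
      simp only [Function.mem_support, hΦ] at hy ⊢
      intro h0
      exact hy (by simp [h0])
    have hfd : ∀ y w : E, fderiv ℝ Φ y w = Pi.single i (fderiv ℝ φ y w) := by
      intro y w
      have h1 : HasFDerivAt Φ ((ContinuousLinearMap.single ℝ (fun _ : Fin 3 => ℝ) i).comp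
          (fderiv ℝ φ y)) y :=
        (ContinuousLinearMap.single ℝ (fun _ : Fin 3 => ℝ) i).hasFDerivAt.comp y
          (hφ.differentiable (by simp) y).hasFDerivAt
      rw [h1.fderiv, ContinuousLinearMap.comp_apply]
      rfl
    have h1 := hm Φ hΦs hΦc hΦt
    rw [← h1]
    refine integral_congr_ae (Eventually.of_forall fun y => ?_)
    simp only [hfd, Pi.single_apply]
    simp only [mul_ite, mul_zero, Finset.sum_ite_eq', Finset.mem_univ, if_true]
    rw [Finset.sum_comm]
    simp only [Finset.sum_ite_eq', Finset.mem_univ, if_true]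
  have I3 : ∀ w : E, ∫ z, fderiv ℝ φ z w = 0 := fun w => integral_fderiv_zero hφ1 hφc w
  have J1 : Integrable (fun z => ∑ i : Fin 3, v z i * fderiv ℝ φ z (ei i)) :=
    integrable_finsetSum _ fun i _ => integrable_mul_fderiv (hvi i) hφ hφc _
  have J2 : ∀ i : Fin 3, Integrable (fun z => v z i * fderiv ℝ φ z et
      + ∑ j : Fin 3, v z i * v z j * fderiv ℝ φ z (ei j) + p z * fderiv ℝ φ z (ei i)) :=
    fun i => ((integrable_mul_fderiv (hvi i) hφ hφc _).add
      (integrable_finsetSum _ fun j _ =>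
        integrable_mul_fderiv ((hvi i).mul (hvi j)) hφ hφc _)).add
      (integrable_mul_fderiv hp hφ hφc _)
  have J3 : ∀ w : E, Integrable (fun z => fderiv ℝ φ z w) := by
    intro w
    have := integrable_mul_fderiv (f := fun _ => (1 : ℝ)) continuous_const hφ hφc w
    simpa using this
  have J4 : Integrable (fun z => (∑ i : Fin 3, (v z i - V i) ^ 2) / 2
        * (fderiv ℝ φ z et + ∑ j : Fin 3, v z j * fderiv ℝ φ z (ei j))
      + (p z - q) * ∑ j : Fin 3, (v z j - V j) * fderiv ℝ φ z (ei j)) := by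
    have cS : Continuous (fun z => (∑ i : Fin 3, (v z i - V i) ^ 2) / 2) :=
      (continuous_finsetSum _ fun i _ => ((hvi i).sub continuous_const).pow 2).div_const 2
    simp only [mul_add, Finset.mul_sum, ← mul_assoc]
    refine ((integrable_mul_fderiv cS hφ hφc _).add
      (integrable_finsetSum _ fun j _ => integrable_mul_fderiv (cS.mul (hvi j)) hφ hφc _)).add
      (integrable_finsetSum _ fun j _ => ?_)
    exact integrable_mul_fderiv ((hp.sub continuous_const).mul ((hvi j).sub continuous_const))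
      hφ hφc _
  have K2 : ∫ z, ∑ i : Fin 3, V i * (v z i * fderiv ℝ φ z et
      + ∑ j : Fin 3, v z i * v z j * fderiv ℝ φ z (ei j) + p z * fderiv ℝ φ z (ei i)) = 0 := by
    rw [integral_finsetSum _ fun i _ => (J2 i).const_mul (V i)]
    simp only [integral_const_mul, I2, mul_zero, Finset.sum_const_zero]
  have K3 : ∫ z, -((∑ i : Fin 3, V i ^ 2) / 2) * fderiv ℝ φ z et = 0 := by
    rw [integral_const_mul, I3, mul_zero]
  have K1 : ∫ z, (q - (∑ i : Fin 3, V i ^ 2) / 2)
      * ∑ i : Fin 3, v z i * fderiv ℝ φ z (ei i) = 0 := by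
    rw [integral_const_mul, I1, mul_zero]
  have K4 : ∫ z, ∑ i : Fin 3, (-(q * V i)) * fderiv ℝ φ z (ei i) = 0 := by
    rw [integral_finsetSum _ fun i _ => (J3 (ei i)).const_mul _]
    simp only [integral_const_mul, I3, mul_zero, Finset.sum_const_zero]
  have L2 := integrable_finsetSum (Finset.univ : Finset (Fin 3)) fun i _ =>
    (J2 i).const_mul (V i)
  have L3 := (J3 et).const_mul (-((∑ i : Fin 3, V i ^ 2) / 2))
  have L1 := J1.const_mul (q - (∑ i : Fin 3, V i ^ 2) / 2)
  have L4 := integrable_finsetSum (Finset.univ : Finset (Fin 3)) fun i _ =>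
    (J3 (ei i)).const_mul (-(q * V i))
  have key : ∀ z, ((∑ i : Fin 3, v z i ^ 2) / 2 * fderiv ℝ φ z ((1 : ℝ), (0 : Fin 3 → ℝ))
    + ((∑ i : Fin 3, v z i ^ 2) / 2 + p z) *
        ∑ j : Fin 3, v z j * fderiv ℝ φ z (0, (Pi.single j (1 : ℝ) : Fin 3 → ℝ)))
      = ((∑ i : Fin 3, (v z i - V i) ^ 2) / 2
        * (fderiv ℝ φ z et + ∑ j : Fin 3, v z j * fderiv ℝ φ z (ei j))
      + (p z - q) * ∑ j : Fin 3, (v z j - V j) * fderiv ℝ φ z (ei j))
      + (∑ i : Fin 3, V i * (v z i * fderiv ℝ φ z et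
      + ∑ j : Fin 3, v z i * v z j * fderiv ℝ φ z (ei j) + p z * fderiv ℝ φ z (ei i)))
      + (-((∑ i : Fin 3, V i ^ 2) / 2) * fderiv ℝ φ z et)
      + ((q - (∑ i : Fin 3, V i ^ 2) / 2) * ∑ i : Fin 3, v z i * fderiv ℝ φ z (ei i))
      + (∑ i : Fin 3, (-(q * V i)) * fderiv ℝ φ z (ei i)) := by
    intro z
    simp only [Fin.sum_univ_three]
    ring
  unfold Dis
  simp only [key]
  rw [integral_add5 J4 L2 L3 L1 L4, K1, K2, K3, K4]
  simp

end Pool.Agent.EUL22
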