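import Pool.Agent.EUL22.Flux

/-!
Passing to the limit: the local energy equality on the open set of plane regular points.
-/

set_option autoImplicit false

open MeasureTheory Set Filter Topology
open scoped ContDiff

namespace Pool.Agent.EUL22

/-- `v` is plane regular at `z₀`: near `z₀` it is `g₂`-Hölder in space and `g₁`-Hölder along
one plane, with `g₁ + 2 g₂ > 1`. -/
def PlaneRegularAt (v : E → X) (z₀ : E) : Prop :=
  ∃ U ∈ 𝓝 z₀, ∃ a b : Fin 3 → ℝ,
    ∑ i, a i * a i = 1 ∧ ∑ i, b i * b i = 1 ∧ ∑ i, a i * b i = 0 ∧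
    ∃ g₁ g₂ C : ℝ, 0 < g₁ ∧ g₁ ≤ 1 ∧ 0 < g₂ ∧ g₂ ≤ 1 ∧ 1 < g₁ + 2 * g₂ ∧
      (∀ (t : ℝ) (x y : Fin 3 → ℝ), (t, x) ∈ U → (t, y) ∈ U →
        ‖v (t, x) - v (t, y)‖ ≤ C * ‖x - y‖ ^ g₂) ∧
      (∀ (t : ℝ) (x : Fin 3 → ℝ) (s : ℝ), (t, x) ∈ U → (t, x + s • a) ∈ U →
        ‖v (t, x + s • a) - v (t, x)‖ ≤ C * |s| ^ g₁) ∧
      (∀ (t : ℝ) (x : Fin 3 → ℝ) (s : ℝ), (t, x) ∈ U → (t, x + s • b) ∈ U →
        ‖v (t, x + s • b) - v (t, x)‖ ≤ C * |s| ^ g₁)

/-- The functional of the local energy balance. -/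
noncomputable def Dis (v : E → X) (p : E → ℝ) (ψ : E → ℝ) : ℝ :=
  ∫ z, ((∑ i : Fin 3, v z i ^ 2) / 2 * fderiv ℝ ψ z ((1 : ℝ), (0 : Fin 3 → ℝ))
    + ((∑ i : Fin 3, v z i ^ 2) / 2 + p z) *
        ∑ j : Fin 3, v z j * fderiv ℝ ψ z (0, (Pi.single j (1 : ℝ) : Fin 3 → ℝ)))

/-- Uniform convergence on a set. -/
def UC (K : Set E) (F : ℕ → E → ℝ) (f : E → ℝ) : Prop :=
  ∀ η > 0, ∀ᶠ n in atTop, ∀ z ∈ K, |F n z - f z| ≤ η

theorem UC.add {K : Set E} {F G : ℕ → E → ℝ} {f g : E → ℝ} (h1 : UC K F f) (h2 : UC K G g) :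
    UC K (fun n z => F n z + G n z) (fun z => f z + g z) := by
  intro η hη
  filter_upwards [h1 (η / 2) (half_pos hη), h2 (η / 2) (half_pos hη)] with n hn1 hn2 z hz
  have e : F n z + G n z - (f z + g z) = (F n z - f z) + (G n z - g z) := by ring
  rw [e]
  refine (abs_add_le _ _).trans ?_
  linarith [hn1 z hz, hn2 z hz]

theorem UC.const (K : Set E) (f : E → ℝ) : UC K (fun _ => f) f := by
  intro η hη
  refine Eventually.of_forall fun n z _ => ?_
  simpa using hη.le

theorem UC.sum {K : Set E} {ι : Type} (s : Finset ι) {F : ι → ℕ → E → ℝ} {f : ι → E → ℝ}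
    (h : ∀ i ∈ s, UC K (F i) (f i)) :
    UC K (fun n z => ∑ i ∈ s, F i n z) (fun z => ∑ i ∈ s, f i z) := by
  classical
  induction s using Finset.induction_on with
  | empty => simpa using UC.const K (fun _ => 0)
  | insert a s ha ih =>
    simp only [Finset.sum_insert ha]
    exact (h a (Finset.mem_insert_self a s)).add
      (ih fun i hi => h i (Finset.mem_insert_of_mem hi))

theorem UC.mul {K : Set E} (hK : IsCompact K) {F G : ℕ → E → ℝ} {f g : E → ℝ}
    (hf : Continuous f) (hg : Continuous g) (h1 : UC K F f) (h2 : UC K G g) :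
    UC K (fun n z => F n z * G n z) (fun z => f z * g z) := by
  obtain ⟨B1, hB1⟩ := hK.exists_bound_of_continuousOn hf.continuousOn
  obtain ⟨B2, hB2⟩ := hK.exists_bound_of_continuousOn hg.continuousOn
  set B : ℝ := |B1| + |B2| with hB
  have hBn : 0 ≤ B := by positivity
  intro η hη
  set e : ℝ := min 1 (η / (2 * B + 1)) with he
  have he0 : 0 < e := lt_min one_pos (by positivity)
  have he1 : e ≤ 1 := min_le_left _ _
  have he2 : e * (2 * B + 1) ≤ η := by
    calc e * (2 * B + 1) ≤ (η / (2 * B + 1)) * (2 * B + 1) :=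
          mul_le_mul_of_nonneg_right (min_le_right _ _) (by positivity)
      _ = η := by field_simp
  filter_upwards [h1 e he0, h2 e he0] with n hn1 hn2 z hz
  have a1 := hn1 z hz
  have a2 := hn2 z hz
  have b1 : |f z| ≤ B := by
    have := hB1 z hz
    rw [Real.norm_eq_abs] at this
    exact this.trans ((le_abs_self _).trans (by rw [hB]; linarith [abs_nonneg B2]))
  have b2 : |g z| ≤ B := by
    have := hB2 z hz
    rw [Real.norm_eq_abs] at this
    exact this.trans ((le_abs_self _).trans (by rw [hB]; linarith [abs_nonneg B1]))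
  have eq1 : F n z * G n z - f z * g z
      = (F n z - f z) * (G n z - g z) + (F n z - f z) * g z + f z * (G n z - g z) := by ring
  rw [eq1]
  refine (abs_add_le _ _).trans ((add_le_add (abs_add_le _ _) le_rfl).trans ?_)
  rw [abs_mul, abs_mul, abs_mul]
  have c1 : |F n z - f z| * |G n z - g z| ≤ e * 1 :=
    mul_le_mul a1 (a2.trans he1) (abs_nonneg _) he0.le
  have c2 : |F n z - f z| * |g z| ≤ e * B := mul_le_mul a1 b2 (abs_nonneg _) he0.le
  have c3 : |f z| * |G n z - g z| ≤ B * e := mul_le_mul b1 a2 (abs_nonneg _) hBn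
  nlinarith

theorem UC.integral {K : Set E} (hK : IsCompact K) {F : ℕ → E → ℝ} {f : E → ℝ}
    (hF : ∀ n, Continuous (F n)) (hf : Continuous f) (hF0 : ∀ n, ∀ z ∉ K, F n z = 0)
    (hf0 : ∀ z ∉ K, f z = 0) (h : UC K F f) :
    Tendsto (fun n => ∫ z, F n z) atTop (𝓝 (∫ z, f z)) := by
  have iF : ∀ n, Integrable (F n) := fun n =>
    (hF n).integrable_of_hasCompactSupport (HasCompactSupport.intro hK (hF0 n))
  have iff : Integrable f := hf.integrable_of_hasCompactSupport (HasCompactSupport.intro hK hf0)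
  rw [Metric.tendsto_atTop]
  intro η hη
  set V : ℝ := (volume : Measure E).real K with hV
  have hV0 : 0 ≤ V := measureReal_nonneg
  have h1 := h (η / (2 * (V + 1))) (by positivity)
  obtain ⟨n0, hn0⟩ := eventually_atTop.mp h1
  refine ⟨n0, fun n hn => ?_⟩
  rw [Real.dist_eq, ← integral_sub (iF n) iff, ← Real.norm_eq_abs]
  have hind : ∀ z, ‖F n z - f z‖ ≤ K.indicator (fun _ => η / (2 * (V + 1))) z := by
    intro z
    by_cases hz : z ∈ K
    · rw [indicator_of_mem hz, Real.norm_eq_abs]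
      exact hn0 n hn z hz
    · rw [indicator_of_notMem hz, hF0 n z hz, hf0 z hz]; simp
  have hfin : (volume : Measure E) K < ⊤ := hK.measure_lt_top
  have h2 : ‖∫ z, (F n z - f z)‖ ≤ ∫ z, K.indicator (fun _ => η / (2 * (V + 1))) z := by
    refine norm_integral_le_of_norm_le ?_ (Eventually.of_forall hind)
    exact (integrable_indicator_iff hK.measurableSet).mpr (integrableOn_const hfin.ne)
  rw [integral_indicator hK.measurableSet, setIntegral_const, smul_eq_mul] at h2
  refine h2.trans_lt ?_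
  have h3 : V * (η / (2 * (V + 1))) = η * (V / (2 * (V + 1))) := by ring
  have h4 : V / (2 * (V + 1)) < 1 := by rw [div_lt_one (by positivity)]; linarith
  change V * (η / (2 * (V + 1))) < η
  rw [h3]
  nlinarith

/-- The sequence of scales. -/
noncomputable def eps (n : ℕ) : ℝ := 1 / (n + 1)

theorem eps_pos (n : ℕ) : 0 < eps n := by unfold eps; positivity

theorem eps_le_one (n : ℕ) : eps n ≤ 1 := by
  unfold eps
  rw [div_le_one (by positivity)]
  linarith [n.cast_nonneg (α := ℝ)]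

theorem tendsto_eps : Tendsto eps atTop (𝓝 0) := tendsto_one_div_add_atTop_nhds_zero_nat

theorem norm_le_of_mem_Nm {m : ℕ} (hm : 1 ≤ m) {n : ℕ} {y : E} (hy : y ∈ Nm m (eps n)) :
    ‖y‖ ≤ eps n := by
  rw [Prod.norm_def]
  refine max_le ?_ hy.2
  rw [Real.norm_eq_abs]
  refine hy.1.trans ?_
  calc (eps n) ^ m ≤ (eps n) ^ 1 :=
        pow_le_pow_of_le_one (eps_pos n).le (eps_le_one n) hm
    _ = eps n := pow_one _

theorem UC_cv {K : Set E} (hK : IsCompact K) {f : E → ℝ} (hf : Continuous f) {m : ℕ}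
    (hm : 1 ≤ m) : UC K (fun n => cv (Km m (eps_pos n)) f) f := by
  intro η hη
  have h1 := hK.uniformContinuousAt_of_continuousAt f (fun a _ => hf.continuousAt)
    (Metric.dist_mem_uniformity hη)
  obtain ⟨δ, hδ, h2⟩ := Metric.mem_uniformity_dist.mp h1
  filter_upwards [(tendsto_order.1 tendsto_eps).2 δ hδ] with n hn z hz
  refine (isKer_Km m (eps_pos n)).cv_sub_le hf fun y hy => ?_
  have h3 : dist z (z - y) < δ := by
    rw [dist_eq_norm, sub_sub_cancel]
    exact (norm_le_of_mem_Nm hm hy).trans_lt hn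
  have h4 := h2 h3 hz
  rw [← Real.dist_eq, dist_comm]
  exact (show dist (f z) (f (z - y)) < η from h4).le

/-- Local data from plane regularity and the global Hölder bound in time. -/
theorem exists_loc {v : E → X} {T : ℝ} {β : NNReal} (hβ : 0 < β)
    (hH : ∃ C : NNReal, HolderOnWith C β v (Set.Icc (0 : ℝ) T ×ˢ (Set.univ : Set (Fin 3 → ℝ))))
    {z₀ : E} (hz : z₀ ∈ Set.Ioo (0 : ℝ) T ×ˢ (Set.univ : Set (Fin 3 → ℝ)))
    (h : PlaneRegularAt v z₀) :
    ∃ (R : ℝ) (a b c : X) (g₁ g₂ C : ℝ), Loc v z₀ R a b c g₁ g₂ β C ∧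
      ∀ t, |t - z₀.1| ≤ R → t ∈ Set.Ioo 0 T := by
  obtain ⟨H, hH⟩ := hH
  obtain ⟨U, hU, a, b, haa, hbb, hab, g₁, g₂, C, h1, h2, h3, h4, h5, h6, h7, h8⟩ := h
  obtain ⟨c, F⟩ := exists_frame haa hbb hab
  obtain ⟨R1, hR1, hR1U⟩ := Metric.mem_nhds_iff.mp hU
  have hopen : Set.Ioo (0 : ℝ) T ∈ 𝓝 z₀.1 := isOpen_Ioo.mem_nhds hz.1
  obtain ⟨R2, hR2, hR2U⟩ := Metric.mem_nhds_iff.mp hopen
  set R : ℝ := min 1 (min (R1 / 2) (R2 / 2)) with hR
  have hR0 : 0 < R := lt_min one_pos (lt_min (half_pos hR1) (half_pos hR2))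
  have hRR1 : R < R1 := ((min_le_right _ _).trans (min_le_left _ _)).trans_lt (half_lt_self hR1)
  have hRR2 : R < R2 := ((min_le_right _ _).trans (min_le_right _ _)).trans_lt (half_lt_self hR2)
  have hT : ∀ t, |t - z₀.1| ≤ R → t ∈ Set.Ioo 0 T := by
    intro t ht
    refine hR2U ?_
    rw [Metric.mem_ball, Real.dist_eq]
    exact ht.trans_lt hRR2
  have hin : ∀ t x, InB z₀ R t x → (t, x) ∈ U := by
    intro t x ht
    refine hR1U ?_
    rw [Metric.mem_ball, dist_eq_norm, Prod.norm_def]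
    refine (max_le ?_ ht.2).trans_lt hRR1
    exact ht.1
  have hIcc : ∀ t x, InB z₀ R t x →
      (t, x) ∈ Set.Icc (0 : ℝ) T ×ˢ (Set.univ : Set (Fin 3 → ℝ)) := by
    intro t x ht
    have := hT t ht.1
    exact ⟨⟨this.1.le, this.2.le⟩, mem_univ _⟩
  have hC1 : C ≤ |C| + H := (le_abs_self C).trans (le_add_of_nonneg_right H.coe_nonneg)
  have hC2 : (H : ℝ) ≤ |C| + H := le_add_of_nonneg_left (abs_nonneg C)
  refine ⟨R, a, b, c, g₁, g₂, |C| + H, ⟨F, hR0, min_le_left _ _, by positivity, hβ, h1, h2, h3,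
    h4, h5, ?_, ?_, ?_, ?_⟩, hT⟩
  · intro t t' x m1 m2
    have := hH.dist_le (hIcc t x m1) (hIcc t' x m2)
    rw [dist_eq_norm] at this
    have e : dist ((t, x) : E) (t', x) = |t - t'| := by
      rw [Prod.dist_eq, dist_self, Real.dist_eq]
      exact max_eq_left (abs_nonneg _)
    rw [e] at this
    exact this.trans (mul_le_mul_of_nonneg_right hC2 (Real.rpow_nonneg (abs_nonneg _) _))
  · intro t x y m1 m2
    exact (h6 t x y (hin _ _ m1) (hin _ _ m2)).trans
      (mul_le_mul_of_nonneg_right hC1 (Real.rpow_nonneg (norm_nonneg _) _))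
  · intro t x s m1 m2
    exact (h7 t x s (hin _ _ m1) (hin _ _ m2)).trans
      (mul_le_mul_of_nonneg_right hC1 (Real.rpow_nonneg (abs_nonneg _) _))
  · intro t x s m1 m2
    exact (h8 t x s (hin _ _ m1) (hin _ _ m2)).trans
      (mul_le_mul_of_nonneg_right hC1 (Real.rpow_nonneg (abs_nonneg _) _))

/-- The flux of the mollified flow at scale `eps n`. -/
noncomputable def flux (v : E → X) (m n : ℕ) (z : E) : ℝ :=
  ∑ i, ∑ j, Rey (Km m (eps_pos n)) v z i j
    * fderiv ℝ (cv (Km m (eps_pos n)) (fun y => v y i)) z (ei j)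

theorem UC_flux {v : E → X} (hv : Continuous v) {T : ℝ} {β : NNReal} (hβ : 0 < β)
    (hH : ∃ C : NNReal, HolderOnWith C β v (Set.Icc (0 : ℝ) T ×ˢ (Set.univ : Set (Fin 3 → ℝ))))
    (hd : WeakDiv T v) {m : ℕ} (hm1 : 1 ≤ m) (hm : 1 ≤ m * (β : ℝ)) {K : Set E}
    (hK : IsCompact K) (hKT : K ⊆ Set.Ioo (0 : ℝ) T ×ˢ (Set.univ : Set (Fin 3 → ℝ)))
    (hreg : ∀ z ∈ K, PlaneRegularAt v z) :
    UC K (fun n z => flux v m n z) (fun _ => 0) := by
  refine hK.induction_on (p := fun s => UC s (fun n z => flux v m n z) (fun _ => 0))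
    ?_ ?_ ?_ ?_
  · intro η _
    exact Eventually.of_forall fun n z hz => absurd hz (notMem_empty z)
  · intro s t hst ht η hη
    filter_upwards [ht η hη] with n hn z hz using hn z (hst hz)
  · intro s t hs ht η hη
    filter_upwards [hs η hη, ht η hη] with n h1 h2 z hz
    rcases hz with hz | hz
    · exact h1 z hz
    · exact h2 z hz
  · intro z₀ hz₀
    obtain ⟨R, a, b, c, g₁, g₂, C, L, hT⟩ := exists_loc hβ hH (hKT hz₀) (hreg z₀ hz₀)
    obtain ⟨M, hM, hfl⟩ := L.flux hv hd hT hm1 hm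
    refine ⟨{z | InB z₀ (R / 8) z.1 z.2}, ?_, ?_⟩
    · refine mem_nhdsWithin_of_mem_nhds ?_
      have hR8 : 0 < R / 8 := by have := L.Rpos; positivity
      refine mem_of_superset (Metric.closedBall_mem_nhds z₀ hR8) fun z hz => ?_
      rw [Metric.mem_closedBall, dist_eq_norm, Prod.norm_def, max_le_iff] at hz
      exact hz
    · have hlim : Tendsto (fun n => M * ((eps n) ^ g₁ * ((eps n) ^ g₂ * (eps n) ^ g₂)
          * (eps n)⁻¹)) atTop (𝓝 0) := by
        have e1 : ∀ n, (eps n) ^ g₁ * ((eps n) ^ g₂ * (eps n) ^ g₂) * (eps n)⁻¹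
            = (eps n) ^ (g₁ + 2 * g₂ - 1) := by
          intro n
          have hp := eps_pos n
          rw [← Real.rpow_add hp, ← Real.rpow_add hp, ← Real.rpow_neg_one,
            ← Real.rpow_add hp]
          congr 1; ring
        simp only [e1]
        have hc : 0 < g₁ + 2 * g₂ - 1 := by linarith [L.gsum]
        have h1 := (Real.continuousAt_rpow_const 0 (g₁ + 2 * g₂ - 1) (Or.inr hc.le)).tendsto.comp
          tendsto_eps
        rw [Real.zero_rpow hc.ne'] at h1
        simpa using h1.const_mul M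
      intro η hη
      have hR64 : 0 < R / 64 := by have := L.Rpos; positivity
      filter_upwards [(tendsto_order.1 hlim).2 η hη, (tendsto_order.1 tendsto_eps).2 _ hR64]
        with n hn1 hn2 z hz
      have := hfl (eps n) (eps_pos n) hn2.le z.1 z.2 hz
      rw [sub_zero]
      exact this.trans hn1.le

/-- **Local energy equality on the set of plane regular points.** -/
theorem Dis_zero {v : E → X} {p : E → ℝ} (hv : Continuous v) (hp : Continuous p) {T : ℝ}
    {β : NNReal} (hβ : 0 < β)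
    (hH : ∃ C : NNReal, HolderOnWith C β v (Set.Icc (0 : ℝ) T ×ˢ (Set.univ : Set (Fin 3 → ℝ))))
    (hd : WeakDiv T v) (hmom : WeakMom T v p) {φ : E → ℝ} (hφ : ContDiff ℝ ∞ φ)
    (hφc : HasCompactSupport φ)
    (hφT : tsupport φ ⊆ Set.Ioo (0 : ℝ) T ×ˢ (Set.univ : Set (Fin 3 → ℝ)))
    (hreg : ∀ z ∈ tsupport φ, PlaneRegularAt v z) : Dis v p φ = 0 := by
  obtain ⟨m, hm⟩ := exists_nat_ge (1 / (β : ℝ))
  have hβ' : (0 : ℝ) < β := hβ
  have hm' : 1 ≤ m * (β : ℝ) := by
    rw [div_le_iff₀ hβ'] at hm; exact hm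
  have hm1 : 1 ≤ m := by
    rcases Nat.eq_zero_or_pos m with h | h
    · subst h; simp at hm'; linarith
    · exact h
  set K : Set E := tsupport φ with hKdef
  have hK : IsCompact K := hφc
  have hvi : ∀ i : Fin 3, Continuous (fun y => v y i) := fun i => (continuous_apply i).comp hv
  set k : ℕ → E → ℝ := fun n => Km m (eps_pos n) with hk
  have hKer : ∀ n, IsKer (k n) (Nm m (eps n)) := fun n => isKer_Km m (eps_pos n)
  -- the integrand at scale `n`
  set F : ℕ → E → ℝ := fun n z =>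
    ((∑ i, cv (k n) (fun y => v y i) z ^ 2) / 2) * fderiv ℝ φ z et
      + (((∑ i, cv (k n) (fun y => v y i) z ^ 2) / 2) + cv (k n) p z)
        * ∑ j, cv (k n) (fun y => v y j) z * fderiv ℝ φ z (ei j)
      + ∑ i, ∑ j, (cv (k n) (fun y => v y i * v y j) z
          - cv (k n) (fun y => v y i) z * cv (k n) (fun y => v y j) z)
          * (cv (k n) (fun y => v y i) z * fderiv ℝ φ z (ei j)
            + φ z * fderiv ℝ (cv (k n) (fun y => v y i)) z (ei j)) with hF
  set f : E → ℝ := fun z =>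
    ((∑ i : Fin 3, v z i ^ 2) / 2 * fderiv ℝ φ z et
      + ((∑ i : Fin 3, v z i ^ 2) / 2 + p z) * ∑ j : Fin 3, v z j * fderiv ℝ φ z (ei j))
    with hf
  obtain ⟨δ, hδ, hδU⟩ := hK.exists_thickening_subset_open (isOpen_Ioo.prod isOpen_univ) hφT
  have hzero : ∀ᶠ n in atTop, ∫ z, F n z = 0 := by
    filter_upwards [(tendsto_order.1 tendsto_eps).2 δ hδ] with n hn
    have hsub : ∀ z ∈ tsupport φ, ∀ y ∈ tsupport (k n),
        z - y ∈ Set.Ioo (0 : ℝ) T ×ˢ (Set.univ : Set (Fin 3 → ℝ)) := by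
      intro z hz y hy
      refine hδU (Metric.mem_thickening_iff.mpr ⟨z, hz, ?_⟩)
      rw [dist_eq_norm, sub_sub_cancel_left, norm_neg]
      exact (norm_le_of_mem_Nm hm1 ((hKer n).supp hy)).trans_lt hn
    exact energy_identity hφ hφc (contDiff_cv (hKer n).smooth (hKer n).cpt hp)
      (V := fun i => cv (k n) (fun y => v y i))
      (W := fun i j => cv (k n) (fun y => v y i * v y j))
      (fun i => contDiff_cv (hKer n).smooth (hKer n).cpt (hvi i))
      (fun i j => contDiff_cv (hKer n).smooth (hKer n).cpt ((hvi i).mul (hvi j)))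
      (fun z hz => div_cv hv hd (hKer n).smooth (hKer n).cpt z (hsub z hz))
      (fun z hz i => mom_cv hv hp hmom (hKer n).smooth (hKer n).cpt z (hsub z hz) i)
  have hdφ : ∀ w : E, Continuous (fun z => fderiv ℝ φ z w) := fun w =>
    (hφ.continuous_fderiv (by simp)).clm_apply continuous_const
  have ucv : ∀ i, UC K (fun n => cv (k n) (fun y => v y i)) (fun z => v z i) := fun i =>
    UC_cv hK (hvi i) hm1
  have ucp : UC K (fun n => cv (k n) p) p := UC_cv hK hp hm1
  have ucw : ∀ i j, UC K (fun n => cv (k n) (fun y => v y i * v y j))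
      (fun z => v z i * v z j) := fun i j => UC_cv hK ((hvi i).mul (hvi j)) hm1
  have ucS : UC K (fun n z => (∑ i, cv (k n) (fun y => v y i) z ^ 2) / 2)
      (fun z => (∑ i : Fin 3, v z i ^ 2) / 2) := by
    have h1 : ∀ i ∈ (Finset.univ : Finset (Fin 3)),
        UC K (fun n z => cv (k n) (fun y => v y i) z ^ 2) (fun z => v z i ^ 2) := by
      intro i _
      simp only [pow_two]
      exact UC.mul hK (hvi i) (hvi i) (ucv i) (ucv i)
    have h2 := UC.sum _ h1
    have hc : Continuous (fun z => ∑ i : Fin 3, v z i ^ 2) :=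
      continuous_finsetSum _ fun i _ => (hvi i).pow 2
    simp only [div_eq_mul_inv]
    exact UC.mul hK hc continuous_const h2 (UC.const K _)
  have cS : Continuous (fun z => (∑ i : Fin 3, v z i ^ 2) / 2) :=
    (continuous_finsetSum _ fun i _ => (hvi i).pow 2).div_const 2
  have ucR : ∀ i j, UC K (fun n z => cv (k n) (fun y => v y i * v y j) z
      - cv (k n) (fun y => v y i) z * cv (k n) (fun y => v y j) z) (fun _ => 0) := by
    intro i j
    have h1 := UC.mul hK (hvi i) (hvi j) (ucv i) (ucv j)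
    have h2 := UC.mul hK (continuous_const (y := (-1 : ℝ))) ((hvi i).mul (hvi j))
      (UC.const K (fun _ => (-1 : ℝ))) h1
    have h3 := (ucw i j).add h2
    refine fun η hη => ?_
    filter_upwards [h3 η hη] with n hn z hz
    have h4 : |(cv (k n) (fun y => v y i * v y j) z
        + (-1) * (cv (k n) (fun y => v y i) z * cv (k n) (fun y => v y j) z))
        - (v z i * v z j + (-1) * (v z i * v z j))| ≤ η := hn z hz
    have h5 : (cv (k n) (fun y => v y i * v y j) z
        + (-1) * (cv (k n) (fun y => v y i) z * cv (k n) (fun y => v y j) z))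
        - (v z i * v z j + (-1) * (v z i * v z j))
        = (cv (k n) (fun y => v y i * v y j) z
        - cv (k n) (fun y => v y i) z * cv (k n) (fun y => v y j) z) - 0 := by ring
    rw [h5] at h4
    exact h4
  have uc1 : UC K (fun n z => ((∑ i, cv (k n) (fun y => v y i) z ^ 2) / 2) * fderiv ℝ φ z et)
      (fun z => (∑ i : Fin 3, v z i ^ 2) / 2 * fderiv ℝ φ z et) :=
    UC.mul hK cS (hdφ et) ucS (UC.const K _)
  have uc2a : UC K (fun n z => ∑ j, cv (k n) (fun y => v y j) z * fderiv ℝ φ z (ei j))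
      (fun z => ∑ j : Fin 3, v z j * fderiv ℝ φ z (ei j)) :=
    UC.sum _ fun j _ => UC.mul hK (hvi j) (hdφ (ei j)) (ucv j) (UC.const K _)
  have c2a : Continuous (fun z => ∑ j : Fin 3, v z j * fderiv ℝ φ z (ei j)) :=
    continuous_finsetSum _ fun j _ => (hvi j).mul (hdφ (ei j))
  have uc2 : UC K (fun n z => (((∑ i, cv (k n) (fun y => v y i) z ^ 2) / 2) + cv (k n) p z)
        * ∑ j, cv (k n) (fun y => v y j) z * fderiv ℝ φ z (ei j))
      (fun z => ((∑ i : Fin 3, v z i ^ 2) / 2 + p z)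
        * ∑ j : Fin 3, v z j * fderiv ℝ φ z (ei j)) :=
    UC.mul hK (cS.add hp) c2a (ucS.add ucp) uc2a
  have uc3a : ∀ i j : Fin 3, UC K (fun n z => (cv (k n) (fun y => v y i * v y j) z
          - cv (k n) (fun y => v y i) z * cv (k n) (fun y => v y j) z)
          * (cv (k n) (fun y => v y i) z * fderiv ℝ φ z (ei j))) (fun _ => 0) := by
    intro i j
    have h1 := UC.mul hK (continuous_const (y := (0 : ℝ))) ((hvi i).mul (hdφ (ei j))) (ucR i j)
      (UC.mul hK (hvi i) (hdφ (ei j)) (ucv i) (UC.const K _))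
    refine fun η hη => ?_
    filter_upwards [h1 η hη] with n hn z hz
    have := hn z hz
    simpa using this
  have uc3b : UC K (fun n z => φ z * flux v m n z) (fun _ => 0) := by
    have h1 := UC.mul hK hφ.continuous (continuous_const (y := (0 : ℝ))) (UC.const K φ)
      (UC_flux hv hβ hH hd hm1 hm' hK hφT hreg)
    refine fun η hη => ?_
    filter_upwards [h1 η hη] with n hn z hz
    have := hn z hz
    simpa using this
  have ucF : UC K F f := by
    have h3 : UC K (fun n z => ∑ i, ∑ j, (cv (k n) (fun y => v y i * v y j) z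
          - cv (k n) (fun y => v y i) z * cv (k n) (fun y => v y j) z)
          * (cv (k n) (fun y => v y i) z * fderiv ℝ φ z (ei j))) (fun _ => 0) := by
      have := UC.sum (K := K) (Finset.univ : Finset (Fin 3)) fun i _ =>
        UC.sum (K := K) (Finset.univ : Finset (Fin 3)) fun j _ => uc3a i j
      simpa using this
    have h4 := ((uc1.add uc2).add h3).add uc3b
    refine fun η hη => ?_
    filter_upwards [h4 η hη] with n hn z hz
    have h5 := hn z hz
    simp only [add_zero] at h5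
    have e1 : F n z = ((∑ i, cv (k n) (fun y => v y i) z ^ 2) / 2) * fderiv ℝ φ z et
      + (((∑ i, cv (k n) (fun y => v y i) z ^ 2) / 2) + cv (k n) p z)
        * ∑ j, cv (k n) (fun y => v y j) z * fderiv ℝ φ z (ei j)
      + (∑ i, ∑ j, (cv (k n) (fun y => v y i * v y j) z
          - cv (k n) (fun y => v y i) z * cv (k n) (fun y => v y j) z)
          * (cv (k n) (fun y => v y i) z * fderiv ℝ φ z (ei j)))
      + φ z * flux v m n z := by
      simp only [hF, flux, Rey, mul_add, Finset.sum_add_distrib]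
      rw [Finset.mul_sum]
      simp only [Finset.mul_sum]
      rw [← add_assoc]
      congr 1
      refine Finset.sum_congr rfl fun i _ => Finset.sum_congr rfl fun j _ => ?_
      simp only [hk]
      ring
    rw [e1]
    exact h5
  have cF : ∀ n, Continuous (F n) := by
    intro n
    have c1 : ∀ i, Continuous (cv (k n) (fun y => v y i)) := fun i =>
      (contDiff_cv (hKer n).smooth (hKer n).cpt (hvi i)).continuous
    have c2 : Continuous (cv (k n) p) := (contDiff_cv (hKer n).smooth (hKer n).cpt hp).continuous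
    have c3 : ∀ i j, Continuous (cv (k n) (fun y => v y i * v y j)) := fun i j =>
      (contDiff_cv (hKer n).smooth (hKer n).cpt ((hvi i).mul (hvi j))).continuous
    have c4 : ∀ i j, Continuous (fun z => fderiv ℝ (cv (k n) (fun y => v y i)) z (ei j)) :=
      fun i j => ((contDiff_cv (hKer n).smooth (hKer n).cpt (hvi i)).continuous_fderiv
        (by simp)).clm_apply continuous_const
    have c5 := hφ.continuous
    have c6 : Continuous (fun z => (∑ i, cv (k n) (fun y => v y i) z ^ 2) / 2) :=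
      (continuous_finsetSum _ fun i _ => (c1 i).pow 2).div_const 2
    refine ((c6.mul (hdφ et)).add ((c6.add c2).mul
      (continuous_finsetSum _ fun j _ => (c1 j).mul (hdφ (ei j))))).add
      (continuous_finsetSum _ fun i _ => continuous_finsetSum _ fun j _ => ?_)
    exact ((c3 i j).sub ((c1 i).mul (c1 j))).mul
      (((c1 i).mul (hdφ (ei j))).add (c5.mul (c4 i j)))
  have cf : Continuous f := (cS.mul (hdφ et)).add ((cS.add hp).mul c2a)
  have z1 : ∀ z ∉ K, φ z = 0 := fun z hz => image_eq_zero_of_notMem_tsupport hz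
  have z2 : ∀ z ∉ K, fderiv ℝ φ z = 0 := fun z hz =>
    image_eq_zero_of_notMem_tsupport fun h => hz (tsupport_fderiv_subset ℝ h)
  have F0 : ∀ n, ∀ z ∉ K, F n z = 0 := by
    intro n z hz
    simp [hF, z1 z hz, z2 z hz]
  have f0 : ∀ z ∉ K, f z = 0 := by
    intro z hz
    simp [hf, z2 z hz]
  have hlim := UC.integral hK cF cf F0 f0 ucF
  have hlim0 : Tendsto (fun n => ∫ z, F n z) atTop (𝓝 0) :=
    tendsto_const_nhds.congr' (hzero.mono fun n hn => hn.symm)
  exact tendsto_nhds_unique hlim hlim0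

end Pool.Agent.EUL22
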