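import Pool.Agent.EUL22.Small

/-!
Covers by small balls from the Hausdorff measure.
-/

set_option autoImplicit false

open MeasureTheory Set Filter Topology
open scoped ContDiff ENNReal

namespace Pool.Agent.EUL22

theorem exists_cover {d : ℝ} {A : Set E} (hA : μH[d] A < (⊤ : ℝ≥0∞)) {δ : ℝ≥0∞} (hδ : 0 < δ) :
    ∃ t : ℕ → Set E, A ⊆ ⋃ n, t n ∧ (∀ n, Metric.ediam (t n) ≤ δ) ∧
      ∑' n, (⨆ _ : (t n).Nonempty, Metric.ediam (t n) ^ d) ≤ μH[d] A + 1 := by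
  have h1 : ⨅ (t : ℕ → Set E) (_ : A ⊆ ⋃ n, t n) (_ : ∀ n, Metric.ediam (t n) ≤ δ),
      ∑' n, (⨆ _ : (t n).Nonempty, Metric.ediam (t n) ^ d) ≤ μH[d] A := by
    rw [Measure.hausdorffMeasure_apply]
    exact le_iSup₂_of_le δ hδ le_rfl
  have h2 : ⨅ (t : ℕ → Set E) (_ : A ⊆ ⋃ n, t n) (_ : ∀ n, Metric.ediam (t n) ≤ δ),
      ∑' n, (⨆ _ : (t n).Nonempty, Metric.ediam (t n) ^ d) < μH[d] A + 1 :=
    h1.trans_lt (ENNReal.lt_add_right hA.ne one_ne_zero)
  simp only [iInf_lt_iff] at h2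
  obtain ⟨t, h3, h4, h5⟩ := h2
  exact ⟨t, h3, h4, h5.le⟩

/-- Radii of a cover with controlled `d`-th powers. -/
theorem exists_radii {d : ℝ} (hd : 1 ≤ d) {A : Set E} (hA : μH[d] A < (⊤ : ℝ≥0∞)) :
    ∃ M : ℝ, 0 ≤ M ∧ ∀ δ : ℝ, 0 < δ → δ ≤ 1 → ∃ (t : ℕ → Set E) (r : ℕ → ℝ),
      A ⊆ ⋃ n, t n ∧ (∀ n, 0 < r n ∧ r n ≤ 2 * δ) ∧
      (∀ n, ∀ x ∈ t n, ∀ y ∈ t n, dist x y < r n) ∧
      ∀ F : Finset ℕ, ∑ n ∈ F, (r n) ^ d ≤ M := by
  have hd0 : 0 < d := by linarith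
  refine ⟨2 ^ d * (((μH[d] A + 1 : ℝ≥0∞)).toReal + 2), by positivity, ?_⟩
  intro δ hδ hδ1
  obtain ⟨t, h1, h2, h3⟩ := exists_cover hA (ENNReal.ofReal_pos.mpr hδ)
  have hfin : ∀ n, Metric.ediam (t n) ≠ (⊤ : ℝ≥0∞) := fun n =>
    ((h2 n).trans_lt ENNReal.ofReal_lt_top).ne
  set D : ℕ → ℝ := fun n => (Metric.ediam (t n)).toReal with hD
  set ρ : ℕ → ℝ := fun n => δ * (1 / 2) ^ n with hρ
  have hρ0 : ∀ n, 0 < ρ n := fun n => by positivity
  have hρ1 : ∀ n, ρ n ≤ δ := fun n => by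
    have : ((1 : ℝ) / 2) ^ n ≤ 1 := pow_le_one₀ (by norm_num) (by norm_num)
    calc ρ n = δ * (1 / 2) ^ n := rfl
      _ ≤ δ * 1 := mul_le_mul_of_nonneg_left this hδ.le
      _ = δ := mul_one δ
  have hD0 : ∀ n, 0 ≤ D n := fun n => ENNReal.toReal_nonneg
  have hDδ : ∀ n, D n ≤ δ := fun n => ENNReal.toReal_le_of_le_ofReal hδ.le (h2 n)
  refine ⟨t, fun n => D n + ρ n, h1, ?_, ?_, ?_⟩
  · intro n
    have a1 := hρ0 n
    have a2 := hρ1 n
    have a3 := hD0 n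
    have a4 := hDδ n
    constructor
    · change 0 < D n + ρ n
      linarith
    · change D n + ρ n ≤ 2 * δ
      linarith
  · intro n x hx y hy
    have h4 : edist x y ≤ Metric.ediam (t n) := Metric.edist_le_ediam_of_mem hx hy
    have h5 : dist x y ≤ D n := by
      rw [dist_edist]
      exact ENNReal.toReal_mono (hfin n) h4
    have := hρ0 n
    change dist x y < D n + ρ n
    linarith
  · intro F
    -- the sum of the diameters
    have hDn : ∀ n, (D n) ^ d = (⨆ _ : (t n).Nonempty, Metric.ediam (t n) ^ d).toReal := by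
      intro n
      by_cases hne : (t n).Nonempty
      · simp only [hne, iSup_pos]
        rw [← ENNReal.toReal_rpow]
      · have hemp : t n = ∅ := not_nonempty_iff_eq_empty.mp hne
        simp only [hD, hemp, Metric.ediam_empty, ENNReal.toReal_zero, Set.not_nonempty_empty,
          iSup_neg, not_false_eq_true, bot_eq_zero', Real.zero_rpow hd0.ne']
    have hle : ∀ n, (⨆ _ : (t n).Nonempty, Metric.ediam (t n) ^ d) ≠ (⊤ : ℝ≥0∞) := by
      intro n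
      have : (⨆ _ : (t n).Nonempty, Metric.ediam (t n) ^ d) ≤ Metric.ediam (t n) ^ d :=
        iSup_le fun _ => le_rfl
      exact (this.trans_lt (ENNReal.rpow_lt_top_of_nonneg hd0.le (hfin n))).ne
    have hM : μH[d] A + 1 ≠ (⊤ : ℝ≥0∞) := ENNReal.add_ne_top.mpr ⟨hA.ne, ENNReal.one_ne_top⟩
    have s1 : ∑ n ∈ F, (D n) ^ d ≤ (μH[d] A + 1 : ℝ≥0∞).toReal := by
      simp only [hDn]
      rw [← ENNReal.toReal_sum fun n _ => hle n]
      exact ENNReal.toReal_mono hM ((ENNReal.sum_le_tsum F).trans h3)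
    have s2 : ∑ n ∈ F, (ρ n) ^ d ≤ 2 := by
      have h6 : ∀ n ∈ F, (ρ n) ^ d ≤ (1 / 2) ^ n := by
        intro n _
        have h7 : ρ n ≤ 1 := (hρ1 n).trans hδ1
        calc (ρ n) ^ d ≤ (ρ n) ^ (1 : ℝ) :=
              Real.rpow_le_rpow_of_exponent_ge (hρ0 n) h7 hd
          _ = ρ n := Real.rpow_one _
          _ ≤ 1 * (1 / 2) ^ n := mul_le_mul_of_nonneg_right hδ1 (by positivity)
          _ = (1 / 2) ^ n := one_mul _
      refine (Finset.sum_le_sum h6).trans ?_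
      have h8 := (summable_geometric_two).sum_le_tsum F (fun n _ => by positivity)
      rwa [tsum_geometric_two] at h8
    have s3 : ∀ n ∈ F, (D n + ρ n) ^ d ≤ 2 ^ d * ((D n) ^ d + (ρ n) ^ d) := by
      intro n _
      have a1 := (hρ0 n).le
      have a3 := hD0 n
      have b1 : 0 ≤ (D n) ^ d := Real.rpow_nonneg a3 _
      have b2 : 0 ≤ (ρ n) ^ d := Real.rpow_nonneg a1 _
      rcases le_total (D n) (ρ n) with h | h
      · calc (D n + ρ n) ^ d ≤ (2 * ρ n) ^ d :=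
              Real.rpow_le_rpow (by linarith) (by linarith) hd0.le
          _ = 2 ^ d * (ρ n) ^ d := Real.mul_rpow (by norm_num) a1
          _ ≤ 2 ^ d * ((D n) ^ d + (ρ n) ^ d) :=
              mul_le_mul_of_nonneg_left (by linarith) (by positivity)
      · calc (D n + ρ n) ^ d ≤ (2 * D n) ^ d :=
              Real.rpow_le_rpow (by linarith) (by linarith) hd0.le
          _ = 2 ^ d * (D n) ^ d := Real.mul_rpow (by norm_num) a3
          _ ≤ 2 ^ d * ((D n) ^ d + (ρ n) ^ d) :=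
              mul_le_mul_of_nonneg_left (by linarith) (by positivity)
    refine (Finset.sum_le_sum s3).trans ?_
    rw [← Finset.mul_sum, Finset.sum_add_distrib]
    exact mul_le_mul_of_nonneg_left (by linarith) (by positivity)

variable {v : E → X} {p : E → ℝ}

/-- One piece of the singular set: small bumps at points of `K` covering it. -/
theorem piece (hv : Continuous v) (hp : Continuous p) {T : ℝ} {β : NNReal} (hβ : 0 < β)
    (hH : ∃ C : NNReal, HolderOnWith C β v (Set.Icc (0 : ℝ) T ×ˢ (Set.univ : Set (Fin 3 → ℝ))))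
    (hd : WeakDiv T v) (hm : WeakMom T v p) {K : Set E} (hK : IsCompact K)
    (hKT : K ⊆ Set.Ioo (0 : ℝ) T ×ˢ (Set.univ : Set (Fin 3 → ℝ))) (hKne : K.Nonempty)
    {A : Set E} (hA : μH[3 + (β : ℝ)] A < (⊤ : ℝ≥0∞)) {ε : ℝ} (hε : 0 < ε) :
    ∃ (z : ℕ → E) (r : ℕ → ℝ), (∀ n, 0 < r n) ∧ K ∩ A ⊆ ⋃ n, Metric.ball (z n) (r n) ∧
      (∀ n, tsupport (bmp (z n) (r n))
        ⊆ Set.Ioo (0 : ℝ) T ×ˢ (Set.univ : Set (Fin 3 → ℝ))) ∧
      ∀ F : Finset ℕ, ∑ n ∈ F, |Dis v p (bmp (z n) (r n))| ≤ ε := by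
  have hd1 : (1 : ℝ) ≤ 3 + (β : ℝ) := by linarith [β.coe_nonneg]
  obtain ⟨M, hM, hrad⟩ := exists_radii hd1 hA
  obtain ⟨r0, hr0, hsm⟩ := Dis_bmp hv hp hβ hH hd hm hK hKT
    (ε := ε / (M + 1)) (by positivity)
  set δ : ℝ := min 1 (r0 / 2) with hδ
  have hδ0 : 0 < δ := lt_min one_pos (half_pos hr0)
  obtain ⟨t, r, h1, h2, h3, h4⟩ := hrad δ hδ0 (min_le_left _ _)
  obtain ⟨z1, hz1⟩ := hKne
  classical
  set z : ℕ → E := fun n => if h : (K ∩ t n).Nonempty then h.choose else z1 with hz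
  have hzK : ∀ n, z n ∈ K := by
    intro n
    by_cases h : (K ∩ t n).Nonempty
    · simp only [hz, dif_pos h]; exact h.choose_spec.1
    · simp only [hz, dif_neg h]; exact hz1
  have hrr0 : ∀ n, r n ≤ r0 := fun n => by
    have := (h2 n).2
    have h5 : δ ≤ r0 / 2 := min_le_right _ _
    linarith
  refine ⟨z, r, fun n => (h2 n).1, ?_, ?_, ?_⟩
  · rintro x ⟨hxK, hxA⟩
    obtain ⟨n, hn⟩ := mem_iUnion.mp (h1 hxA)
    refine mem_iUnion.mpr ⟨n, ?_⟩
    have hne : (K ∩ t n).Nonempty := ⟨x, hxK, hn⟩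
    have : z n ∈ t n := by
      simp only [hz, dif_pos hne]; exact hne.choose_spec.2
    exact h3 n x hn (z n) this
  · intro n
    exact (hsm (z n) (hzK n) (r n) (h2 n).1 (hrr0 n)).1
  · intro F
    have h5 : ∀ n ∈ F, |Dis v p (bmp (z n) (r n))| ≤ ε / (M + 1) * (r n) ^ (3 + (β : ℝ)) :=
      fun n _ => (hsm (z n) (hzK n) (r n) (h2 n).1 (hrr0 n)).2
    refine (Finset.sum_le_sum h5).trans ?_
    rw [← Finset.mul_sum]
    calc ε / (M + 1) * ∑ n ∈ F, (r n) ^ (3 + (β : ℝ)) ≤ ε / (M + 1) * M :=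
          mul_le_mul_of_nonneg_left (h4 F) (by positivity)
      _ ≤ ε := by
          rw [div_mul_eq_mul_div, div_le_iff₀ (by positivity)]
          nlinarith

end Pool.Agent.EUL22
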