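import Pool.Agent.EUL22.Cube

/-!
From the vanishing of the dissipation to the constancy of the kinetic energy.
-/

set_option autoImplicit false

open MeasureTheory Set Filter Topology
open scoped ContDiff ENNReal

namespace Pool.Agent.EUL22

/-- Integral over the unit cube at time `t`. -/
noncomputable def avg (a : E → ℝ) (t : ℝ) : ℝ := ∫ y in Icc (0 : X) 1, a (t, y)

theorem avg_shift {a : E → ℝ} (ha : ∀ t, Per (fun x => a (t, x))) (z : E) :
    ∫ y in Icc (0 : X) 1, a (z + (0, y)) = avg a z.1 := by
  have h := cube_translate (ha z.1) z.2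
  unfold avg
  rw [← h]
  refine integral_congr_ae (Eventually.of_forall fun y => ?_)
  have : z + (0, y) = (z.1, z.2 + y) := by
    refine Prod.ext ?_ rfl
    simp
  change a (z + (0, y)) = a (z.1, z.2 + y)
  rw [this]

theorem continuous_avg {a : E → ℝ} (ha : Continuous a) : Continuous (avg a) := by
  unfold avg
  refine continuous_parametric_integral_of_continuous (f := fun t y => a (t, y)) ?_
    isCompact_Icc
  exact ha

theorem integrable_shift {a b : E → ℝ} (ha : Continuous a) (hb : Continuous b)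
    (hbc : HasCompactSupport b) :
    Integrable (fun q : X × E => a (q.2 + (0, q.1)) * b q.2)
      ((volume.restrict (Icc (0 : X) 1)).prod (volume : Measure E)) := by
  have hc : Continuous (fun q : X × E => a (q.2 + (0, q.1)) * b q.2) := by
    have h1 : Continuous (fun q : X × E => q.2 + ((0 : ℝ), q.1)) :=
      continuous_snd.add (continuous_const.prodMk continuous_fst)
    exact (ha.comp h1).mul (hb.comp continuous_snd)
  have hK : IsCompact (Icc (0 : X) 1 ×ˢ tsupport b) := isCompact_Icc.prod hbc
  have h2 : IntegrableOn (fun q : X × E => a (q.2 + (0, q.1)) * b q.2)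
      (Icc (0 : X) 1 ×ˢ tsupport b) ((volume : Measure X).prod (volume : Measure E)) :=
    hc.continuousOn.integrableOn_compact hK
  have h3 : IntegrableOn (fun q : X × E => a (q.2 + (0, q.1)) * b q.2)
      (Icc (0 : X) 1 ×ˢ univ) ((volume : Measure X).prod (volume : Measure E)) := by
    refine h2.of_forall_sdiff_eq_zero (measurableSet_Icc.prod MeasurableSet.univ) ?_
    rintro ⟨y, z⟩ ⟨h4, h5⟩
    have : z ∉ tsupport b := fun h => h5 ⟨h4.1, h⟩
    simp only [image_eq_zero_of_notMem_tsupport this, mul_zero]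
  unfold IntegrableOn at h3
  rwa [← Measure.prod_restrict, Measure.restrict_univ] at h3

theorem swap_shift {a b : E → ℝ} (ha : Continuous a) (hb : Continuous b)
    (hbc : HasCompactSupport b) (hper : ∀ t, Per (fun x => a (t, x))) :
    ∫ y in Icc (0 : X) 1, ∫ z : E, a (z + (0, y)) * b z = ∫ z, avg a z.1 * b z := by
  rw [integral_integral_swap (f := fun (y : X) (z : E) => a (z + (0, y)) * b z)
    (integrable_shift ha hb hbc)]
  refine integral_congr_ae (Eventually.of_forall fun z => ?_)
  simp only
  rw [integral_mul_const, avg_shift hper]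

variable {v : E → X} {p : E → ℝ}

/-- The averaged local energy balance. -/
theorem avg_balance (hv : Continuous v) (hp : Continuous p) {T : ℝ}
    (hper : ∀ (t : ℝ) (x : Fin 3 → ℝ) (k : Fin 3 → ℤ),
      v (t, x + fun i => (k i : ℝ)) = v (t, x) ∧ p (t, x + fun i => (k i : ℝ)) = p (t, x))
    (hD : ∀ ψ : E → ℝ, ContDiff ℝ ∞ ψ → HasCompactSupport ψ →
      tsupport ψ ⊆ Set.Ioo (0 : ℝ) T ×ˢ (Set.univ : Set (Fin 3 → ℝ)) → (∀ z, 0 ≤ ψ z) →
      Dis v p ψ = 0)
    {ψ : E → ℝ} (hψ : ContDiff ℝ ∞ ψ) (hψc : HasCompactSupport ψ)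
    (hψT : tsupport ψ ⊆ Set.Ioo (0 : ℝ) T ×ˢ (Set.univ : Set (Fin 3 → ℝ)))
    (hψ0 : ∀ z, 0 ≤ ψ z) :
    ∫ z, avg (fun z => (∑ i : Fin 3, v z i ^ 2) / 2) z.1 * fderiv ℝ ψ z et = 0 := by
  have hvi : ∀ i : Fin 3, Continuous (fun y => v y i) := fun i => (continuous_apply i).comp hv
  have cS := cont_S hv
  set S : E → ℝ := fun z => (∑ i : Fin 3, v z i ^ 2) / 2 with hS
  set a : Fin 3 → E → ℝ := fun j z => (S z + p z) * v z j with ha
  have ca : ∀ j, Continuous (a j) := fun j => (cS.add hp).mul (hvi j)
  have perS : ∀ t, Per (fun x => S (t, x)) := fun t x k => by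
    simp only [hS, (hper t x k).1]
  have pera : ∀ j t, Per (fun x => a j (t, x)) := fun j t x k => by
    simp only [ha, hS, (hper t x k).1, (hper t x k).2]
  have cd : ∀ w : E, Continuous (fun z => fderiv ℝ ψ z w) := fun w =>
    (hψ.continuous_fderiv (by simp)).clm_apply continuous_const
  have sd : ∀ w : E, HasCompactSupport (fun z => fderiv ℝ ψ z w) := fun w =>
    (hψc.fderiv ℝ).comp_left (g := fun L : E →L[ℝ] ℝ => L w) (by simp)
  -- the balance for every translate
  have h1 : ∀ y : X, ∫ z : E, (S (z + (0, y)) * fderiv ℝ ψ z et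
      + ∑ j, a j (z + (0, y)) * fderiv ℝ ψ z (ei j)) = 0 := by
    intro y
    set ψy : E → ℝ := fun z => ψ (z - (0, y)) with hψy
    have s1 : ContDiff ℝ ∞ ψy := hψ.comp (contDiff_id.sub contDiff_const)
    have s2 : HasCompactSupport ψy :=
      hψc.comp_homeomorph (Homeomorph.subRight ((0 : ℝ), y))
    have s3 : tsupport ψy ⊆ Set.Ioo (0 : ℝ) T ×ˢ (Set.univ : Set (Fin 3 → ℝ)) := by
      intro z hz
      have h2 : tsupport ψy ⊆ (fun z => z - ((0 : ℝ), y)) ⁻¹' tsupport ψ :=
        tsupport_comp_subset_preimage ψ (continuous_id.sub continuous_const)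
      have h3 := hψT (h2 hz)
      refine ⟨?_, mem_univ _⟩
      have h4 := h3.1
      simpa using h4
    have h5 := hD ψy s1 s2 s3 fun z => hψ0 _
    have hfd : ∀ z w : E, fderiv ℝ ψy z w = fderiv ℝ ψ (z - (0, y)) w := by
      intro z w
      have h6 : HasFDerivAt ψy ((fderiv ℝ ψ (z - (0, y))).comp (ContinuousLinearMap.id ℝ E)) z :=
        (hψ.differentiable (by simp) _).hasFDerivAt.comp z ((hasFDerivAt_id z).sub_const _)
      rw [h6.fderiv]; simp
    unfold Dis at h5
    rw [← integral_add_right_eq_self _ ((0 : ℝ), y)] at h5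
    refine Eq.trans ?_ h5
    refine integral_congr_ae (Eventually.of_forall fun z => ?_)
    simp only [hfd, add_sub_cancel_right, ha, hS, Finset.mul_sum, mul_assoc]
  -- integrate over the cube
  have h2 : ∫ y in Icc (0 : X) 1, ∫ z : E, (S (z + (0, y)) * fderiv ℝ ψ z et
      + ∑ j, a j (z + (0, y)) * fderiv ℝ ψ z (ei j)) = 0 := by
    simp only [h1, integral_zero]
  have sh : ∀ y : X, Continuous (fun z : E => z + ((0 : ℝ), y)) := fun y =>
    continuous_id.add continuous_const
  have I0 : ∀ y : X, Integrable (fun z : E => S (z + (0, y)) * fderiv ℝ ψ z et) := fun y =>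
    ((cS.comp (sh y)).mul (cd et)).integrable_of_hasCompactSupport (sd et).mul_left
  have Ij : ∀ j, ∀ y : X, Integrable (fun z : E => a j (z + (0, y)) * fderiv ℝ ψ z (ei j)) :=
    fun j y => (((ca j).comp (sh y)).mul (cd (ei j))).integrable_of_hasCompactSupport
      (sd (ei j)).mul_left
  have h3 : ∀ y : X, ∫ z : E, (S (z + (0, y)) * fderiv ℝ ψ z et
      + ∑ j, a j (z + (0, y)) * fderiv ℝ ψ z (ei j))
      = (∫ z : E, S (z + (0, y)) * fderiv ℝ ψ z et)
        + ∑ j, ∫ z : E, a j (z + (0, y)) * fderiv ℝ ψ z (ei j) := by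
    intro y
    rw [integral_add (I0 y) (integrable_finsetSum _ fun j _ => Ij j y),
      integral_finsetSum _ fun j _ => Ij j y]
  simp only [h3] at h2
  have J0 : Integrable (fun y : X => ∫ z : E, S (z + (0, y)) * fderiv ℝ ψ z et)
      (volume.restrict (Icc (0 : X) 1)) :=
    (integrable_shift cS (cd et) (sd et)).integral_prod_left
  have Jj : ∀ j, Integrable (fun y : X => ∫ z : E, a j (z + (0, y)) * fderiv ℝ ψ z (ei j))
      (volume.restrict (Icc (0 : X) 1)) := fun j =>
    (integrable_shift (ca j) (cd (ei j)) (sd (ei j))).integral_prod_left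
  rw [integral_add J0 (integrable_finsetSum _ fun j _ => Jj j),
    integral_finsetSum _ fun j _ => Jj j, swap_shift cS (cd et) (sd et) perS] at h2
  simp only [swap_shift (ca _) (cd (ei _)) (sd (ei _)) (pera _)] at h2
  have h4 : ∀ j, ∫ z : E, avg (a j) z.1 * fderiv ℝ ψ z (ei j) = 0 := by
    intro j
    have c1 : Continuous (fun z : E => avg (a j) z.1) := (continuous_avg (ca j)).comp continuous_fst
    have j1 : Integrable (fun z : E => avg (a j) z.1 * fderiv ℝ ψ z (ei j)) :=
      (c1.mul (cd (ei j))).integrable_of_hasCompactSupport (sd (ei j)).mul_left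
    have j2 : Integrable (fun z : E => avg (a j) z.1 * ψ z) :=
      (c1.mul hψ.continuous).integrable_of_hasCompactSupport hψc.mul_left
    have h5 := integral_bilinear_hasLineDerivAt_right_eq_neg_left_of_integrable
      (μ := (volume : Measure E)) (B := ContinuousLinearMap.mul ℝ ℝ)
      (f := fun z : E => avg (a j) z.1) (f' := fun _ => (0 : ℝ)) (g := ψ)
      (g' := fun z => fderiv ℝ ψ z (ei j)) (v := ei j)
      (by simp) (by simpa only [ContinuousLinearMap.mul_apply'] using j1)
      (by simpa only [ContinuousLinearMap.mul_apply'] using j2)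
      (fun z _ => by
        unfold HasLineDerivAt
        have : ∀ s : ℝ, (z + s • ei j).1 = z.1 := fun s => by simp
        simp only [this]
        exact hasDerivAt_const _ _)
      (fun z _ => (hψ.differentiable (by simp) z).hasFDerivAt.hasLineDerivAt (ei j))
    simpa only [ContinuousLinearMap.mul_apply', zero_mul, integral_zero, neg_zero] using h5
  simpa only [h4, Finset.sum_const_zero, add_zero] using h2

end Pool.Agent.EUL22
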