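import Pool.Agent.EUL22.Pos

/-!
Integrals of periodic functions over translated cubes.
-/

set_option autoImplicit false

open MeasureTheory Set Filter Topology
open scoped ContDiff ENNReal Pointwise

namespace Pool.Agent.EUL22

/-- Periodicity with respect to `ℤ³`. -/
def Per (f : X → ℝ) : Prop := ∀ (x : X) (k : Fin 3 → ℤ), f (x + fun i => (k i : ℝ)) = f x

theorem cube_translate {f : X → ℝ} (hf : Per f) (u : X) :
    ∫ y in Icc (0 : X) 1, f (u + y) = ∫ y in Icc (0 : X) 1, f y := by
  set b : Module.Basis (Fin 3) ℝ X := Pi.basisFun ℝ (Fin 3) with hb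
  set D : Set X := ZSpan.fundamentalDomain b with hD
  have hDpi : D = pi univ fun _ : Fin 3 => Ico (0 : ℝ) 1 := ZSpan.fundamentalDomain_pi_basisFun
  have hDI : D =ᵐ[volume] Icc (0 : X) 1 := by
    rw [hDpi]
    exact Measure.univ_pi_Ico_ae_eq_Icc (f := (0 : X)) (g := (1 : X))
  have hs : IsAddFundamentalDomain (Submodule.span ℤ (Set.range b)).toAddSubgroup D volume :=
    ZSpan.isAddFundamentalDomain' b volume
  have ht : IsAddFundamentalDomain (Submodule.span ℤ (Set.range b)).toAddSubgroup (u +ᵥ D)
      volume := hs.vadd_of_comm u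
  have hinv : ∀ (g : (Submodule.span ℤ (Set.range b)).toAddSubgroup) (x : X),
      f (g +ᵥ x) = f x := by
    intro g x
    have hg := (b.mem_span_iff_repr_mem ℤ (g : X)).mp g.2
    choose k hk using hg
    have e1 : (g +ᵥ x : X) = x + fun i => (k i : ℝ) := by
      funext i
      have := hk i
      simp only [hb, Pi.basisFun_repr] at this
      change (g : X) i + x i = x i + (k i : ℝ)
      rw [← this]
      simp [add_comm]
    rw [e1]
    exact hf x k
  haveI : Countable (Submodule.span ℤ (Set.range b)).toAddSubgroup :=
    inferInstanceAs (Countable (Submodule.span ℤ (Set.range b)))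
  have h1 := hs.setIntegral_eq ht hinv
  have h2 : ∫ y in u +ᵥ D, f y = ∫ y in D, f (u + y) := by
    have hmp := measurePreserving_add_left (volume : Measure X) u
    have he := (MeasurableEquiv.addLeft u).measurableEmbedding
    exact hmp.setIntegral_image_emb he f D
  rw [← setIntegral_congr_set hDI, ← setIntegral_congr_set hDI, ← h2, ← h1]

end Pool.Agent.EUL22
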