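import Pool.Agent.EUL22.Basic

/-!
The energy identity of a smooth flow with a Reynolds stress, tested with a compactly supported
function.
-/

set_option autoImplicit false

open MeasureTheory Set Filter Topology
open scoped ContDiff

namespace Pool.Agent.EUL22

theorem integral_fderiv_zero {g : E → ℝ} (hg : ContDiff ℝ 1 g) (hgc : HasCompactSupport g)
    (w : E) : ∫ z, fderiv ℝ g z w = 0 := by
  have hd : Continuous (fun z => fderiv ℝ g z w) :=
    (hg.continuous_fderiv one_ne_zero).clm_apply continuous_const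
  have hdc : HasCompactSupport (fun z => fderiv ℝ g z w) :=
    (hgc.fderiv ℝ).comp_left (g := fun L : E →L[ℝ] ℝ => L w) (by simp)
  have h := integral_mul_fderiv_eq_neg_fderiv_mul_of_integrable (μ := (volume : Measure E))
    (𝕜 := ℝ) (f := fun _ : E => (1 : ℝ)) (g := g) (v := w)
    (by simp) (by simpa using hd.integrable_of_hasCompactSupport hdc)
    (by simpa using hg.continuous.integrable_of_hasCompactSupport hgc)
    (fun _ _ => differentiableAt_const _)
    (fun z _ => (hg.differentiable one_ne_zero).differentiableAt)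
  simpa using h

theorem fd_mul {f g : E → ℝ} {z : E} (hf : DifferentiableAt ℝ f z) (hg : DifferentiableAt ℝ g z)
    (w : E) : fderiv ℝ (fun y => f y * g y) z w = f z * fderiv ℝ g z w + g z * fderiv ℝ f z w := by
  rw [fderiv_fun_mul hf hg]; simp

theorem fd_add {f g : E → ℝ} {z : E} (hf : DifferentiableAt ℝ f z) (hg : DifferentiableAt ℝ g z)
    (w : E) : fderiv ℝ (fun y => f y + g y) z w = fderiv ℝ f z w + fderiv ℝ g z w := by
  rw [fderiv_fun_add hf hg]; simp

theorem fd_sub {f g : E → ℝ} {z : E} (hf : DifferentiableAt ℝ f z) (hg : DifferentiableAt ℝ g z)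
    (w : E) : fderiv ℝ (fun y => f y - g y) z w = fderiv ℝ f z w - fderiv ℝ g z w := by
  rw [fderiv_fun_sub hf hg]; simp

theorem fd_kin {V : Fin 3 → E → ℝ} {z : E} (hV : ∀ i, DifferentiableAt ℝ (V i) z) (w : E) :
    fderiv ℝ (fun y => (∑ i, V i y ^ 2) / 2) z w = ∑ i, V i z * fderiv ℝ (V i) z w := by
  have h1 : ∀ i, HasFDerivAt (fun y => V i y ^ 2) ((2 * V i z) • fderiv ℝ (V i) z) z := by
    intro i
    have := (hV i).hasFDerivAt.pow 2
    simpa using this
  have h2 : HasFDerivAt (fun y => (∑ i, V i y ^ 2))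
      (∑ i : Fin 3, ((2 * V i z) • fderiv ℝ (V i) z)) z :=
    HasFDerivAt.fun_sum fun i _ => h1 i
  have h3 : HasFDerivAt (fun y => (∑ i, V i y ^ 2) / 2)
      ((2 : ℝ)⁻¹ • ∑ i : Fin 3, ((2 * V i z) • fderiv ℝ (V i) z)) z := by
    have := h2.const_mul (2 : ℝ)⁻¹
    refine this.congr_of_eventuallyEq (Eventually.of_forall fun y => ?_)
    simp only [div_eq_inv_mul]
  rw [h3.fderiv]
  simp [Fin.sum_univ_three]
  ring

/-- The pointwise divergence computation. -/
theorem pointwise_div {φ P : E → ℝ} {V : Fin 3 → E → ℝ} {W : Fin 3 → Fin 3 → E → ℝ} {z : E}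
    (hφ : DifferentiableAt ℝ φ z) (hP : DifferentiableAt ℝ P z)
    (hV : ∀ i, DifferentiableAt ℝ (V i) z) (hW : ∀ i j, DifferentiableAt ℝ (W i j) z)
    (hdiv : ∑ i, fderiv ℝ (V i) z (ei i) = 0)
    (hmom : ∀ i, fderiv ℝ (V i) z et + ∑ j, fderiv ℝ (W i j) z (ei j)
      + fderiv ℝ P z (ei i) = 0) :
    fderiv ℝ (fun y => φ y * ((∑ i, V i y ^ 2) / 2)) z et
      + ∑ j, fderiv ℝ (fun y => φ y * ((((∑ i, V i y ^ 2) / 2) + P y) * V j y)) z (ei j)
      + ∑ i, ∑ j, fderiv ℝ (fun y => (W i j y - V i y * V j y) * (φ y * V i y)) z (ei j)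
    = ((∑ i, V i z ^ 2) / 2) * fderiv ℝ φ z et
      + (((∑ i, V i z ^ 2) / 2) + P z) * ∑ j, V j z * fderiv ℝ φ z (ei j)
      + ∑ i, ∑ j, (W i j z - V i z * V j z)
          * (V i z * fderiv ℝ φ z (ei j) + φ z * fderiv ℝ (V i) z (ei j)) := by
  have hS0 : DifferentiableAt ℝ (fun y => ∑ i, V i y ^ 2) z :=
    DifferentiableAt.fun_sum fun i _ => (hV i).pow 2
  have hS : DifferentiableAt ℝ (fun y => (∑ i, V i y ^ 2) / 2) z := by
    simpa only [div_eq_mul_inv] using hS0.mul_const ((2 : ℝ)⁻¹)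
  have hSP : DifferentiableAt ℝ (fun y => ((∑ i, V i y ^ 2) / 2) + P y) z := hS.add hP
  have e1 : fderiv ℝ (fun y => φ y * ((∑ i, V i y ^ 2) / 2)) z et
      = φ z * (∑ i, V i z * fderiv ℝ (V i) z et)
        + ((∑ i, V i z ^ 2) / 2) * fderiv ℝ φ z et := by
    rw [fd_mul hφ hS, fd_kin hV]
  have e2 : ∀ j, fderiv ℝ (fun y => φ y * ((((∑ i, V i y ^ 2) / 2) + P y) * V j y)) z (ei j)
      = φ z * ((((∑ i, V i z ^ 2) / 2) + P z) * fderiv ℝ (V j) z (ei j)
          + V j z * ((∑ i, V i z * fderiv ℝ (V i) z (ei j)) + fderiv ℝ P z (ei j)))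
        + ((((∑ i, V i z ^ 2) / 2) + P z) * V j z) * fderiv ℝ φ z (ei j) := by
    intro j
    have h1 : DifferentiableAt ℝ (fun y => (((∑ i, V i y ^ 2) / 2) + P y) * V j y) z :=
      hSP.mul (hV j)
    rw [fd_mul hφ h1, fd_mul hSP (hV j), fd_add hS hP, fd_kin hV]
  have e3 : ∀ i j, fderiv ℝ (fun y => (W i j y - V i y * V j y) * (φ y * V i y)) z (ei j)
      = (W i j z - V i z * V j z)
          * (φ z * fderiv ℝ (V i) z (ei j) + V i z * fderiv ℝ φ z (ei j))
        + (φ z * V i z) * (fderiv ℝ (W i j) z (ei j)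
          - (V i z * fderiv ℝ (V j) z (ei j) + V j z * fderiv ℝ (V i) z (ei j))) := by
    intro i j
    have h1 : DifferentiableAt ℝ (fun y => V i y * V j y) z := (hV i).mul (hV j)
    have h2 : DifferentiableAt ℝ (fun y => W i j y - V i y * V j y) z := (hW i j).sub h1
    have h3 : DifferentiableAt ℝ (fun y => φ y * V i y) z := hφ.mul (hV i)
    rw [fd_mul h2 h3, fd_mul hφ (hV i), fd_sub (hW i j) h1, fd_mul (hV i) (hV j)]
  rw [e1]
  simp only [e2, e3]
  have m0 := hmom 0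
  have m1 := hmom 1
  have m2 := hmom 2
  simp only [Fin.sum_univ_three] at hdiv m0 m1 m2 ⊢
  linear_combination (φ z * V 0 z) * m0 + (φ z * V 1 z) * m1 + (φ z * V 2 z) * m2
    + φ z * (P z - (V 0 z ^ 2 + V 1 z ^ 2 + V 2 z ^ 2) / 2) * hdiv

/-- The energy identity with the Reynolds stress, tested with `φ`. -/
theorem energy_identity {φ P : E → ℝ} {V : Fin 3 → E → ℝ} {W : Fin 3 → Fin 3 → E → ℝ}
    (hφ : ContDiff ℝ ∞ φ) (hφc : HasCompactSupport φ) (hP : ContDiff ℝ ∞ P)
    (hV : ∀ i, ContDiff ℝ ∞ (V i)) (hW : ∀ i j, ContDiff ℝ ∞ (W i j))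
    (hdiv : ∀ z ∈ tsupport φ, ∑ i, fderiv ℝ (V i) z (ei i) = 0)
    (hmom : ∀ z ∈ tsupport φ, ∀ i, fderiv ℝ (V i) z et + ∑ j, fderiv ℝ (W i j) z (ei j)
      + fderiv ℝ P z (ei i) = 0) :
    ∫ z, (((∑ i, V i z ^ 2) / 2) * fderiv ℝ φ z et
      + (((∑ i, V i z ^ 2) / 2) + P z) * ∑ j, V j z * fderiv ℝ φ z (ei j)
      + ∑ i, ∑ j, (W i j z - V i z * V j z)
          * (V i z * fderiv ℝ φ z (ei j) + φ z * fderiv ℝ (V i) z (ei j))) = 0 := by
  have hd : ∀ {f : E → ℝ}, ContDiff ℝ ∞ f → ∀ z, DifferentiableAt ℝ f z := fun hf z =>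
    (hf.differentiable (by simp)).differentiableAt
  have hS : ContDiff ℝ ∞ (fun y => (∑ i, V i y ^ 2) / 2) := by
    exact (ContDiff.sum fun i _ => (hV i).pow 2).div_const 2
  have c1 : ContDiff ℝ 1 (fun y => φ y * ((∑ i, V i y ^ 2) / 2)) :=
    (hφ.mul hS).of_le (by exact_mod_cast le_top)
  have c2 : ∀ j, ContDiff ℝ 1 (fun y => φ y * ((((∑ i, V i y ^ 2) / 2) + P y) * V j y)) :=
    fun j => (hφ.mul ((hS.add hP).mul (hV j))).of_le (by exact_mod_cast le_top)
  have c3 : ∀ i j, ContDiff ℝ 1 (fun y => (W i j y - V i y * V j y) * (φ y * V i y)) :=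
    fun i j => (((hW i j).sub ((hV i).mul (hV j))).mul (hφ.mul (hV i))).of_le
      (by exact_mod_cast le_top)
  have s1 : HasCompactSupport (fun y => φ y * ((∑ i, V i y ^ 2) / 2)) := hφc.mul_right
  have s2 : ∀ j, HasCompactSupport (fun y => φ y * ((((∑ i, V i y ^ 2) / 2) + P y) * V j y)) :=
    fun j => hφc.mul_right
  have s3 : ∀ i j, HasCompactSupport (fun y => (W i j y - V i y * V j y) * (φ y * V i y)) :=
    fun i j => (hφc.mul_right).mul_left
  have key : ∀ z, (((∑ i, V i z ^ 2) / 2) * fderiv ℝ φ z et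
      + (((∑ i, V i z ^ 2) / 2) + P z) * ∑ j, V j z * fderiv ℝ φ z (ei j)
      + ∑ i, ∑ j, (W i j z - V i z * V j z)
          * (V i z * fderiv ℝ φ z (ei j) + φ z * fderiv ℝ (V i) z (ei j)))
      = fderiv ℝ (fun y => φ y * ((∑ i, V i y ^ 2) / 2)) z et
      + ∑ j, fderiv ℝ (fun y => φ y * ((((∑ i, V i y ^ 2) / 2) + P y) * V j y)) z (ei j)
      + ∑ i, ∑ j, fderiv ℝ (fun y => (W i j y - V i y * V j y) * (φ y * V i y)) z (ei j) := by
    intro z
    by_cases hz : z ∈ tsupport φ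
    · exact (pointwise_div (hd hφ z) (hd hP z) (fun i => hd (hV i) z) (fun i j => hd (hW i j) z)
        (hdiv z hz) (hmom z hz)).symm
    · have z1 : φ z = 0 := image_eq_zero_of_notMem_tsupport hz
      have hz' : z ∉ tsupport (fderiv ℝ φ) := fun h => hz (tsupport_fderiv_subset ℝ h)
      have z2 : fderiv ℝ φ z = 0 := image_eq_zero_of_notMem_tsupport hz'
      have t1 : fderiv ℝ (fun y => φ y * ((∑ i, V i y ^ 2) / 2)) z et = 0 := by
        rw [fd_mul (hd hφ z) (hd hS z)]; simp [z1, z2]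
      have t2 : ∀ j, fderiv ℝ
          (fun y => φ y * ((((∑ i, V i y ^ 2) / 2) + P y) * V j y)) z (ei j) = 0 := by
        intro j
        have h1 : DifferentiableAt ℝ (fun y => (((∑ i, V i y ^ 2) / 2) + P y) * V j y) z :=
          hd ((hS.add hP).mul (hV j)) z
        rw [fd_mul (hd hφ z) h1]; simp [z1, z2]
      have t3 : ∀ i j, fderiv ℝ
          (fun y => (W i j y - V i y * V j y) * (φ y * V i y)) z (ei j) = 0 := by
        intro i j
        have h2 : DifferentiableAt ℝ (fun y => W i j y - V i y * V j y) z :=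
          hd ((hW i j).sub ((hV i).mul (hV j))) z
        have h3 : DifferentiableAt ℝ (fun y => φ y * V i y) z := hd (hφ.mul (hV i)) z
        rw [fd_mul h2 h3, fd_mul (hd hφ z) (hd (hV i) z)]
        simp [z1, z2]
      simp only [t1, t2, t3, z1, z2]
      simp
  simp only [key]
  have i1 : Integrable (fun z => fderiv ℝ (fun y => φ y * ((∑ i, V i y ^ 2) / 2)) z et) :=
    ((c1.continuous_fderiv one_ne_zero).clm_apply continuous_const).integrable_of_hasCompactSupport
      ((s1.fderiv ℝ).comp_left (g := fun L : E →L[ℝ] ℝ => L et) (by simp))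
  have i2 : ∀ j, Integrable (fun z => fderiv ℝ
      (fun y => φ y * ((((∑ i, V i y ^ 2) / 2) + P y) * V j y)) z (ei j)) := fun j =>
    (((c2 j).continuous_fderiv one_ne_zero).clm_apply
      continuous_const).integrable_of_hasCompactSupport
      (((s2 j).fderiv ℝ).comp_left (g := fun L : E →L[ℝ] ℝ => L (ei j)) (by simp))
  have i3 : ∀ i j, Integrable (fun z => fderiv ℝ
      (fun y => (W i j y - V i y * V j y) * (φ y * V i y)) z (ei j)) := fun i j =>
    (((c3 i j).continuous_fderiv one_ne_zero).clm_apply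
      continuous_const).integrable_of_hasCompactSupport
      (((s3 i j).fderiv ℝ).comp_left (g := fun L : E →L[ℝ] ℝ => L (ei j)) (by simp))
  have i2' := integrable_finsetSum (Finset.univ : Finset (Fin 3)) fun j _ => i2 j
  have i3' : ∀ i : Fin 3, Integrable (fun z => ∑ j : Fin 3, fderiv ℝ
      (fun y => (W i j y - V i y * V j y) * (φ y * V i y)) z (ei j)) := fun i =>
    integrable_finsetSum (Finset.univ : Finset (Fin 3)) fun j _ => i3 i j
  have i3'' := integrable_finsetSum (Finset.univ : Finset (Fin 3)) fun i _ => i3' i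
  have i12 : Integrable (fun z => fderiv ℝ (fun y => φ y * ((∑ i, V i y ^ 2) / 2)) z et
      + ∑ j, fderiv ℝ (fun y => φ y * ((((∑ i, V i y ^ 2) / 2) + P y) * V j y)) z (ei j)) :=
    i1.add i2'
  rw [integral_add i12 i3'', integral_add i1 i2', integral_finsetSum _ fun j _ => i2 j,
    integral_finsetSum _ fun i _ => i3' i, integral_fderiv_zero c1 s1]
  simp only [integral_finsetSum _ fun j _ => i3 _ j, integral_fderiv_zero (c2 _) (s2 _),
    integral_fderiv_zero (c3 _ _) (s3 _ _)]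
  simp

end Pool.Agent.EUL22
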