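import Pool.Agent.EUL22.Cst

/-!
Constancy of the kinetic energy.
-/

set_option autoImplicit false

open MeasureTheory Set Filter Topology
open scoped ContDiff ENNReal

namespace Pool.Agent.EUL22

variable {v : E → X} {p : E → ℝ}

/-- A bump function on `ℝ³`. -/
noncomputable def bumpX : ContDiffBump (0 : X) := ⟨1, 2, by norm_num, by norm_num⟩

theorem fderiv_test {κ : ℝ → ℝ} (hκ : ContDiff ℝ ∞ κ) (t₀ : ℝ) (z : E) :
    fderiv ℝ (fun z : E => κ (t₀ - z.1) * bumpX z.2) z et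
      = -(deriv κ (t₀ - z.1)) * bumpX z.2 := by
  have h1 : HasFDerivAt (fun z : E => t₀ - z.1) (-(ContinuousLinearMap.fst ℝ ℝ X)) z :=
    hasFDerivAt_fst.const_sub t₀
  have h2 : HasFDerivAt (fun z : E => κ (t₀ - z.1))
      (deriv κ (t₀ - z.1) • (-(ContinuousLinearMap.fst ℝ ℝ X))) z :=
    (hκ.differentiable (by simp) _).hasDerivAt.comp_hasFDerivAt z h1
  have hb : ContDiff ℝ ∞ (bumpX : X → ℝ) := bumpX.contDiff
  have h3 : HasFDerivAt (fun z : E => bumpX z.2)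
      ((fderiv ℝ bumpX z.2).comp (ContinuousLinearMap.snd ℝ ℝ X)) z :=
    (hb.differentiable (by simp) _).hasFDerivAt.comp z hasFDerivAt_snd
  have h4 := fd_mul h2.differentiableAt h3.differentiableAt et
  rw [h4, h2.fderiv, h3.fderiv]
  simp
  ring

theorem deriv_conv_zero (hv : Continuous v) (hp : Continuous p) {T : ℝ}
    (hper : ∀ (t : ℝ) (x : Fin 3 → ℝ) (k : Fin 3 → ℤ),
      v (t, x + fun i => (k i : ℝ)) = v (t, x) ∧ p (t, x + fun i => (k i : ℝ)) = p (t, x))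
    (hD : ∀ ψ : E → ℝ, ContDiff ℝ ∞ ψ → HasCompactSupport ψ →
      tsupport ψ ⊆ Set.Ioo (0 : ℝ) T ×ˢ (Set.univ : Set (Fin 3 → ℝ)) → (∀ z, 0 ≤ ψ z) →
      Dis v p ψ = 0)
    {κ : ℝ → ℝ} (hκ : ContDiff ℝ ∞ κ) (hκ0 : ∀ s, 0 ≤ κ s)
    {δ : ℝ} (hκδ : tsupport κ ⊆ Metric.closedBall 0 δ) {t₀ : ℝ} (h1 : δ < t₀) (h2 : t₀ < T - δ) :
    ∫ s, deriv κ s * avg (fun z => (∑ i : Fin 3, v z i ^ 2) / 2) (t₀ - s) = 0 := by
  set e : ℝ → ℝ := avg (fun z => (∑ i : Fin 3, v z i ^ 2) / 2) with he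
  have hb : ContDiff ℝ ∞ (bumpX : X → ℝ) := bumpX.contDiff
  set ψ : E → ℝ := fun z => κ (t₀ - z.1) * bumpX z.2 with hψ
  have s1 : ContDiff ℝ ∞ ψ :=
    (hκ.comp (contDiff_const.sub contDiff_fst)).mul (hb.comp contDiff_snd)
  have hmem : ∀ z : E, z ∈ Function.support ψ →
      z.1 ∈ Metric.closedBall t₀ δ ∧ z.2 ∈ Metric.closedBall (0 : X) 2 := by
    intro z hz
    have a1 : κ (t₀ - z.1) ≠ 0 := left_ne_zero_of_mul hz
    have a2 : bumpX z.2 ≠ 0 := right_ne_zero_of_mul hz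
    have a3 := hκδ (subset_tsupport κ a1)
    have a4 : z.2 ∈ tsupport (bumpX : X → ℝ) := subset_tsupport _ a2
    rw [bumpX.tsupport_eq] at a4
    refine ⟨?_, a4⟩
    rw [Metric.mem_closedBall, Real.dist_eq] at a3 ⊢
    rw [sub_zero] at a3
    rwa [abs_sub_comm]
  have hcl : tsupport ψ ⊆ Metric.closedBall t₀ δ ×ˢ Metric.closedBall (0 : X) 2 :=
    closure_minimal (fun z hz => hmem z hz)
      (Metric.isClosed_closedBall.prod Metric.isClosed_closedBall)
  have s2 : HasCompactSupport ψ :=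
    HasCompactSupport.of_support_subset_isCompact
      ((isCompact_closedBall t₀ δ).prod (isCompact_closedBall (0 : X) 2))
      ((subset_tsupport ψ).trans hcl)
  have s3 : tsupport ψ ⊆ Set.Ioo (0 : ℝ) T ×ˢ (Set.univ : Set (Fin 3 → ℝ)) := by
    intro z hz
    have a1 := (hcl hz).1
    rw [Metric.mem_closedBall, Real.dist_eq, abs_le] at a1
    refine ⟨⟨?_, ?_⟩, mem_univ _⟩
    · linarith [a1.1]
    · linarith [a1.2]
  have h3 := avg_balance hv hp hper hD s1 s2 s3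
    (fun z => mul_nonneg (hκ0 _) bumpX.nonneg)
  have h4 : ∀ z : E, avg (fun z => (∑ i : Fin 3, v z i ^ 2) / 2) z.1 * fderiv ℝ ψ z et
      = (-(e z.1 * deriv κ (t₀ - z.1))) * bumpX z.2 := by
    intro z
    rw [hψ, fderiv_test hκ]
    ring
  simp only [h4] at h3
  have h5 : ∫ z : E, (-(e z.1 * deriv κ (t₀ - z.1))) * bumpX z.2
      = (∫ t : ℝ, -(e t * deriv κ (t₀ - t))) * ∫ x : X, bumpX x :=
    integral_prod_mul (μ := (volume : Measure ℝ)) (ν := (volume : Measure X))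
      (fun t => -(e t * deriv κ (t₀ - t))) (fun x => bumpX x)
  rw [h5, mul_eq_zero] at h3
  have hpos : 0 < ∫ x : X, bumpX x := bumpX.integral_pos
  rcases h3 with h3 | h3
  · rw [integral_neg, neg_eq_zero] at h3
    rw [← integral_sub_left_eq_self (fun s => deriv κ s * e (t₀ - s)) volume t₀]
    rw [← h3]
    refine integral_congr_ae (Eventually.of_forall fun s => ?_)
    simp only [sub_sub_cancel]
    ring
  · exact absurd h3 hpos.ne'

theorem energy_const (hv : Continuous v) (hp : Continuous p) {T : ℝ} (hT : 0 < T)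
    (hper : ∀ (t : ℝ) (x : Fin 3 → ℝ) (k : Fin 3 → ℤ),
      v (t, x + fun i => (k i : ℝ)) = v (t, x) ∧ p (t, x + fun i => (k i : ℝ)) = p (t, x))
    (hD : ∀ ψ : E → ℝ, ContDiff ℝ ∞ ψ → HasCompactSupport ψ →
      tsupport ψ ⊆ Set.Ioo (0 : ℝ) T ×ˢ (Set.univ : Set (Fin 3 → ℝ)) → (∀ z, 0 ≤ ψ z) →
      Dis v p ψ = 0) :
    ∀ t₁ ∈ Icc (0 : ℝ) T, ∀ t₂ ∈ Icc (0 : ℝ) T,
      avg (fun z => (∑ i : Fin 3, v z i ^ 2) / 2) t₁
        = avg (fun z => (∑ i : Fin 3, v z i ^ 2) / 2) t₂ := by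
  set e : ℝ → ℝ := avg (fun z => (∑ i : Fin 3, v z i ^ 2) / 2) with he
  have ce : Continuous e := continuous_avg (cont_S hv)
  have key : ∀ t₁ ∈ Ioo (0 : ℝ) T, ∀ t₂ ∈ Ioo (0 : ℝ) T, e t₁ = e t₂ := by
    intro t₁ h1 t₂ h2
    refine eq_of_forall_dist_le fun ε hε => ?_
    obtain ⟨δ1, hδ1, hc1⟩ := Metric.continuous_iff.mp ce t₁ (ε / 2) (half_pos hε)
    obtain ⟨δ2, hδ2, hc2⟩ := Metric.continuous_iff.mp ce t₂ (ε / 2) (half_pos hε)
    set δ : ℝ := min (min δ1 δ2) (min (min (t₁ / 2) ((T - t₁) / 2))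
      (min (t₂ / 2) ((T - t₂) / 2))) with hδ
    have g1 : 0 < t₁ / 2 := half_pos h1.1
    have g2 : 0 < (T - t₁) / 2 := half_pos (by linarith [h1.2])
    have g3 : 0 < t₂ / 2 := half_pos h2.1
    have g4 : 0 < (T - t₂) / 2 := half_pos (by linarith [h2.2])
    have hδ0 : 0 < δ := by
      refine lt_min (lt_min hδ1 hδ2) (lt_min (lt_min g1 g2) (lt_min g3 g4))
    have l1 : δ ≤ δ1 := (min_le_left _ _).trans (min_le_left _ _)
    have l2 : δ ≤ δ2 := (min_le_left _ _).trans (min_le_right _ _)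
    have l3 : δ ≤ t₁ / 2 := (min_le_right _ _).trans ((min_le_left _ _).trans (min_le_left _ _))
    have l4 : δ ≤ (T - t₁) / 2 :=
      (min_le_right _ _).trans ((min_le_left _ _).trans (min_le_right _ _))
    have l5 : δ ≤ t₂ / 2 := (min_le_right _ _).trans ((min_le_right _ _).trans (min_le_left _ _))
    have l6 : δ ≤ (T - t₂) / 2 :=
      (min_le_right _ _).trans ((min_le_right _ _).trans (min_le_right _ _))
    let φ : ContDiffBump (0 : ℝ) := ⟨δ / 2, δ, half_pos hδ0, half_lt_self hδ0⟩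
    set κ : ℝ → ℝ := φ.normed volume with hκ
    have k1 : ContDiff ℝ ∞ κ := φ.contDiff_normed
    have k2 : HasCompactSupport κ := φ.hasCompactSupport_normed
    have k3 : ∀ s, 0 ≤ κ s := φ.nonneg_normed
    have k4 : tsupport κ ⊆ Metric.closedBall 0 δ := by
      rw [hκ, φ.tsupport_normed_eq]
    set f : ℝ → ℝ := convolution κ e (ContinuousLinearMap.lsmul ℝ ℝ) volume with hf
    have k1' : ContDiff ℝ 1 κ := k1.of_le (by exact_mod_cast le_top)
    have hder : ∀ t₀, HasDerivAt f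
        (convolution (deriv κ) e (ContinuousLinearMap.lsmul ℝ ℝ) volume t₀) t₀ := fun t₀ =>
      k2.hasDerivAt_convolution_left (ContinuousLinearMap.lsmul ℝ ℝ) k1' ce.locallyIntegrable t₀
    have hzero : ∀ t₀ ∈ Ioo δ (T - δ),
        convolution (deriv κ) e (ContinuousLinearMap.lsmul ℝ ℝ) volume t₀ = 0 := by
      intro t₀ ht
      have := deriv_conv_zero hv hp hper hD k1 k3 k4 ht.1 ht.2
      simpa only [convolution, ContinuousLinearMap.lsmul_apply, smul_eq_mul] using this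
    have m1 : t₁ ∈ Ioo δ (T - δ) := ⟨by linarith, by linarith⟩
    have m2 : t₂ ∈ Ioo δ (T - δ) := ⟨by linarith, by linarith⟩
    have hcon : f t₁ = f t₂ := by
      refine isOpen_Ioo.is_const_of_deriv_eq_zero isPreconnected_Ioo
        (fun t _ => (hder t).differentiableAt.differentiableWithinAt) ?_ m1 m2
      intro t ht
      rw [(hder t).deriv, hzero t ht]
      rfl
    have d1 : dist (f t₁) (e t₁) ≤ ε / 2 :=
      φ.dist_normed_convolution_le ce.aestronglyMeasurable fun x hx =>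
        (hc1 x ((Metric.mem_ball.mp hx).trans_le l1)).le
    have d2 : dist (f t₂) (e t₂) ≤ ε / 2 :=
      φ.dist_normed_convolution_le ce.aestronglyMeasurable fun x hx =>
        (hc2 x ((Metric.mem_ball.mp hx).trans_le l2)).le
    calc dist (e t₁) (e t₂) ≤ dist (e t₁) (f t₁) + dist (f t₁) (e t₂) := dist_triangle _ _ _
      _ ≤ ε / 2 + ε / 2 := by
          refine add_le_add ?_ ?_
          · rw [dist_comm]; exact d1
          · rw [hcon]; exact d2
      _ = ε := add_halves ε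
  have hmid : T / 2 ∈ Ioo (0 : ℝ) T := ⟨half_pos hT, half_lt_self hT⟩
  have hcl : Icc (0 : ℝ) T ⊆ {t | e t = e (T / 2)} := by
    rw [← closure_Ioo hT.ne]
    exact closure_minimal (fun t ht => key t ht _ hmid) (isClosed_eq ce continuous_const)
  intro t₁ h1 t₂ h2
  have a1 : e t₁ = e (T / 2) := hcl h1
  have a2 : e t₂ = e (T / 2) := hcl h2
  rw [a1, a2]

end Pool.Agent.EUL22
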