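import Pool.Agent.EUL22.Local

/-!
The energy flux near a plane regular point.
-/

set_option autoImplicit false

open MeasureTheory Set Filter Topology
open scoped ContDiff

namespace Pool.Agent.EUL22

/-- The main kernel: width `ε` in space and `ε ^ m` in time. -/
noncomputable def Km (m : ℕ) {ε : ℝ} (hε : 0 < ε) : E → ℝ := KL (scal (pow_pos hε m) hε)

/-- The support set of the main kernel. -/
def Nm (m : ℕ) (ε : ℝ) : Set E := {y | |y.1| ≤ ε ^ m ∧ ‖y.2‖ ≤ ε}

theorem isKer_Km (m : ℕ) {ε : ℝ} (hε : 0 < ε) : IsKer (Km m hε) (Nm m ε) :=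
  let h := isKer_KL (scal (pow_pos hε m) hε)
  ⟨h.smooth, h.cpt, h.nonneg, h.int_one, fun _ hy => scal_supp (pow_pos hε m) hε (h.supp hy)⟩

theorem integral_Km (m : ℕ) {ε : ℝ} (hε : 0 < ε) {k : X} (hk : ∑ i, k i * k i = 1) :
    ∫ y, |fderiv ℝ (Km m hε) y (0, k)| ≤ C0 * ε⁻¹ :=
  (integral_abs_fderiv_KL _ _).trans
    (mul_le_mul_of_nonneg_left (scal_dir (pow_pos hε m) hε hk) C0_nonneg)

theorem frame_parseval {a b c : X} (F : Frame a b c) (x y : X) :
    dp a x * dp a y + dp b x * dp b y + dp c x * dp c y = ∑ j, x j * y j := by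
  have h := F.compl
  have h00 := h 0 0
  have h01 := h 0 1
  have h02 := h 0 2
  have h11 := h 1 1
  have h12 := h 1 2
  have h22 := h 2 2
  simp only [dp, Fin.sum_univ_three]
  simp at h00 h01 h02 h11 h12 h22
  linear_combination x 0 * y 0 * h00 + x 1 * y 1 * h11 + x 2 * y 2 * h22
    + (x 0 * y 1 + x 1 * y 0) * h01 + (x 0 * y 2 + x 2 * y 0) * h02
    + (x 1 * y 2 + x 2 * y 1) * h12

/-- The Reynolds stress of a kernel. -/
noncomputable def Rey (K : E → ℝ) (v : E → X) (z : E) (i j : Fin 3) : ℝ :=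
  cv K (fun y => v y i * v y j) z - cv K (fun y => v y i) z * cv K (fun y => v y j) z

theorem dp_rey {K : E → ℝ} {N : Set E} (hK : IsKer K N) {v : E → X} (hv : Continuous v)
    (k : X) (z : E) (i : Fin 3) :
    dp k (Rey K v z i) = cv K (fun y => v y i * dp k (v y)) z
      - cv K (fun y => v y i) z * cv K (fun y => dp k (v y)) z := by
  have hvi : ∀ i : Fin 3, Continuous (fun y => v y i) := fun i => (continuous_apply i).comp hv
  have e1 : cv K (fun y => v y i * dp k (v y)) z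
      = ∑ j, k j * cv K (fun y => v y i * v y j) z := by
    unfold cv dp
    have h1 : ∀ y, (v y i * ∑ j, k j * v y j) * K (z - y)
        = ∑ j, k j * (v y i * v y j * K (z - y)) := by
      intro y
      rw [Finset.mul_sum, Finset.sum_mul]
      exact Finset.sum_congr rfl fun i _ => by ring
    simp only [h1]
    rw [integral_finsetSum]
    · exact Finset.sum_congr rfl fun i _ => integral_const_mul _ _
    · intro j _
      exact (integrable_mul_comp_sub ((hvi i).mul (hvi j)) hK.smooth.continuous hK.cpt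
        z).const_mul _
  rw [e1, cv_dp hK hv, Finset.mul_sum, ← Finset.sum_sub_distrib]
  unfold dp Rey
  exact Finset.sum_congr rfl fun j _ => by ring

theorem dp_fderiv {K : E → ℝ} {f : E → ℝ} (k : X) (z : E) :
    dp k (fun j => fderiv ℝ (cv K f) z (ei j)) = fderiv ℝ (cv K f) z (0, k) := by
  rw [sum_smul_ei k, map_sum]
  simp only [map_smul, smul_eq_mul]
  rfl

theorem pow_rpow_le {ε : ℝ} (hε : 0 < ε) (hε1 : ε ≤ 1) {m : ℕ} {β g : ℝ}
    (hg : g ≤ 1) (hm : 1 ≤ m * β) : (ε ^ m) ^ β ≤ ε ^ g := by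
  rw [← Real.rpow_natCast, ← Real.rpow_mul hε.le]
  exact Real.rpow_le_rpow_of_exponent_ge hε hε1 (hg.trans hm)

theorem three_rpow_le {ε g : ℝ} (hε : 0 < ε) (hg : g ≤ 1) :
    (3 * ε) ^ g ≤ 3 * ε ^ g := by
  rw [Real.mul_rpow (by norm_num) hε.le]
  refine mul_le_mul_of_nonneg_right ?_ (Real.rpow_nonneg hε.le _)
  calc (3 : ℝ) ^ g ≤ 3 ^ (1 : ℝ) := Real.rpow_le_rpow_of_exponent_le (by norm_num) hg
    _ = 3 := Real.rpow_one 3

variable {v : E → X} {z₀ : E} {R : ℝ} {a b c : X} {g₁ g₂ β C : ℝ}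

/-- The flux estimate near a plane regular point. -/
theorem Loc.flux (L : Loc v z₀ R a b c g₁ g₂ β C) (hv : Continuous v) {T : ℝ}
    (hd : WeakDiv T v) (hT : ∀ t, |t - z₀.1| ≤ R → t ∈ Set.Ioo 0 T) {m : ℕ} (hm1 : 1 ≤ m)
    (hm : 1 ≤ m * β) :
    ∃ M : ℝ, 0 ≤ M ∧ ∀ (ε : ℝ) (hε : 0 < ε), ε ≤ R / 64 → ∀ t x, InB z₀ (R / 8) t x →
      |∑ i, ∑ j, Rey (Km m hε) v (t, x) i j
        * fderiv ℝ (cv (Km m hε) (fun y => v y i)) (t, x) (ei j)|
        ≤ M * (ε ^ g₁ * (ε ^ g₂ * ε ^ g₂) * ε⁻¹) := by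
  obtain ⟨C', hC', hn⟩ := L.normal hv hd hT
  have hC := L.Cnn
  have hC0 := C0_nonneg
  have hRp := L.Rpos
  have hR1 := L.Rle
  have F := L.frame
  refine ⟨3 * (2 * (2 * (2 * C * (6 * C)) * (3 * C * C0))
    + 2 * (2 * C * (21 * C + 3 * C')) * (2 * C * C0)), by positivity, ?_⟩
  intro ε hε hεR t x hz
  have hε1 : ε ≤ 1 := by linarith
  have hK := isKer_Km m hε
  set K := Km m hε with hKdef
  have hvi : ∀ i : Fin 3, Continuous (fun y => v y i) := fun i => (continuous_apply i).comp hv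
  have eg1 : 0 ≤ ε ^ g₁ := Real.rpow_nonneg hε.le _
  have eg2 : 0 ≤ ε ^ g₂ := Real.rpow_nonneg hε.le _
  have epow : ε ^ m ≤ ε := by
    calc ε ^ m ≤ ε ^ 1 := pow_le_pow_of_le_one hε.le hε1 hm1
      _ = ε := pow_one ε
  have eb1 : (ε ^ m) ^ β ≤ ε ^ g₁ := pow_rpow_le hε hε1 L.g1le hm
  have eb2 : (ε ^ m) ^ β ≤ ε ^ g₂ := pow_rpow_le hε hε1 L.g2le hm
  have e3 : (3 * ε) ^ g₁ ≤ 3 * ε ^ g₁ := three_rpow_le hε L.g1le
  -- increments of `v`
  have inc : ∀ y ∈ Nm m ε, ‖v ((t, x) - y) - v (t, x)‖ ≤ 2 * C * ε ^ g₂ := by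
    rintro y ⟨h0, h1⟩
    have h0' : |y.1| ≤ ε := h0.trans epow
    have m1 : InB z₀ (R / 8 + ε) (t - y.1) (x - y.2) := hz.move h0' h1
    have m2 : InB z₀ (R / 8 + ε) (t - y.1) x := by
      have := hz.move (y := (0 : X)) h0' (by simpa using hε.le)
      rwa [sub_zero] at this
    have s1 := L.space (t - y.1) (x - y.2) x (m1.mono (by linarith)) (m2.mono (by linarith))
    have s2 := L.time (t - y.1) t x (m2.mono (by linarith)) (hz.mono (by linarith))
    have q1 : ‖x - y.2 - x‖ = ‖y.2‖ := by rw [← norm_neg y.2]; congr 1; abel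
    have q2 : |t - y.1 - t| = |y.1| := by rw [← abs_neg y.1]; congr 1; ring
    rw [q1] at s1
    rw [q2] at s2
    have s3 := mul_le_mul_of_nonneg_left (Real.rpow_le_rpow (norm_nonneg _) h1 L.g2pos.le) hC
    have s4 := mul_le_mul_of_nonneg_left
      ((Real.rpow_le_rpow (abs_nonneg _) h0 L.βpos.le).trans eb2) hC
    have e1 : (t, x) - y = (t - y.1, x - y.2) := rfl
    rw [e1]
    have tri : v (t - y.1, x - y.2) - v (t, x)
        = (v (t - y.1, x - y.2) - v (t - y.1, x)) + (v (t - y.1, x) - v (t, x)) := by abel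
    rw [tri]
    refine (norm_add_le _ _).trans ?_
    linarith
  have inci : ∀ i : Fin 3, ∀ y ∈ Nm m ε, |v ((t, x) - y) i - v (t, x) i| ≤ 2 * C * ε ^ g₂ :=
    fun i y hy => (norm_le_pi_norm (v ((t, x) - y) - v (t, x)) i).trans (inc y hy)
  have inck : ∀ k : X, ∑ i, k i * k i = 1 → ∀ y ∈ Nm m ε,
      |dp k (v ((t, x) - y)) - dp k (v (t, x))| ≤ 6 * C * ε ^ g₂ := by
    intro k hk y hy
    refine (abs_dp_sub_le hk _ _).trans ?_
    have := inc y hy
    linarith
  have incc : ∀ y ∈ Nm m ε,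
      |dp c (v ((t, x) - y)) - dp c (v (t, x))| ≤ (21 * C + 3 * C') * ε ^ g₁ := by
    rintro y ⟨h0, h1⟩
    have h0' : |y.1| ≤ 3 * ε := (h0.trans epow).trans (by linarith)
    have ha : |dp a y.2| ≤ 3 * ε := (abs_dp_le F.aa _).trans (by linarith)
    have hb : |dp b y.2| ≤ 3 * ε := (abs_dp_le F.bb _).trans (by linarith)
    have hc : |dp c y.2| ≤ 3 * ε := (abs_dp_le F.cc _).trans (by linarith)
    have n1 : ‖dp a y.2 • a‖ ≤ 3 * ε := (norm_smul_unit_le F.aa _).trans ha
    have n2 : ‖dp b y.2 • b‖ ≤ 3 * ε := (norm_smul_unit_le F.bb _).trans hb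
    have p0 : |y.1| ≤ ε := h0.trans epow
    have m1 : InB z₀ (R / 8 + 3 * ε) (t - y.1) (x - dp a y.2 • a) := hz.move h0' n1
    have hlast : |dp c (v (t - y.1, x - dp a y.2 • a - dp b y.2 • b - dp c y.2 • c))
        - dp c (v (t - y.1, x - dp a y.2 • a - dp b y.2 • b))| ≤ 3 * C' * ε ^ g₁ := by
      have m2 : InB z₀ (R / 4) (t - y.1) (x - dp a y.2 • a - dp b y.2 • b) := by
        constructor
        · have := (hz.move (y := (0 : X)) p0 (by simpa using hε.le)).1
          linarith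
        · have := (m1.move (s := 0) (by simpa using hε.le) n2).2
          linarith
      have h4 := hn (t - y.1) (x - dp a y.2 • a - dp b y.2 • b) (-dp c y.2) m2
        (by rw [abs_neg]; linarith)
      rw [abs_neg, neg_smul, ← sub_eq_add_neg] at h4
      have h5 := mul_le_mul_of_nonneg_left
        ((Real.rpow_le_rpow (abs_nonneg _) hc L.g1pos.le).trans e3) hC'
      linarith
    have hp := L.path (r := 3 * ε) (by linarith) (hz.mono (by linarith)) h0' ha hb hlast
    have q0 := mul_le_mul_of_nonneg_left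
      ((Real.rpow_le_rpow (abs_nonneg _) h0 L.βpos.le).trans eb1) hC
    have q1 := mul_le_mul_of_nonneg_left
      ((Real.rpow_le_rpow (abs_nonneg _) ha L.g1pos.le).trans e3) hC
    have q2 := mul_le_mul_of_nonneg_left
      ((Real.rpow_le_rpow (abs_nonneg _) hb L.g1pos.le).trans e3) hC
    linarith
  -- tangential derivatives
  have tang : ∀ k : X, ∑ i, k i * k i = 1 →
      (∀ t x s, InB z₀ R t x → InB z₀ R t (x + s • k) →
        ‖v (t, x + s • k) - v (t, x)‖ ≤ C * |s| ^ g₁) → ∀ i : Fin 3,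
      |fderiv ℝ (cv K (fun y => v y i)) (t, x) (0, k)| ≤ 3 * C * ε ^ g₁ * (C0 * ε⁻¹) := by
    intro k hk hdir i
    refine (dir_estimate hK hv hk (f := fun w : X => w i) (continuous_apply i) (z := (t, x))
      (A := 3 * C * ε ^ g₁) (by positivity) ?_).trans
      (mul_le_mul_of_nonneg_left (integral_Km m hε hk) (by positivity))
    rintro y ⟨h0, h1⟩
    have h0' : |y.1| ≤ ε := h0.trans epow
    have hk1 : |dp k y.2| ≤ 3 * ε := (abs_dp_le hk _).trans (by linarith)
    have e1 : (t, x) - y = (t - y.1, x - y.2) := rfl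
    have e2 : (t, x) - y + (0, dp k y.2 • k) = (t - y.1, x - y.2 + dp k y.2 • k) := by
      refine Prod.ext ?_ rfl
      simp
    rw [e2, e1]
    have m1 : InB z₀ (R / 8 + ε) (t - y.1) (x - y.2) := hz.move h0' h1
    have m2 : InB z₀ (R / 8 + ε + 3 * ε) (t - y.1) (x - y.2 + dp k y.2 • k) := by
      have := m1.move (s := 0) (y := -(dp k y.2 • k)) (R' := 3 * ε)
        (by simpa using hε.le)
        (by rw [norm_neg]; exact (norm_smul_unit_le hk _).trans hk1)
      rwa [sub_zero, sub_neg_eq_add] at this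
    have h4 := hdir (t - y.1) (x - y.2) (dp k y.2) (m1.mono (by linarith))
      (m2.mono (by linarith))
    have h5 := mul_le_mul_of_nonneg_left
      ((Real.rpow_le_rpow (abs_nonneg _) hk1 L.g1pos.le).trans e3) hC
    rw [abs_sub_comm]
    have h6 := norm_le_pi_norm (v (t - y.1, x - y.2 + dp k y.2 • k) - v (t - y.1, x - y.2)) i
    rw [Real.norm_eq_abs] at h6
    have h7 : |(v (t - y.1, x - y.2 + dp k y.2 • k) - v (t - y.1, x - y.2)) i|
        = |v (t - y.1, x - y.2 + dp k y.2 • k) i - v (t - y.1, x - y.2) i| := rfl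
    rw [h7] at h6
    linarith
  have norc : ∀ i : Fin 3,
      |fderiv ℝ (cv K (fun y => v y i)) (t, x) (0, c)| ≤ 2 * C * ε ^ g₂ * (C0 * ε⁻¹) := by
    intro i
    refine (hK.fderiv_le (hvi i) (g := fun _ => v (t, x) i) continuous_const
      (A := 2 * C * ε ^ g₂) (by positivity) (fun _ _ => rfl) (inci i)).trans
      (mul_le_mul_of_nonneg_left (integral_Km m hε F.cc) (by positivity))
  -- commutators
  have comk : ∀ k : X, ∑ i, k i * k i = 1 → ∀ i : Fin 3,
      |dp k (Rey K v (t, x) i)| ≤ 2 * (2 * C * ε ^ g₂ * (6 * C * ε ^ g₂)) := by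
    intro k hk i
    rw [dp_rey hK hv]
    exact hK.comm_le (hvi i) (continuous_comp_dp hv k) (by positivity) (inci i) (inck k hk)
  have comc : ∀ i : Fin 3,
      |dp c (Rey K v (t, x) i)| ≤ 2 * (2 * C * ε ^ g₂ * ((21 * C + 3 * C') * ε ^ g₁)) := by
    intro i
    rw [dp_rey hK hv]
    exact hK.comm_le (hvi i) (continuous_comp_dp hv c) (by positivity) (inci i) incc
  have each : ∀ i : Fin 3,
      |∑ j, Rey K v (t, x) i j * fderiv ℝ (cv K (fun y => v y i)) (t, x) (ei j)|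
        ≤ (2 * (2 * (2 * C * (6 * C)) * (3 * C * C0))
          + 2 * (2 * C * (21 * C + 3 * C')) * (2 * C * C0))
          * (ε ^ g₁ * (ε ^ g₂ * ε ^ g₂) * ε⁻¹) := by
    intro i
    rw [← frame_parseval F (Rey K v (t, x) i)
      (fun j => fderiv ℝ (cv K (fun y => v y i)) (t, x) (ei j)), dp_fderiv, dp_fderiv, dp_fderiv]
    have ta := mul_le_mul (comk a F.aa i) (tang a F.aa L.dira i) (abs_nonneg _) (by positivity)
    have tb := mul_le_mul (comk b F.bb i) (tang b F.bb L.dirb i) (abs_nonneg _) (by positivity)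
    have tc := mul_le_mul (comc i) (norc i) (abs_nonneg _) (by positivity)
    rw [← abs_mul] at ta tb tc
    refine (abs_add_le _ _).trans ((add_le_add (abs_add_le _ _) le_rfl).trans ?_)
    refine (add_le_add (add_le_add ta tb) tc).trans_eq ?_
    ring
  refine (Finset.abs_sum_le_sum_abs _ _).trans ((Finset.sum_le_sum fun i _ => each i).trans_eq ?_)
  simp only [Finset.sum_const, Finset.card_univ, Fintype.card_fin, nsmul_eq_mul]
  push_cast
  ring

end Pool.Agent.EUL22
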