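import Pool.Agent.EUL22.Kernel

/-!
Orthonormal frames of `ℝ³`, the linear changes of variables of the two kernels.
-/

set_option autoImplicit false

open MeasureTheory Set Filter Topology
open scoped ContDiff

namespace Pool.Agent.EUL22

/-- An orthonormal frame, with its completeness relation. -/
structure Frame (a b c : X) : Prop where
  aa : ∑ i, a i * a i = 1
  bb : ∑ i, b i * b i = 1
  cc : ∑ i, c i * c i = 1
  ab : ∑ i, a i * b i = 0
  ac : ∑ i, a i * c i = 0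
  bc : ∑ i, b i * c i = 0
  compl : ∀ i j, a i * a j + b i * b j + c i * c j = if i = j then 1 else 0

theorem exists_frame {a b : X} (haa : ∑ i, a i * a i = 1) (hbb : ∑ i, b i * b i = 1)
    (hab : ∑ i, a i * b i = 0) : ∃ c : X, Frame a b c := by
  set c : X := ![a 1 * b 2 - a 2 * b 1, a 2 * b 0 - a 0 * b 2, a 0 * b 1 - a 1 * b 0] with hc
  have c0 : c 0 = a 1 * b 2 - a 2 * b 1 := rfl
  have c1 : c 1 = a 2 * b 0 - a 0 * b 2 := rfl
  have c2 : c 2 = a 0 * b 1 - a 1 * b 0 := rfl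
  have hcc : ∑ i, c i * c i = 1 := by
    simp only [Fin.sum_univ_three] at haa hbb hab ⊢
    rw [c0, c1, c2]
    linear_combination (b 0 * b 0 + b 1 * b 1 + b 2 * b 2) * haa + hbb
      - (a 0 * b 0 + a 1 * b 1 + a 2 * b 2) * hab
  have hac : ∑ i, a i * c i = 0 := by
    simp only [Fin.sum_univ_three]; rw [c0, c1, c2]; ring
  have hbc : ∑ i, b i * c i = 0 := by
    simp only [Fin.sum_univ_three]; rw [c0, c1, c2]; ring
  refine ⟨c, haa, hbb, hcc, hab, hac, hbc, ?_⟩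
  set M : Matrix (Fin 3) (Fin 3) ℝ := ![a, b, c] with hM
  have m0 : M 0 = a := rfl
  have m1 : M 1 = b := rfl
  have m2 : M 2 = c := rfl
  have h1 : M * M.transpose = 1 := by
    ext i j
    rw [Matrix.mul_apply]
    simp only [Matrix.transpose_apply, Fin.sum_univ_three] at *
    fin_cases i <;> fin_cases j <;>
      simp only [Fin.zero_eta, Fin.mk_one, Fin.reduceFinMk, m0, m1, m2, Matrix.one_apply] <;>
      simp <;> linarith
  have h2 : M.transpose * M = 1 := mul_eq_one_comm.mp h1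
  intro i j
  have h3 := congrFun (congrFun h2 i) j
  rw [Matrix.mul_apply] at h3
  simp only [Matrix.transpose_apply, Fin.sum_univ_three, m0, m1, m2, Matrix.one_apply] at h3
  exact h3

/-- The scalar product of two vectors. -/
def dp (a y : X) : ℝ := ∑ i, a i * y i

variable {a b c : X}

theorem Frame.decomp (F : Frame a b c) (y : X) :
    y = dp a y • a + dp b y • b + dp c y • c := by
  funext j
  have h0 := F.compl j 0
  have h1 := F.compl j 1
  have h2 := F.compl j 2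
  simp only [dp, Fin.sum_univ_three, Pi.add_apply, Pi.smul_apply, smul_eq_mul]
  fin_cases j <;> simp at h0 h1 h2 ⊢ <;> linear_combination (- y 0) * h0 + (- y 1) * h1
    + (- y 2) * h2

theorem abs_le_one_of_unit {k : X} (hk : ∑ i, k i * k i = 1) (i : Fin 3) : |k i| ≤ 1 := by
  have h1 : k i * k i ≤ 1 := by
    rw [← hk]
    exact Finset.single_le_sum (f := fun i => k i * k i) (fun j _ => mul_self_nonneg _)
      (Finset.mem_univ i)
  exact abs_le_one_iff_mul_self_le_one.mpr h1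

theorem norm_le_one_of_unit {k : X} (hk : ∑ i, k i * k i = 1) : ‖k‖ ≤ 1 :=
  (pi_norm_le_iff_of_nonneg zero_le_one).mpr fun i => by
    rw [Real.norm_eq_abs]; exact abs_le_one_of_unit hk i

theorem abs_dp_le {k : X} (hk : ∑ i, k i * k i = 1) (y : X) : |dp k y| ≤ 3 * ‖y‖ := by
  unfold dp
  refine (Finset.abs_sum_le_sum_abs _ _).trans ?_
  have h : ∀ i ∈ (Finset.univ : Finset (Fin 3)), |k i * y i| ≤ ‖y‖ := by
    intro i _
    rw [abs_mul]
    have h1 := abs_le_one_of_unit hk i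
    have h2 : |y i| ≤ ‖y‖ := norm_le_pi_norm y i
    calc |k i| * |y i| ≤ 1 * ‖y‖ := mul_le_mul h1 h2 (abs_nonneg _) zero_le_one
      _ = ‖y‖ := one_mul _
  refine (Finset.sum_le_sum h).trans ?_
  simp

theorem dp_sub (k x y : X) : dp k x - dp k y = dp k (x - y) := by
  simp only [dp, Pi.sub_apply, mul_sub, Finset.sum_sub_distrib]

theorem dp_smul (k x : X) (s : ℝ) : dp k (s • x) = s * dp k x := by
  simp only [dp, Pi.smul_apply, smul_eq_mul, Finset.mul_sum]
  exact Finset.sum_congr rfl fun i _ => by ring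

theorem dp_add (k x y : X) : dp k (x + y) = dp k x + dp k y := by
  simp only [dp, Pi.add_apply, mul_add, Finset.sum_add_distrib]

theorem continuous_dp (k : X) : Continuous (fun y => dp k y) := by
  unfold dp; fun_prop

/-- The linear map of the thin kernel. -/
noncomputable def thinFun (a b c : X) (τ r δ : ℝ) : E →ₗ[ℝ] E where
  toFun z := (τ⁻¹ * z.1, ![r⁻¹ * dp a z.2, r⁻¹ * dp b z.2, δ⁻¹ * dp c z.2])
  map_add' z w := by
    ext i
    · simp [mul_add]
    · fin_cases i <;> simp [dp_add, mul_add]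
  map_smul' s z := by
    ext i
    · simp; ring
    · fin_cases i <;> simp [dp_smul] <;> ring

/-- The inverse of the linear map of the thin kernel. -/
noncomputable def thinInv (a b c : X) (τ r δ : ℝ) : E →ₗ[ℝ] E where
  toFun z := (τ * z.1, (r * z.2 0) • a + (r * z.2 1) • b + (δ * z.2 2) • c)
  map_add' z w := by
    ext i
    · simp [mul_add]
    · simp; ring
  map_smul' s z := by
    ext i
    · simp; ring
    · simp; ring

theorem dp_frame (F : Frame a b c) (p q s : ℝ) :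
    dp a (p • a + q • b + s • c) = p ∧ dp b (p • a + q • b + s • c) = q
      ∧ dp c (p • a + q • b + s • c) = s := by
  obtain ⟨aa, bb, cc, ab, ac, bc, -⟩ := F
  simp only [Fin.sum_univ_three] at aa bb cc ab ac bc
  refine ⟨?_, ?_, ?_⟩ <;>
    simp only [dp, Fin.sum_univ_three, Pi.add_apply, Pi.smul_apply, smul_eq_mul]
  · linear_combination p * aa + q * ab + s * ac
  · linear_combination p * ab + q * bb + s * bc
  · linear_combination p * ac + q * bc + s * cc

/-- The change of variables of the thin kernel. -/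
noncomputable def thin (F : Frame a b c) {τ r δ : ℝ} (hτ : 0 < τ) (hr : 0 < r) (hδ : 0 < δ) :
    E ≃L[ℝ] E :=
  (LinearEquiv.ofLinearMap (thinFun a b c τ r δ) (thinInv a b c τ r δ)
    (by
      apply LinearMap.ext
      intro z
      obtain ⟨h1, h2, h3⟩ := dp_frame F (r * z.2 0) (r * z.2 1) (δ * z.2 2)
      have e0 : (thinFun a b c τ r δ) ((thinInv a b c τ r δ) z)
          = (τ⁻¹ * (τ * z.1), ![r⁻¹ * (r * z.2 0), r⁻¹ * (r * z.2 1), δ⁻¹ * (δ * z.2 2)]) := by
        simp only [thinFun, thinInv, LinearMap.coe_mk, AddHom.coe_mk, h1, h2, h3]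
      simp only [LinearMap.comp_apply, e0, LinearMap.id_coe, id_eq]
      ext i
      · simp [hτ.ne']
      · fin_cases i <;> simp [hr.ne', hδ.ne'])
    (by
      apply LinearMap.ext
      intro z
      have e0 : (thinInv a b c τ r δ) ((thinFun a b c τ r δ) z)
          = (τ * (τ⁻¹ * z.1), (r * (r⁻¹ * dp a z.2)) • a + (r * (r⁻¹ * dp b z.2)) • b
            + (δ * (δ⁻¹ * dp c z.2)) • c) := by
        simp only [thinFun, thinInv, LinearMap.coe_mk, AddHom.coe_mk]
        simp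
      simp only [LinearMap.comp_apply, e0, LinearMap.id_coe, id_eq]
      rw [mul_inv_cancel_left₀ hτ.ne', mul_inv_cancel_left₀ hr.ne', mul_inv_cancel_left₀ hr.ne',
        mul_inv_cancel_left₀ hδ.ne', ← F.decomp z.2])).toContinuousLinearEquiv

theorem thin_apply (F : Frame a b c) {τ r δ : ℝ} (hτ : 0 < τ) (hr : 0 < r) (hδ : 0 < δ) (z : E) :
    thin F hτ hr hδ z = (τ⁻¹ * z.1, ![r⁻¹ * dp a z.2, r⁻¹ * dp b z.2, δ⁻¹ * dp c z.2]) := rfl

theorem thin_supp (F : Frame a b c) {τ r δ : ℝ} (hτ : 0 < τ) (hr : 0 < r) (hδ : 0 < δ) {z : E}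
    (h : ‖thin F hτ hr hδ z‖ ≤ 1) :
    |z.1| ≤ τ ∧ |dp a z.2| ≤ r ∧ |dp b z.2| ≤ r ∧ |dp c z.2| ≤ δ := by
  rw [thin_apply, Prod.norm_def, max_le_iff] at h
  obtain ⟨h1, h2⟩ := h
  have h3 : ∀ {u q : ℝ}, 0 < q → ‖q⁻¹ * u‖ ≤ 1 → |u| ≤ q := by
    intro u q hq h
    rw [Real.norm_eq_abs, abs_mul, abs_of_pos (inv_pos.mpr hq)] at h
    calc |u| = q * (q⁻¹ * |u|) := by field_simp
      _ ≤ q * 1 := mul_le_mul_of_nonneg_left h hq.le
      _ = q := mul_one q
  have h4 := fun i => (norm_le_pi_norm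
    (![r⁻¹ * dp a z.2, r⁻¹ * dp b z.2, δ⁻¹ * dp c z.2] : Fin 3 → ℝ) i).trans h2
  exact ⟨h3 hτ h1, h3 hr (h4 0), h3 hr (h4 1), h3 hδ (h4 2)⟩

theorem thin_a (F : Frame a b c) {τ r δ : ℝ} (hτ : 0 < τ) (hr : 0 < r) (hδ : 0 < δ) :
    ‖thin F hτ hr hδ (0, a)‖ ≤ r⁻¹ := by
  obtain ⟨h1, h2, h3⟩ := dp_frame F 1 0 0
  simp only [one_smul, zero_smul, add_zero] at h1 h2 h3
  rw [thin_apply, Prod.norm_def]
  simp only [h1, h2, h3, mul_zero, mul_one, norm_zero]
  refine max_le (inv_pos.mpr hr).le ?_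
  refine (pi_norm_le_iff_of_nonneg (inv_pos.mpr hr).le).mpr fun i => ?_
  fin_cases i <;> simp [abs_of_pos hr, hr.le]

theorem thin_b (F : Frame a b c) {τ r δ : ℝ} (hτ : 0 < τ) (hr : 0 < r) (hδ : 0 < δ) :
    ‖thin F hτ hr hδ (0, b)‖ ≤ r⁻¹ := by
  obtain ⟨h1, h2, h3⟩ := dp_frame F 0 1 0
  simp only [one_smul, zero_smul, add_zero, zero_add] at h1 h2 h3
  rw [thin_apply, Prod.norm_def]
  simp only [h1, h2, h3, mul_zero, mul_one, norm_zero]
  refine max_le (inv_pos.mpr hr).le ?_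
  refine (pi_norm_le_iff_of_nonneg (inv_pos.mpr hr).le).mpr fun i => ?_
  fin_cases i <;> simp [abs_of_pos hr, hr.le]

/-- The change of variables of the main kernel. -/
noncomputable def scal {τ ε : ℝ} (hτ : 0 < τ) (hε : 0 < ε) : E ≃L[ℝ] E :=
  (ContinuousLinearEquiv.smulLeft (Units.mk0 τ⁻¹ (inv_ne_zero hτ.ne'))).prodCongr
    (ContinuousLinearEquiv.smulLeft (Units.mk0 ε⁻¹ (inv_ne_zero hε.ne')))

theorem scal_apply {τ ε : ℝ} (hτ : 0 < τ) (hε : 0 < ε) (z : E) :
    scal hτ hε z = (τ⁻¹ * z.1, ε⁻¹ • z.2) := rfl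

theorem scal_supp {τ ε : ℝ} (hτ : 0 < τ) (hε : 0 < ε) {z : E} (h : ‖scal hτ hε z‖ ≤ 1) :
    |z.1| ≤ τ ∧ ‖z.2‖ ≤ ε := by
  rw [scal_apply, Prod.norm_def, max_le_iff] at h
  obtain ⟨h1, h2⟩ := h
  simp only [norm_mul, norm_smul, norm_inv, Real.norm_eq_abs, abs_of_pos hτ,
    abs_of_pos hε] at h1 h2
  constructor
  · calc |z.1| = τ * (τ⁻¹ * |z.1|) := by field_simp
      _ ≤ τ * 1 := mul_le_mul_of_nonneg_left h1 hτ.le
      _ = τ := mul_one τ
  · calc ‖z.2‖ = ε * (ε⁻¹ * ‖z.2‖) := by field_simp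
      _ ≤ ε * 1 := mul_le_mul_of_nonneg_left h2 hε.le
      _ = ε := mul_one ε

theorem scal_dir {τ ε : ℝ} (hτ : 0 < τ) (hε : 0 < ε) {k : X} (hk : ∑ i, k i * k i = 1) :
    ‖scal hτ hε (0, k)‖ ≤ ε⁻¹ := by
  rw [scal_apply, Prod.norm_def]
  simp only [mul_zero, norm_zero, norm_smul, norm_inv, Real.norm_eq_abs, abs_of_pos hε]
  refine max_le (inv_pos.mpr hε).le ?_
  calc ε⁻¹ * ‖k‖ ≤ ε⁻¹ * 1 :=
        mul_le_mul_of_nonneg_left (norm_le_one_of_unit hk) (inv_pos.mpr hε).le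
    _ = ε⁻¹ := mul_one _

end Pool.Agent.EUL22
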