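import Pool.Agent.EUL22.Energy

/-!
Kernels obtained from one bump function by a linear change of variables, and the three basic
estimates: approximation, commutator, derivative.
-/

set_option autoImplicit false

open MeasureTheory Set Filter Topology
open scoped ContDiff

namespace Pool.Agent.EUL22

/-- A smooth probability kernel whose topological support lies in `N`. -/
structure IsKer (K : E → ℝ) (N : Set E) : Prop where
  smooth : ContDiff ℝ ∞ K
  cpt : HasCompactSupport K
  nonneg : ∀ y, 0 ≤ K y
  int_one : ∫ y, K y = 1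
  supp : tsupport K ⊆ N

/-- The base bump function. -/
noncomputable def bump0 : ContDiffBump (0 : E) := ⟨1 / 2, 1, by norm_num, by norm_num⟩

/-- The normalised base bump function. -/
noncomputable def K0 : E → ℝ := bump0.normed volume

theorem K0_smooth : ContDiff ℝ ∞ K0 := bump0.contDiff_normed

theorem K0_cpt : HasCompactSupport K0 := bump0.hasCompactSupport_normed

theorem K0_nonneg (y : E) : 0 ≤ K0 y := bump0.nonneg_normed y

theorem K0_int : ∫ y, K0 y = 1 := bump0.integral_normed

theorem K0_supp : tsupport K0 ⊆ Metric.closedBall (0 : E) 1 := by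
  unfold K0
  rw [bump0.tsupport_normed_eq]
  exact subset_rfl

/-- The `L¹` norm of the derivative of the base kernel. -/
noncomputable def C0 : ℝ := ∫ y, ‖fderiv ℝ K0 y‖

theorem C0_nonneg : 0 ≤ C0 := integral_nonneg fun _ => norm_nonneg _

/-- The kernel `|det L| K₀(L z)`. -/
noncomputable def KL (L : E ≃L[ℝ] E) (z : E) : ℝ :=
  |LinearMap.det ((L : E →L[ℝ] E) : E →ₗ[ℝ] E)| * K0 (L z)

theorem det_ne (L : E ≃L[ℝ] E) : LinearMap.det ((L : E →L[ℝ] E) : E →ₗ[ℝ] E) ≠ 0 := by
  have h := LinearEquiv.isUnit_det' L.toLinearEquiv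
  exact h.ne_zero

theorem integral_comp_L (L : E ≃L[ℝ] E) (f : E → ℝ) :
    |LinearMap.det ((L : E →L[ℝ] E) : E →ₗ[ℝ] E)| * ∫ z, f (L z) = ∫ z, f z := by
  have h1 := Measure.map_linearMap_addHaar_eq_smul_addHaar (volume : Measure E) (det_ne L)
  have h2 : ∫ z, f z ∂(Measure.map (L : E → E) volume) = ∫ z, f (L z) :=
    integral_map_equiv L.toHomeomorph.toMeasurableEquiv f
  have h3 : Measure.map (L : E → E) volume
      = ENNReal.ofReal |(LinearMap.det ((L : E →L[ℝ] E) : E →ₗ[ℝ] E))⁻¹|
        • (volume : Measure E) := h1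
  rw [h3, integral_smul_measure] at h2
  rw [← h2, ENNReal.toReal_ofReal (abs_nonneg _), abs_inv, smul_eq_mul, ← mul_assoc,
    mul_inv_cancel₀ (abs_ne_zero.mpr (det_ne L)), one_mul]

theorem isKer_KL (L : E ≃L[ℝ] E) : IsKer (KL L) {y | ‖L y‖ ≤ 1} where
  smooth := contDiff_const.mul (K0_smooth.comp L.contDiff)
  cpt := (K0_cpt.comp_homeomorph L.toHomeomorph).mul_left
  nonneg y := mul_nonneg (abs_nonneg _) (K0_nonneg _)
  int_one := by
    unfold KL
    rw [integral_const_mul, integral_comp_L L K0, K0_int]
  supp := by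
    intro y hy
    have h1 : tsupport (fun z => K0 (L z)) ⊆ L ⁻¹' tsupport K0 :=
      tsupport_comp_subset_preimage K0 L.continuous
    have h2 : tsupport (KL L) ⊆ tsupport (fun z => K0 (L z)) := by
      refine closure_mono ?_
      intro z hz h0
      exact hz (by simp only [KL, h0, mul_zero])
    have h3 := K0_supp (h1 (h2 hy))
    simpa using h3

theorem fderiv_KL (L : E ≃L[ℝ] E) (y w : E) :
    fderiv ℝ (KL L) y w
      = |LinearMap.det ((L : E →L[ℝ] E) : E →ₗ[ℝ] E)| * fderiv ℝ K0 (L y) (L w) := by
  have h1 : HasFDerivAt K0 (fderiv ℝ K0 (L y)) (L y) :=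
    (K0_smooth.differentiable (by simp)).differentiableAt.hasFDerivAt
  have h2 : HasFDerivAt (fun z => K0 (L z)) ((fderiv ℝ K0 (L y)).comp (L : E →L[ℝ] E)) y :=
    h1.comp y L.hasFDerivAt
  have h3 := h2.const_mul |LinearMap.det ((L : E →L[ℝ] E) : E →ₗ[ℝ] E)|
  have h4 : fderiv ℝ (KL L) y = |LinearMap.det ((L : E →L[ℝ] E) : E →ₗ[ℝ] E)| •
      ((fderiv ℝ K0 (L y)).comp (L : E →L[ℝ] E)) := h3.fderiv
  rw [h4]
  simp

theorem integral_abs_fderiv_KL (L : E ≃L[ℝ] E) (w : E) :
    ∫ y, |fderiv ℝ (KL L) y w| ≤ C0 * ‖L w‖ := by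
  simp only [fderiv_KL, abs_mul, abs_abs]
  rw [integral_const_mul, integral_comp_L L (fun y => |fderiv ℝ K0 y (L w)|)]
  unfold C0
  rw [← integral_mul_const]
  have hc : Continuous (fderiv ℝ K0) := K0_smooth.continuous_fderiv (by simp)
  have hcc : HasCompactSupport (fderiv ℝ K0) := K0_cpt.fderiv ℝ
  refine integral_mono_of_nonneg (Eventually.of_forall fun y => abs_nonneg _) ?_
    (Eventually.of_forall fun y => ?_)
  · exact (hc.norm.mul continuous_const).integrable_of_hasCompactSupport hcc.norm.mul_right
  · exact (fderiv ℝ K0 y).le_opNorm (L w)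

variable {K : E → ℝ} {N : Set E}

theorem IsKer.zero_of_notMem (hK : IsKer K N) {y : E} (hy : y ∉ N) : K y = 0 :=
  image_eq_zero_of_notMem_tsupport fun h => hy (hK.supp h)

theorem IsKer.integrable_mul (hK : IsKer K N) {g : E → ℝ} (hg : Continuous g) :
    Integrable (fun y => K y * g y) :=
  (hK.smooth.continuous.mul hg).integrable_of_hasCompactSupport hK.cpt.mul_right

theorem IsKer.abs_integral_le (hK : IsKer K N) {g : E → ℝ} {A : ℝ}
    (h : ∀ y ∈ N, |g y| ≤ A) : |∫ y, K y * g y| ≤ A := by
  have h1 : |∫ y, K y * g y| ≤ ∫ y, K y * A := by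
    rw [← Real.norm_eq_abs]
    refine norm_integral_le_of_norm_le (hK.integrable_mul continuous_const)
      (Eventually.of_forall fun y => ?_)
    rw [Real.norm_eq_abs, abs_mul, abs_of_nonneg (hK.nonneg y)]
    by_cases hy : y ∈ N
    · exact mul_le_mul_of_nonneg_left (h y hy) (hK.nonneg y)
    · simp [hK.zero_of_notMem hy]
  rwa [integral_mul_const, hK.int_one, one_mul] at h1

theorem IsKer.cv_sub (hK : IsKer K N) {f : E → ℝ} (hf : Continuous f) (z : E) :
    cv K f z - f z = ∫ y, K y * (f (z - y) - f z) := by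
  have hc : Continuous (fun y => f (z - y)) := hf.comp (continuous_const.sub continuous_id)
  rw [cv_eq]
  simp only [mul_sub]
  rw [integral_sub (hK.integrable_mul hc) (hK.integrable_mul continuous_const),
    integral_mul_const, hK.int_one, one_mul]

theorem IsKer.cv_sub_le (hK : IsKer K N) {f : E → ℝ} (hf : Continuous f) {z : E} {A : ℝ}
    (h : ∀ y ∈ N, |f (z - y) - f z| ≤ A) : |cv K f z - f z| ≤ A := by
  rw [hK.cv_sub hf]
  exact hK.abs_integral_le h

/-- The commutator of the mollification with the product. -/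
theorem IsKer.comm_le (hK : IsKer K N) {f g : E → ℝ} (hf : Continuous f) (hg : Continuous g)
    {z : E} {A B : ℝ} (hA : 0 ≤ A)
    (h1 : ∀ y ∈ N, |f (z - y) - f z| ≤ A) (h2 : ∀ y ∈ N, |g (z - y) - g z| ≤ B) :
    |cv K (fun y => f y * g y) z - cv K f z * cv K g z| ≤ 2 * (A * B) := by
  have hcf : Continuous (fun y => f (z - y)) := hf.comp (continuous_const.sub continuous_id)
  have hcg : Continuous (fun y => g (z - y)) := hg.comp (continuous_const.sub continuous_id)
  have e1 : ∫ y, K y * ((f (z - y) - f z) * (g (z - y) - g z))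
      = cv K (fun y => f y * g y) z - f z * cv K g z - g z * cv K f z + f z * g z := by
    have e2 : ∀ y, K y * ((f (z - y) - f z) * (g (z - y) - g z))
        = K y * (f (z - y) * g (z - y)) - f z * (K y * g (z - y)) - g z * (K y * f (z - y))
          + K y * (f z * g z) := fun y => by ring
    simp only [e2]
    have i1 : Integrable (fun y => K y * (f (z - y) * g (z - y))) :=
      hK.integrable_mul (hcf.mul hcg)
    have i2 : Integrable (fun y => f z * (K y * g (z - y))) :=
      (hK.integrable_mul hcg).const_mul _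
    have i3 : Integrable (fun y => g z * (K y * f (z - y))) :=
      (hK.integrable_mul hcf).const_mul _
    have i4 : Integrable (fun y => K y * (f z * g z)) := hK.integrable_mul continuous_const
    have i12 : Integrable (fun y => K y * (f (z - y) * g (z - y)) - f z * (K y * g (z - y))) :=
      i1.sub i2
    have i123 : Integrable (fun y => K y * (f (z - y) * g (z - y)) - f z * (K y * g (z - y))
        - g z * (K y * f (z - y))) := i12.sub i3
    rw [integral_add i123 i4, integral_sub i12 i3,
      integral_sub i1 i2, integral_const_mul, integral_const_mul, integral_mul_const,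
      hK.int_one, one_mul, cv_eq, cv_eq, cv_eq]
  have e3 : cv K (fun y => f y * g y) z - cv K f z * cv K g z
      = (∫ y, K y * ((f (z - y) - f z) * (g (z - y) - g z)))
        - (cv K f z - f z) * (cv K g z - g z) := by
    rw [e1]; ring
  have b1 : |∫ y, K y * ((f (z - y) - f z) * (g (z - y) - g z))| ≤ A * B := by
    refine hK.abs_integral_le fun y hy => ?_
    rw [abs_mul]
    exact mul_le_mul (h1 y hy) (h2 y hy) (abs_nonneg _) hA
  have b2 : |(cv K f z - f z) * (cv K g z - g z)| ≤ A * B := by
    rw [abs_mul]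
    exact mul_le_mul (hK.cv_sub_le hf h1) (hK.cv_sub_le hg h2) (abs_nonneg _) hA
  rw [e3]
  refine (abs_sub _ _).trans ?_
  linarith

/-- The derivative of the mollification in the direction `w`, compared with a function `g` that
is constant in the direction `w`. -/
theorem IsKer.fderiv_le (hK : IsKer K N) {f g : E → ℝ} (hf : Continuous f) (hg : Continuous g)
    {z w : E} {A : ℝ} (hA : 0 ≤ A) (hgw : ∀ y : E, ∀ t : ℝ, g (y + t • w) = g y)
    (h : ∀ y ∈ N, |f (z - y) - g y| ≤ A) :
    |fderiv ℝ (cv K f) z w| ≤ A * ∫ y, |fderiv ℝ K y w| := by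
  have hKd : Continuous (fun y => fderiv ℝ K y w) :=
    (hK.smooth.continuous_fderiv (by simp)).clm_apply continuous_const
  have hKdc : HasCompactSupport (fun y => fderiv ℝ K y w) :=
    (hK.cpt.fderiv ℝ).comp_left (g := fun L : E →L[ℝ] ℝ => L w) (by simp)
  have hcf : Continuous (fun y => f (z - y)) := hf.comp (continuous_const.sub continuous_id)
  have j1 : Integrable (fun y => g y * fderiv ℝ K y w) :=
    (hg.mul hKd).integrable_of_hasCompactSupport hKdc.mul_left
  have j2 : Integrable (fun y => g y * K y) :=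
    (hg.mul hK.smooth.continuous).integrable_of_hasCompactSupport hK.cpt.mul_left
  have z1 : ∫ y, fderiv ℝ K y w * g y = 0 := by
    have h1 := integral_bilinear_hasLineDerivAt_right_eq_neg_left_of_integrable
      (μ := (volume : Measure E)) (B := ContinuousLinearMap.mul ℝ ℝ)
      (f := g) (f' := fun _ => (0 : ℝ)) (g := K) (g' := fun y => fderiv ℝ K y w) (v := w)
      (by simp) (by simpa only [ContinuousLinearMap.mul_apply'] using j1)
      (by simpa only [ContinuousLinearMap.mul_apply'] using j2)
      (fun y _ => by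
        unfold HasLineDerivAt
        simp only [hgw]
        exact hasDerivAt_const _ _)
      (fun y _ => (hK.smooth.differentiable (by simp)
        y).hasFDerivAt.hasLineDerivAt w)
    simp only [ContinuousLinearMap.mul_apply', zero_mul, integral_zero, neg_zero] at h1
    rw [← h1]
    exact integral_congr_ae (Eventually.of_forall fun y => by ring)
  have e1 : fderiv ℝ (cv K f) z w = ∫ y, fderiv ℝ K y w * (f (z - y) - g y) := by
    have k1 : Integrable (fun y => fderiv ℝ K y w * f (z - y)) :=
      (hKd.mul hcf).integrable_of_hasCompactSupport hKdc.mul_right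
    have k2 : Integrable (fun y => fderiv ℝ K y w * g y) :=
      (hKd.mul hg).integrable_of_hasCompactSupport hKdc.mul_right
    rw [fderiv_cv hK.smooth hK.cpt hf, cv_eq]
    simp only [mul_sub]
    rw [integral_sub k1 k2, z1, sub_zero]
  rw [e1, ← integral_const_mul, ← Real.norm_eq_abs]
  refine norm_integral_le_of_norm_le
    ((continuous_const.mul hKd.abs).integrable_of_hasCompactSupport ?_)
    (Eventually.of_forall fun y => ?_)
  · exact (hKdc.comp_left (g := fun r : ℝ => |r|) (by simp)).mul_left
  · rw [Real.norm_eq_abs, abs_mul, mul_comm A]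
    by_cases hy : y ∈ N
    · exact mul_le_mul_of_nonneg_left (h y hy) (abs_nonneg _)
    · have h0 : fderiv ℝ K y w = 0 := by
        have : y ∉ tsupport (fderiv ℝ K) := fun h => hy (hK.supp (tsupport_fderiv_subset ℝ h))
        rw [image_eq_zero_of_notMem_tsupport this]
        rfl
      simp [h0]

end Pool.Agent.EUL22
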