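import Pool.Agent.EUL22.Frame

/-!
Local estimates near a plane regular point: the normal component inherits the tangential
exponent.
-/

set_option autoImplicit false

open MeasureTheory Set Filter Topology
open scoped ContDiff

namespace Pool.Agent.EUL22

/-- The closed box of radius `R` around `z₀`. -/
def InB (z₀ : E) (R t : ℝ) (x : X) : Prop := |t - z₀.1| ≤ R ∧ ‖x - z₀.2‖ ≤ R

/-- Local regularity data near `z₀`. -/
structure Loc (v : E → X) (z₀ : E) (R : ℝ) (a b c : X) (g₁ g₂ β C : ℝ) : Prop where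
  frame : Frame a b c
  Rpos : 0 < R
  Rle : R ≤ 1
  Cnn : 0 ≤ C
  βpos : 0 < β
  g1pos : 0 < g₁
  g1le : g₁ ≤ 1
  g2pos : 0 < g₂
  g2le : g₂ ≤ 1
  gsum : 1 < g₁ + 2 * g₂
  time : ∀ t t' x, InB z₀ R t x → InB z₀ R t' x → ‖v (t, x) - v (t', x)‖ ≤ C * |t - t'| ^ β
  space : ∀ t x y, InB z₀ R t x → InB z₀ R t y → ‖v (t, x) - v (t, y)‖ ≤ C * ‖x - y‖ ^ g₂
  dira : ∀ t x s, InB z₀ R t x → InB z₀ R t (x + s • a) →
    ‖v (t, x + s • a) - v (t, x)‖ ≤ C * |s| ^ g₁
  dirb : ∀ t x s, InB z₀ R t x → InB z₀ R t (x + s • b) →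
    ‖v (t, x + s • b) - v (t, x)‖ ≤ C * |s| ^ g₁

theorem abs_dp_sub_le {k : X} (hk : ∑ i, k i * k i = 1) (x y : X) :
    |dp k x - dp k y| ≤ 3 * ‖x - y‖ := by
  rw [dp_sub]; exact abs_dp_le hk _

theorem sum_smul_ei (l : X) : ((0 : ℝ), l) = ∑ j : Fin 3, l j • ei j := by
  simp only [Fin.sum_univ_three]
  ext i
  · simp
  · fin_cases i <;> simp

theorem continuous_comp_dp {v : E → X} (hv : Continuous v) (k : X) :
    Continuous (fun z => dp k (v z)) := (continuous_dp k).comp hv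

theorem cv_dp {K : E → ℝ} {N : Set E} (hK : IsKer K N) {v : E → X} (hv : Continuous v) (k : X)
    (z : E) : cv K (fun y => dp k (v y)) z = ∑ i, k i * cv K (fun y => v y i) z := by
  unfold cv dp
  have h1 : ∀ y, (∑ i, k i * v y i) * K (z - y) = ∑ i, k i * (v y i * K (z - y)) := by
    intro y
    rw [Finset.sum_mul]
    exact Finset.sum_congr rfl fun i _ => by ring
  simp only [h1]
  rw [integral_finsetSum]
  · exact Finset.sum_congr rfl fun i _ => integral_const_mul _ _
  · intro i _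
    exact (integrable_mul_comp_sub ((continuous_apply i).comp hv) hK.smooth.continuous hK.cpt
      z).const_mul _

theorem fd_comp {K : E → ℝ} {N : Set E} (hK : IsKer K N) {v : E → X} (hv : Continuous v)
    (k l : X) (z : E) :
    fderiv ℝ (cv K (fun y => dp k (v y))) z (0, l)
      = ∑ i, ∑ j, k i * l j * fderiv ℝ (cv K (fun y => v y i)) z (ei j) := by
  have hvi : ∀ i : Fin 3, Continuous (fun y => v y i) := fun i => (continuous_apply i).comp hv
  have hd : ∀ i : Fin 3, DifferentiableAt ℝ (cv K (fun y => v y i)) z := fun i =>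
    (contDiff_cv hK.smooth hK.cpt (hvi i)).differentiable (by simp) z
  have h1 : cv K (fun y => dp k (v y)) = fun z => ∑ i, k i * cv K (fun y => v y i) z :=
    funext fun z => cv_dp hK hv k z
  have h2 : HasFDerivAt (fun z => ∑ i, k i * cv K (fun y => v y i) z)
      (∑ i, k i • fderiv ℝ (cv K (fun y => v y i)) z) z :=
    HasFDerivAt.fun_sum fun i _ => (hd i).hasFDerivAt.const_mul (k i)
  rw [h1, h2.fderiv, sum_smul_ei l]
  simp only [Fin.sum_univ_three, map_add, map_smul, smul_eq_mul]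
  simp
  ring

/-- Sum over the frame. -/
theorem frame_trace {a b c : X} (F : Frame a b c) (D : Fin 3 → Fin 3 → ℝ) :
    (∑ i, ∑ j, a i * a j * D i j) + (∑ i, ∑ j, b i * b j * D i j)
      + (∑ i, ∑ j, c i * c j * D i j) = ∑ i, D i i := by
  have h := F.compl
  have h00 := h 0 0
  have h01 := h 0 1
  have h02 := h 0 2
  have h11 := h 1 1
  have h12 := h 1 2
  have h22 := h 2 2
  simp only [Fin.sum_univ_three]
  simp at h00 h01 h02 h11 h12 h22
  linear_combination D 0 0 * h00 + D 0 1 * h01 + D 0 2 * h02 + D 1 0 * h01 + D 1 1 * h11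
    + D 1 2 * h12 + D 2 0 * h02 + D 2 1 * h12 + D 2 2 * h22

variable {v : E → X} {z₀ : E} {R : ℝ} {a b c : X} {g₁ g₂ β C : ℝ}

theorem norm_le_of_dp {a b c : X} (F : Frame a b c) {y : X} {p q s : ℝ} (h1 : |dp a y| ≤ p)
    (h2 : |dp b y| ≤ q) (h3 : |dp c y| ≤ s) : ‖y‖ ≤ p + q + s := by
  conv_lhs => rw [F.decomp y]
  have e : ∀ {k : X} (_ : ∑ i, k i * k i = 1) {u w : ℝ} (_ : |u| ≤ w), ‖u • k‖ ≤ w := by
    intro k hk u w hu
    rw [norm_smul, Real.norm_eq_abs]
    calc |u| * ‖k‖ ≤ |u| * 1 :=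
          mul_le_mul_of_nonneg_left (norm_le_one_of_unit hk) (abs_nonneg _)
      _ ≤ w := by rw [mul_one]; exact hu
  calc ‖dp a y • a + dp b y • b + dp c y • c‖
      ≤ ‖dp a y • a‖ + ‖dp b y • b‖ + ‖dp c y • c‖ := norm_add₃_le
    _ ≤ p + q + s := add_le_add (add_le_add (e F.aa h1) (e F.bb h2)) (e F.cc h3)

theorem norm_smul_unit_le {k : X} (hk : ∑ i, k i * k i = 1) (u : ℝ) : ‖u • k‖ ≤ |u| := by
  rw [norm_smul, Real.norm_eq_abs]
  calc |u| * ‖k‖ ≤ |u| * 1 := mul_le_mul_of_nonneg_left (norm_le_one_of_unit hk) (abs_nonneg _)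
    _ = |u| := mul_one _

theorem InB.move {z₀ : E} {R R' t s : ℝ} {x y : X} (h : InB z₀ R t x) (hs : |s| ≤ R')
    (hy : ‖y‖ ≤ R') : InB z₀ (R + R') (t - s) (x - y) := by
  constructor
  · have : t - s - z₀.1 = (t - z₀.1) - s := by ring
    rw [this]
    exact (abs_sub _ _).trans (add_le_add h.1 hs)
  · have : x - y - z₀.2 = (x - z₀.2) - y := by abel
    rw [this]
    exact (norm_sub_le _ _).trans (add_le_add h.2 hy)

theorem InB.mono {z₀ : E} {R R' t : ℝ} {x : X} (h : InB z₀ R t x) (hR : R ≤ R') :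
    InB z₀ R' t x := ⟨h.1.trans hR, h.2.trans hR⟩

/-- The path from `z` to `z - y`: in time, along `a`, along `b`, along `c`. -/
theorem Loc.path (L : Loc v z₀ R a b c g₁ g₂ β C) {t r : ℝ} {x : X} (hr : r ≤ R / 16)
    (hz : InB z₀ (R / 2) t x) {y : E} (h0 : |y.1| ≤ r) (h1 : |dp a y.2| ≤ r)
    (h2 : |dp b y.2| ≤ r) {B : ℝ}
    (hlast : |dp c (v (t - y.1, x - dp a y.2 • a - dp b y.2 • b - dp c y.2 • c))
      - dp c (v (t - y.1, x - dp a y.2 • a - dp b y.2 • b))| ≤ B) :
    |dp c (v ((t, x) - y)) - dp c (v (t, x))|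
      ≤ 3 * (C * |y.1| ^ β) + 3 * (C * |dp a y.2| ^ g₁) + 3 * (C * |dp b y.2| ^ g₁) + B := by
  have hR := L.Rpos
  have ha := (norm_smul_unit_le L.frame.aa (dp a y.2)).trans h1
  have hb := (norm_smul_unit_le L.frame.bb (dp b y.2)).trans h2
  have r0 : 0 ≤ r := (abs_nonneg _).trans h0
  set x1 : X := x - dp a y.2 • a with hx1
  set x2 : X := x1 - dp b y.2 • b with hx2
  have e1 : x1 + dp a y.2 • a = x := by rw [hx1]; abel
  have e2 : x2 + dp b y.2 • b = x1 := by rw [hx2]; abel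
  have m0 : InB z₀ R t x := hz.mono (by linarith)
  have m1 : InB z₀ R (t - y.1) x := by
    have := hz.move (y := 0) h0 (by simpa using r0)
    rw [sub_zero] at this
    exact this.mono (by linarith)
  have m2' : InB z₀ (R / 2 + r) (t - y.1) x1 := hz.move h0 ha
  have m2 : InB z₀ R (t - y.1) x1 := m2'.mono (by linarith)
  have m3 : InB z₀ R (t - y.1) x2 := by
    have := m2'.move (s := 0) (by simpa using r0) hb
    rw [sub_zero] at this
    exact this.mono (by linarith)
  have s1 : |dp c (v (t - y.1, x)) - dp c (v (t, x))| ≤ 3 * (C * |y.1| ^ β) := by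
    refine (abs_dp_sub_le L.frame.cc _ _).trans ?_
    have := L.time (t - y.1) t x m1 m0
    have h' : |t - y.1 - t| = |y.1| := by rw [← abs_neg y.1]; congr 1; ring
    rw [h'] at this
    linarith
  have s2 : |dp c (v (t - y.1, x1)) - dp c (v (t - y.1, x))| ≤ 3 * (C * |dp a y.2| ^ g₁) := by
    rw [abs_sub_comm]
    refine (abs_dp_sub_le L.frame.cc _ _).trans ?_
    have := L.dira (t - y.1) x1 (dp a y.2) m2 (by rw [e1]; exact m1)
    rw [e1] at this
    linarith
  have s3 : |dp c (v (t - y.1, x2)) - dp c (v (t - y.1, x1))| ≤ 3 * (C * |dp b y.2| ^ g₁) := by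
    rw [abs_sub_comm]
    refine (abs_dp_sub_le L.frame.cc _ _).trans ?_
    have := L.dirb (t - y.1) x2 (dp b y.2) m3 (by rw [e2]; exact m2)
    rw [e2] at this
    linarith
  have e4 : (t, x) - y = (t - y.1, x2 - dp c y.2 • c) := by
    refine Prod.ext rfl ?_
    change x - y.2 = x2 - dp c y.2 • c
    conv_lhs => rw [L.frame.decomp y.2]
    rw [hx2, hx1]; abel
  rw [e4]
  have tri : ∀ p q s u w : ℝ, p - w = (p - q) + (q - s) + (s - u) + (u - w) := fun _ _ _ _ _ => by
    ring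
  rw [tri _ (dp c (v (t - y.1, x2))) (dp c (v (t - y.1, x1))) (dp c (v (t - y.1, x)))
    (dp c (v (t, x)))]
  refine (abs_add_le _ _).trans ?_
  refine (add_le_add ((abs_add_le _ _).trans (add_le_add (abs_add_le _ _) le_rfl)) le_rfl).trans ?_
  linarith

theorem rpow_small {r g β : ℝ} (hr : 0 < r) (hβ : 0 < β) :
    ∃ τ : ℝ, 0 < τ ∧ τ ≤ r ∧ τ ^ β ≤ r ^ g := by
  have h1 : 0 < r ^ g := Real.rpow_pos_of_pos hr g
  refine ⟨min r ((r ^ g) ^ (1 / β)), lt_min hr (Real.rpow_pos_of_pos h1 _), min_le_left _ _, ?_⟩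
  calc (min r ((r ^ g) ^ (1 / β))) ^ β ≤ ((r ^ g) ^ (1 / β)) ^ β :=
        Real.rpow_le_rpow (lt_min hr (Real.rpow_pos_of_pos h1 _)).le (min_le_right _ _) hβ.le
    _ = r ^ g := by
        rw [← Real.rpow_mul h1.le, one_div, inv_mul_cancel₀ hβ.ne', Real.rpow_one]

/-- Tangential derivative estimate for a kernel, in the direction `k` (where `k = a` or `b`). -/
theorem dir_estimate {K : E → ℝ} {N : Set E} (hK : IsKer K N) {v : E → X} (hv : Continuous v)
    {k : X} (hk : ∑ i, k i * k i = 1) {f : X → ℝ} (hf : Continuous f) {z : E} {A : ℝ}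
    (hA : 0 ≤ A)
    (h : ∀ y ∈ N, |f (v (z - y)) - f (v (z - y + (0, dp k y.2 • k)))| ≤ A) :
    |fderiv ℝ (cv K (fun y => f (v y))) z (0, k)| ≤ A * ∫ y, |fderiv ℝ K y (0, k)| := by
  have hcd : Continuous (fun y : E => z - y + (0, dp k y.2 • k)) := by
    have := (continuous_dp k).comp (continuous_snd (X := ℝ) (Y := Fin 3 → ℝ))
    have h2 : Continuous (fun y : E => ((0 : ℝ), dp k y.2 • k)) :=
      continuous_const.prodMk (this.smul continuous_const)
    exact (continuous_const.sub continuous_id).add h2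
  refine hK.fderiv_le (g := fun y => f (v (z - y + (0, dp k y.2 • k)))) (hf.comp hv)
    (hf.comp (hv.comp hcd)) hA ?_ h
  intro y t
  have hkk : dp k k = 1 := hk
  have : z - (y + t • ((0 : ℝ), k)) + (0, dp k (y + t • ((0 : ℝ), k)).2 • k)
      = z - y + (0, dp k y.2 • k) := by
    refine Prod.ext ?_ ?_
    · simp
    · have h1 : (y + t • ((0 : ℝ), k)).2 = y.2 + t • k := rfl
      rw [h1, dp_add, dp_smul, hkk]
      change z.2 - (y.2 + t • k) + (dp k y.2 + t * 1) • k = z.2 - y.2 + dp k y.2 • k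
      rw [mul_one, add_smul]; abel
  simp only [this]

/-- The component of the velocity normal to the plane inherits the tangential exponent in the
normal direction. -/
theorem Loc.normal (L : Loc v z₀ R a b c g₁ g₂ β C) (hv : Continuous v) {T : ℝ}
    (hd : WeakDiv T v) (hT : ∀ t, |t - z₀.1| ≤ R → t ∈ Set.Ioo 0 T) :
    ∃ C' : ℝ, 0 ≤ C' ∧ ∀ t x s, InB z₀ (R / 4) t x → |s| ≤ R / 16 →
      |dp c (v (t, x + s • c)) - dp c (v (t, x))| ≤ C' * |s| ^ g₁ := by
  have hC := L.Cnn
  have hC0 := C0_nonneg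
  have hRp := L.Rpos
  refine ⟨24 * C + 6 * C * C0, by positivity, ?_⟩
  intro t x s hz hs
  rcases eq_or_ne s 0 with rfl | hs0
  · simp only [zero_smul, add_zero, sub_self, abs_zero]
    positivity
  have hr : 0 < |s| := abs_pos.mpr hs0
  set r : ℝ := |s| with hrdef
  obtain ⟨τ, hτ, hτr, hτβ⟩ := rpow_small (g := g₁) hr L.βpos
  obtain ⟨δ, hδ, hδr, hδβ⟩ := rpow_small (g := g₁) hr L.g2pos
  set Lt := thin L.frame hτ hr hδ with hLt
  have hK := isKer_KL Lt
  have hrg : 0 ≤ r ^ g₁ := Real.rpow_nonneg hr.le _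
  -- support of the kernel
  have supp : ∀ y ∈ {y : E | ‖Lt y‖ ≤ 1}, |y.1| ≤ τ ∧ |dp a y.2| ≤ r ∧ |dp b y.2| ≤ r
      ∧ |dp c y.2| ≤ δ := fun y hy => thin_supp L.frame hτ hr hδ hy
  have nrm : ∀ y ∈ {y : E | ‖Lt y‖ ≤ 1}, ‖y.2‖ ≤ 3 * r := by
    intro y hy
    obtain ⟨-, h1, h2, h3⟩ := supp y hy
    have := norm_le_of_dp L.frame h1 h2 (h3.trans hδr)
    linarith
  have approx : ∀ t' x', InB z₀ (R / 2) t' x' →
      |cv (KL Lt) (fun y => dp c (v y)) (t', x') - dp c (v (t', x'))| ≤ 12 * C * r ^ g₁ := by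
    intro t' x' hz'
    refine hK.cv_sub_le (continuous_comp_dp hv c) fun y hy => ?_
    obtain ⟨h0, h1, h2, h3⟩ := supp y hy
    have h0r : |y.1| ≤ r := h0.trans hτr
    have hlast : |dp c (v (t' - y.1, x' - dp a y.2 • a - dp b y.2 • b - dp c y.2 • c))
        - dp c (v (t' - y.1, x' - dp a y.2 • a - dp b y.2 • b))| ≤ 3 * (C * r ^ g₁) := by
      have n1 : ‖dp a y.2 • a‖ ≤ r := (norm_smul_unit_le L.frame.aa _).trans h1
      have n2 : ‖dp b y.2 • b‖ ≤ r := (norm_smul_unit_le L.frame.bb _).trans h2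
      have n3 : ‖dp c y.2 • c‖ ≤ δ := (norm_smul_unit_le L.frame.cc _).trans h3
      have m1 : InB z₀ (R / 2 + r) (t' - y.1) (x' - dp a y.2 • a) := hz'.move h0r n1
      have m2 : InB z₀ (R / 2 + r + r) (t' - y.1) (x' - dp a y.2 • a - dp b y.2 • b) := by
        have := m1.move (s := 0) (by simpa using hr.le) n2
        rwa [sub_zero] at this
      have m3 : InB z₀ (R / 2 + r + r + r) (t' - y.1)
          (x' - dp a y.2 • a - dp b y.2 • b - dp c y.2 • c) := by
        have := m2.move (s := 0) (by simpa using hr.le) (n3.trans hδr)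
        rwa [sub_zero] at this
      refine (abs_dp_sub_le L.frame.cc _ _).trans ?_
      have h4 := L.space (t' - y.1) (x' - dp a y.2 • a - dp b y.2 • b - dp c y.2 • c)
        (x' - dp a y.2 • a - dp b y.2 • b) (m3.mono (by linarith)) (m2.mono (by linarith))
      have h5 : ‖x' - dp a y.2 • a - dp b y.2 • b - dp c y.2 • c
          - (x' - dp a y.2 • a - dp b y.2 • b)‖ ≤ δ := by
        have : x' - dp a y.2 • a - dp b y.2 • b - dp c y.2 • c
          - (x' - dp a y.2 • a - dp b y.2 • b) = - (dp c y.2 • c) := by abel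
        rw [this, norm_neg]; exact n3
      have h6 := Real.rpow_le_rpow (norm_nonneg _) h5 L.g2pos.le
      have h7 := mul_le_mul_of_nonneg_left (h6.trans hδβ) hC
      linarith
    have hp := L.path hs hz' h0r h1 h2 hlast
    have p0 : C * |y.1| ^ β ≤ C * r ^ g₁ := mul_le_mul_of_nonneg_left
      ((Real.rpow_le_rpow (abs_nonneg _) h0 L.βpos.le).trans hτβ) hC
    have p1 : C * |dp a y.2| ^ g₁ ≤ C * r ^ g₁ := mul_le_mul_of_nonneg_left
      (Real.rpow_le_rpow (abs_nonneg _) h1 L.g1pos.le) hC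
    have p2 : C * |dp b y.2| ^ g₁ ≤ C * r ^ g₁ := mul_le_mul_of_nonneg_left
      (Real.rpow_le_rpow (abs_nonneg _) h2 L.g1pos.le) hC
    linarith
  -- tangential derivatives
  have tang : ∀ k : X, ∑ i, k i * k i = 1 → ‖Lt (0, k)‖ ≤ r⁻¹ →
      (∀ y ∈ {y : E | ‖Lt y‖ ≤ 1}, |dp k y.2| ≤ r) →
      (∀ t x s, InB z₀ R t x → InB z₀ R t (x + s • k) →
        ‖v (t, x + s • k) - v (t, x)‖ ≤ C * |s| ^ g₁) →
      ∀ t' x', InB z₀ (R / 2) t' x' →
      |fderiv ℝ (cv (KL Lt) (fun y => dp k (v y))) (t', x') (0, k)|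
        ≤ 3 * (C * r ^ g₁) * (C0 * r⁻¹) := by
    intro k hk hn hdk hdir t' x' hz'
    refine (dir_estimate hK hv hk (continuous_dp k) (z := (t', x')) (A := 3 * (C * r ^ g₁))
      (by positivity) ?_).trans
      (mul_le_mul_of_nonneg_left ((integral_abs_fderiv_KL Lt (0, k)).trans
        (mul_le_mul_of_nonneg_left hn hC0)) (by positivity))
    intro y hy
    obtain ⟨h0, -⟩ := supp y hy
    have hny := nrm y hy
    have hk1 := hdk y hy
    have e1 : (t', x') - y = (t' - y.1, x' - y.2) := rfl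
    have e2 : (t', x') - y + (0, dp k y.2 • k) = (t' - y.1, x' - y.2 + dp k y.2 • k) := by
      refine Prod.ext ?_ rfl
      simp
    rw [e1, ← e1, e2, e1]
    have m1 : InB z₀ (R / 2 + 3 * r) (t' - y.1) (x' - y.2) :=
      hz'.move (h0.trans (by linarith)) hny
    have m2 : InB z₀ (R / 2 + 3 * r + r) (t' - y.1) (x' - y.2 + dp k y.2 • k) := by
      have := m1.move (s := 0) (y := -(dp k y.2 • k)) (R' := r) (by simpa using hr.le)
        (by rw [norm_neg]; exact (norm_smul_unit_le hk _).trans hk1)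
      rwa [sub_zero, sub_neg_eq_add] at this
    refine (abs_dp_sub_le hk _ _).trans ?_
    have h4 := hdir (t' - y.1) (x' - y.2) (dp k y.2) (m1.mono (by linarith))
      (m2.mono (by linarith))
    rw [norm_sub_rev]
    have h5 := mul_le_mul_of_nonneg_left
      (Real.rpow_le_rpow (abs_nonneg _) hk1 L.g1pos.le) hC
    linarith
  have der : ∀ t' x', InB z₀ (R / 2) t' x' →
      |fderiv ℝ (cv (KL Lt) (fun y => dp c (v y))) (t', x') (0, c)|
        ≤ 6 * C * C0 * r ^ g₁ * r⁻¹ := by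
    intro t' x' hz'
    have ta := tang a L.frame.aa (thin_a L.frame hτ hr hδ) (fun y hy => (supp y hy).2.1)
      L.dira t' x' hz'
    have tb := tang b L.frame.bb (thin_b L.frame hτ hr hδ) (fun y hy => (supp y hy).2.2.1)
      L.dirb t' x' hz'
    have hdv := div_cv hv hd hK.smooth hK.cpt (t', x') (by
      intro y hy
      refine ⟨?_, mem_univ _⟩
      have h0 := (supp y (hK.supp hy)).1
      have := (hz'.move (y := (0 : X)) h0 (by simpa using hτ.le)).1
      exact hT _ (this.trans (by linarith)))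
    have ht := frame_trace L.frame
      (fun i j => fderiv ℝ (cv (KL Lt) (fun y => v y i)) (t', x') (ei j))
    rw [← fd_comp hK hv, ← fd_comp hK hv, ← fd_comp hK hv, hdv] at ht
    have : fderiv ℝ (cv (KL Lt) (fun y => dp c (v y))) (t', x') (0, c)
        = -(fderiv ℝ (cv (KL Lt) (fun y => dp a (v y))) (t', x') (0, a)
          + fderiv ℝ (cv (KL Lt) (fun y => dp b (v y))) (t', x') (0, b)) := by linarith
    rw [this, abs_neg]
    refine (abs_add_le _ _).trans ?_
    calc _ ≤ 3 * (C * r ^ g₁) * (C0 * r⁻¹) + 3 * (C * r ^ g₁) * (C0 * r⁻¹) := add_le_add ta tb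
      _ = 6 * C * C0 * r ^ g₁ * r⁻¹ := by ring
  -- mean value
  have mv : |cv (KL Lt) (fun y => dp c (v y)) (t, x + s • c)
      - cv (KL Lt) (fun y => dp c (v y)) (t, x)| ≤ 6 * C * C0 * r ^ g₁ := by
    have hsm := contDiff_cv hK.smooth hK.cpt (continuous_comp_dp hv c)
    have hder : ∀ l : ℝ, HasDerivAt
        (fun l : ℝ => cv (KL Lt) (fun y => dp c (v y)) (t, x + l • c))
        (fderiv ℝ (cv (KL Lt) (fun y => dp c (v y))) (t, x + l • c) (0, c)) l := by
      intro l
      have h1 : HasDerivAt (fun l : ℝ => ((t, x + l • c) : E)) (0, c) l := by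
        have h2 : HasDerivAt (fun l : ℝ => x + l • c) c l := by
          simpa using ((hasDerivAt_id l).smul_const c).const_add x
        exact (hasDerivAt_const l t).prodMk h2
      exact ((hsm.differentiable (by simp)) _).hasFDerivAt.comp_hasDerivAt l h1
    have hb := (convex_Icc (-r) r).norm_image_sub_le_of_norm_hasDerivWithin_le
      (f := fun l : ℝ => cv (KL Lt) (fun y => dp c (v y)) (t, x + l • c))
      (f' := fun l : ℝ => fderiv ℝ (cv (KL Lt) (fun y => dp c (v y))) (t, x + l • c) (0, c))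
      (C := 6 * C * C0 * r ^ g₁ * r⁻¹) (x := 0) (y := s)
      (fun l _ => (hder l).hasDerivWithinAt)
      (fun l hl => by
        rw [Real.norm_eq_abs]
        refine der t (x + l • c) ?_
        have hl' : |l| ≤ r := abs_le.mpr hl
        have := hz.move (s := 0) (y := -(l • c)) (R' := r) (by simpa using hr.le)
          (by rw [norm_neg]; exact (norm_smul_unit_le L.frame.cc _).trans hl')
        rw [sub_zero, sub_neg_eq_add] at this
        exact this.mono (by linarith))
      ⟨by linarith, hr.le⟩ (abs_le.mp le_rfl)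
    simp only [zero_smul, add_zero, sub_zero, Real.norm_eq_abs] at hb
    refine hb.trans_eq ?_
    rw [← hrdef]
    field_simp
  have hz2 : InB z₀ (R / 2) t (x + s • c) := by
    have := hz.move (s := 0) (y := -(s • c)) (R' := r) (by simpa using hr.le)
      (by rw [norm_neg]; exact norm_smul_unit_le L.frame.cc _)
    rw [sub_zero, sub_neg_eq_add] at this
    exact this.mono (by linarith)
  have a1 := approx t (x + s • c) hz2
  have a2 := approx t x (hz.mono (by linarith))
  rw [abs_sub_comm] at a1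
  have tri : dp c (v (t, x + s • c)) - dp c (v (t, x))
      = (dp c (v (t, x + s • c)) - cv (KL Lt) (fun y => dp c (v y)) (t, x + s • c))
        + (cv (KL Lt) (fun y => dp c (v y)) (t, x + s • c)
          - cv (KL Lt) (fun y => dp c (v y)) (t, x))
        + (cv (KL Lt) (fun y => dp c (v y)) (t, x) - dp c (v (t, x))) := by ring
  rw [tri]
  refine (abs_add_le _ _).trans ((add_le_add (abs_add_le _ _) le_rfl).trans ?_)
  calc _ ≤ 12 * C * r ^ g₁ + 6 * C * C0 * r ^ g₁ + 12 * C * r ^ g₁ :=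
        add_le_add (add_le_add a1 mv) a2
    _ = (24 * C + 6 * C * C0) * r ^ g₁ := by ring

end Pool.Agent.EUL22
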