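import Pool.Agent.EUL22.Cover

/-!
Removing the singular set with the local energy inequality.
-/

set_option autoImplicit false

open MeasureTheory Set Filter Topology
open scoped ContDiff ENNReal

namespace Pool.Agent.EUL22

variable {v : E → X} {p : E → ℝ}

theorem isOpen_planeRegular (v : E → X) : IsOpen {z | PlaneRegularAt v z} := by
  rw [isOpen_iff_mem_nhds]
  rintro z ⟨U, hU, h⟩
  filter_upwards [interior_mem_nhds.mpr hU] with y hy
  exact ⟨U, mem_interior_iff_mem_nhds.mp hy, h⟩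

theorem one_sub_prod_le {ι : Type} (s : Finset ι) (x : ι → ℝ) (h0 : ∀ i, 0 ≤ x i)
    (h1 : ∀ i, x i ≤ 1) : 0 ≤ ∏ i ∈ s, (1 - x i) ∧ ∏ i ∈ s, (1 - x i) ≤ 1 ∧
      1 - ∏ i ∈ s, (1 - x i) ≤ ∑ i ∈ s, x i := by
  classical
  induction s using Finset.induction_on with
  | empty => simp
  | insert a s ha ih =>
    obtain ⟨i1, i2, i3⟩ := ih
    rw [Finset.prod_insert ha, Finset.sum_insert ha]
    have a0 := h0 a
    have a1 := h1 a
    refine ⟨mul_nonneg (by linarith) i1, ?_, ?_⟩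
    · nlinarith
    · nlinarith

theorem sum_pairs_le {f : ℕ → ℕ → ℝ} (hf : ∀ n k, 0 ≤ f n k) {ε : ℝ} (hε : 0 < ε)
    (h : ∀ n, ∀ F : Finset ℕ, ∑ k ∈ F, f n k ≤ ε / 2 / 2 ^ n) (F : Finset (ℕ × ℕ)) :
    ∑ q ∈ F, f q.1 q.2 ≤ ε := by
  classical
  have h1 : F ⊆ F.image Prod.fst ×ˢ F.image Prod.snd := by
    intro q hq
    exact Finset.mem_product.mpr ⟨Finset.mem_image_of_mem _ hq, Finset.mem_image_of_mem _ hq⟩
  refine (Finset.sum_le_sum_of_subset_of_nonneg h1 fun q _ _ => hf _ _).trans ?_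
  rw [Finset.sum_product]
  refine (Finset.sum_le_sum fun n _ => h n _).trans ?_
  have h2 := (summable_geometric_two' ε).sum_le_tsum (F.image Prod.fst)
    (fun n _ => by positivity)
  rwa [tsum_geometric_two'] at h2

theorem Dis_eq_zero_of_nonneg (hv : Continuous v) (hp : Continuous p) {T : ℝ} {β : NNReal}
    (hβ : 0 < β)
    (hH : ∃ C : NNReal, HolderOnWith C β v (Set.Icc (0 : ℝ) T ×ˢ (Set.univ : Set (Fin 3 → ℝ))))
    (hd : WeakDiv T v) (hm : WeakMom T v p) (hL : WeakLEI T v p) {A : ℕ → Set E}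
    (hA : ∀ n, μH[3 + (β : ℝ)] (A n) < (⊤ : ℝ≥0∞))
    (hcov : ∀ z ∈ Set.Ioo (0 : ℝ) T ×ˢ (Set.univ : Set (Fin 3 → ℝ)),
      ¬ PlaneRegularAt v z → z ∈ ⋃ n, A n)
    {φ : E → ℝ} (hφ : ContDiff ℝ ∞ φ) (hφc : HasCompactSupport φ)
    (hφT : tsupport φ ⊆ Set.Ioo (0 : ℝ) T ×ˢ (Set.univ : Set (Fin 3 → ℝ)))
    (hφ0 : ∀ z, 0 ≤ φ z) : Dis v p φ = 0 := by
  have hge : 0 ≤ Dis v p φ := hL φ hφ hφc hφT hφ0
  rcases (tsupport φ).eq_empty_or_nonempty with hemp | hne
  · have : φ = fun _ => 0 := by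
      funext z
      exact image_eq_zero_of_notMem_tsupport (by rw [hemp]; exact notMem_empty z)
    rw [this, Dis_zero_fun]
  obtain ⟨B, hB⟩ := hφ.continuous.bounded_above_of_compact_support hφc
  have hB0 : 0 ≤ B := (norm_nonneg _).trans (hB 0)
  have hφB : ∀ z, φ z ≤ B := fun z => (le_abs_self _).trans (hB z)
  refine le_antisymm ?_ hge
  refine le_of_forall_pos_le_add fun ε' hε' => ?_
  rw [zero_add]
  set ε : ℝ := ε' / (B + 1) with hε
  have hε0 : 0 < ε := by positivity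
  have hBε : B * ε ≤ ε' := by
    rw [hε, mul_div_assoc', div_le_iff₀ (by positivity)]
    nlinarith
  have hpc := fun n => piece hv hp hβ hH hd hm hφc hφT hne (hA n)
    (ε := ε / 2 / 2 ^ n) (by positivity)
  choose z r hr hz hsupp hsum using hpc
  set K : Set E := tsupport φ with hK
  set G : Set E := {z | PlaneRegularAt v z} with hG
  have hGo : IsOpen G := isOpen_planeRegular v
  have hK1 : IsCompact (K \ G) := hφc.diff hGo
  have hcov1 : K \ G ⊆ ⋃ q : ℕ × ℕ, Metric.ball (z q.1 q.2) (r q.1 q.2) := by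
    rintro x ⟨hxK, hxG⟩
    obtain ⟨n, hn⟩ := mem_iUnion.mp (hcov x (hφT hxK) hxG)
    obtain ⟨k, hk⟩ := mem_iUnion.mp (hz n ⟨hxK, hn⟩)
    exact mem_iUnion.mpr ⟨(n, k), hk⟩
  obtain ⟨F, hF⟩ := hK1.elim_finite_subcover (fun q : ℕ × ℕ => Metric.ball (z q.1 q.2) (r q.1 q.2))
    (fun _ => Metric.isOpen_ball) hcov1
  set η : ℕ × ℕ → E → ℝ := fun q => bmp (z q.1 q.2) (r q.1 q.2) with hη
  have hηs : ∀ q, ContDiff ℝ ∞ (η q) := fun q => bmp_smooth _ _
  have hηc : ∀ q, HasCompactSupport (η q) := fun q => bmp_cpt (hr q.1 q.2)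
  set Φ : E → ℝ := fun y => φ y * ∏ q ∈ F, (1 - η q y) with hΦ
  have hΦs : ContDiff ℝ ∞ Φ :=
    hφ.mul (contDiff_prod fun q _ => contDiff_const.sub (hηs q))
  have hΦc : HasCompactSupport Φ := hφc.mul_right
  have hΦK : tsupport Φ ⊆ K := closure_mono (by
    intro y hy h0
    exact hy (by simp only [hΦ, h0, zero_mul]))
  have hΦG : ∀ y ∈ tsupport Φ, PlaneRegularAt v y := by
    intro y hy
    by_contra hyG
    have hyK : y ∈ K \ G := ⟨hΦK hy, hyG⟩
    obtain ⟨q, hq⟩ := mem_iUnion.mp (hF hyK)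
    obtain ⟨hqF, hqb⟩ := mem_iUnion.mp hq
    have h1 : ∀ᶠ x in 𝓝 y, Φ x = 0 := by
      filter_upwards [Metric.isOpen_ball.mem_nhds hqb] with x hx
      have h2 : η q x = 1 := bmp_eq_one (hr q.1 q.2) (Metric.mem_ball.mp hx).le
      have h3 : ∏ q ∈ F, (1 - η q x) = 0 := Finset.prod_eq_zero hqF (by rw [h2, sub_self])
      simp only [hΦ, h3, mul_zero]
    exact (notMem_tsupport_iff_eventuallyEq.mpr h1) hy
  have hDΦ : Dis v p Φ = 0 := Dis_zero hv hp hβ hH hd hm hΦs hΦc (hΦK.trans hφT) hΦG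
  -- the comparison function
  have hcs : HasCompactSupport (fun y => ∑ q ∈ F, B * η q y) :=
    HasCompactSupport.intro (K := ⋃ q ∈ F, tsupport (η q))
      (F.isCompact_biUnion fun q _ => hηc q) (by
        intro y hy
        refine Finset.sum_eq_zero fun q hq => ?_
        have : y ∉ tsupport (η q) := fun h => hy (mem_iUnion₂.mpr ⟨q, hq, h⟩)
        rw [image_eq_zero_of_notMem_tsupport this, mul_zero])
  have hs1 : ContDiff ℝ ∞ (fun y => ∑ q ∈ F, B * η q y) :=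
    ContDiff.sum fun q _ => contDiff_const.mul (hηs q)
  have hs2 : ContDiff ℝ ∞ (fun y => (-1) * φ y) := contDiff_const.mul hφ
  have hc2 : HasCompactSupport (fun y => (-1) * φ y) := hφc.mul_left
  have hs3 : ContDiff ℝ ∞ (fun y => ∑ q ∈ F, B * η q y + (-1) * φ y) := hs1.add hs2
  have hc3 : HasCompactSupport (fun y => ∑ q ∈ F, B * η q y + (-1) * φ y) := hcs.add hc2
  set ψ : E → ℝ := fun y => (∑ q ∈ F, B * η q y + (-1) * φ y) + Φ y with hψ
  have hψs : ContDiff ℝ ∞ ψ := hs3.add hΦs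
  have hψc : HasCompactSupport ψ := hc3.add hΦc
  have hψT : tsupport ψ ⊆ Set.Ioo (0 : ℝ) T ×ˢ (Set.univ : Set (Fin 3 → ℝ)) := by
    have h1 : tsupport ψ ⊆ (⋃ q ∈ F, tsupport (η q)) ∪ K := by
      refine closure_minimal ?_ ((F.isCompact_biUnion fun q _ => hηc q).isClosed.union
        (isClosed_tsupport φ))
      intro y hy
      by_contra hcon
      rw [mem_union, not_or] at hcon
      obtain ⟨h2, h3⟩ := hcon
      refine hy ?_
      have h4 : φ y = 0 := image_eq_zero_of_notMem_tsupport h3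
      have h5 : ∑ q ∈ F, B * η q y = 0 := by
        refine Finset.sum_eq_zero fun q hq => ?_
        have : y ∉ tsupport (η q) := fun h => h2 (mem_iUnion₂.mpr ⟨q, hq, h⟩)
        rw [image_eq_zero_of_notMem_tsupport this, mul_zero]
      simp only [hψ, hΦ, h4, h5, zero_mul, mul_zero, add_zero]
    refine h1.trans (union_subset (iUnion₂_subset fun q _ => hsupp q.1 q.2) hφT)
  have hψ0 : ∀ y, 0 ≤ ψ y := by
    intro y
    obtain ⟨_, h2, h3⟩ := one_sub_prod_le F (fun q => η q y) (fun q => bmp_nonneg _ _ _)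
      (fun q => bmp_le_one _ _ _)
    simp only [hψ, hΦ]
    rw [← Finset.mul_sum]
    have h4 := hφ0 y
    have h5 := hφB y
    have h6 : φ y * (1 - ∏ q ∈ F, (1 - η q y)) ≤ B * ∑ q ∈ F, η q y :=
      mul_le_mul h5 h3 (by linarith) hB0
    linarith
  have hDψ : 0 ≤ Dis v p ψ := hL ψ hψs hψc hψT hψ0
  have e1 : Dis v p ψ = (∑ q ∈ F, B * Dis v p (η q) + (-1) * Dis v p φ) + Dis v p Φ := by
    rw [hψ, Dis_add hv hp hs3 hc3 hΦs hΦc, Dis_add hv hp hs1 hcs hs2 hc2, Dis_smul hφ,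
      Dis_sum hv hp F (fun q _ => contDiff_const.mul (hηs q)) (fun q _ => (hηc q).mul_left)]
    congr 2
    exact Finset.sum_congr rfl fun q _ => Dis_smul (hηs q) B
  rw [hDΦ, add_zero, ← Finset.mul_sum] at e1
  have h7 : ∑ q ∈ F, Dis v p (η q) ≤ ε :=
    (Finset.sum_le_sum fun q _ => le_abs_self _).trans
      (sum_pairs_le (f := fun n k => |Dis v p (bmp (z n k) (r n k))|)
        (fun _ _ => abs_nonneg _) hε0 hsum F)
  have h8 := mul_le_mul_of_nonneg_left h7 hB0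
  linarith

end Pool.Agent.EUL22
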