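import Pool.Agent.EUL22.Bump

/-!
The functional `Dis` on bumps of small radius is `o(r^(3+β))`.
-/

set_option autoImplicit false

open MeasureTheory Set Filter Topology
open scoped ContDiff

namespace Pool.Agent.EUL22

/-- A bump which is `1` on the unit ball and vanishes outside the ball of radius `2`. -/
noncomputable def bump1 : ContDiffBump (0 : E) := ⟨1, 2, by norm_num, by norm_num⟩

/-- The bump of radius `r` at `z`. -/
noncomputable def bmp (z : E) (r : ℝ) (y : E) : ℝ := bump1 (r⁻¹ • (y - z))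

theorem bump1_smooth : ContDiff ℝ ∞ (bump1 : E → ℝ) := bump1.contDiff

theorem aff_smooth (z : E) (r : ℝ) : ContDiff ℝ ∞ (fun y : E => r⁻¹ • (y - z)) := by
  fun_prop

theorem bmp_smooth (z : E) (r : ℝ) : ContDiff ℝ ∞ (bmp z r) :=
  bump1_smooth.comp (aff_smooth z r)

theorem bmp_nonneg (z : E) (r : ℝ) (y : E) : 0 ≤ bmp z r y := bump1.nonneg

theorem bmp_le_one (z : E) (r : ℝ) (y : E) : bmp z r y ≤ 1 := bump1.le_one

theorem norm_smul_sub {r : ℝ} (hr : 0 < r) (z y : E) : ‖r⁻¹ • (y - z)‖ = r⁻¹ * dist y z := by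
  rw [norm_smul, norm_inv, Real.norm_eq_abs, abs_of_pos hr, dist_eq_norm]

theorem bmp_eq_one {z : E} {r : ℝ} (hr : 0 < r) {y : E} (hy : dist y z ≤ r) :
    bmp z r y = 1 := by
  refine bump1.one_of_mem_closedBall ?_
  rw [mem_closedBall_zero_iff, norm_smul_sub hr]
  change r⁻¹ * dist y z ≤ 1
  calc r⁻¹ * dist y z ≤ r⁻¹ * r := mul_le_mul_of_nonneg_left hy (inv_pos.mpr hr).le
    _ = 1 := inv_mul_cancel₀ hr.ne'

theorem bmp_tsupport {z : E} {r : ℝ} (hr : 0 < r) :
    tsupport (bmp z r) ⊆ Metric.closedBall z (2 * r) := by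
  intro y hy
  have h1 : tsupport (bmp z r) ⊆ (fun y => r⁻¹ • (y - z)) ⁻¹' tsupport bump1 :=
    tsupport_comp_subset_preimage bump1 (aff_smooth z r).continuous
  have h2 := h1 hy
  rw [mem_preimage, bump1.tsupport_eq, mem_closedBall_zero_iff, norm_smul_sub hr] at h2
  have h2' : r⁻¹ * dist y z ≤ 2 := h2
  rw [Metric.mem_closedBall]
  calc dist y z = r * (r⁻¹ * dist y z) := by field_simp
    _ ≤ r * 2 := mul_le_mul_of_nonneg_left h2' hr.le
    _ = 2 * r := mul_comm _ _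

theorem bmp_cpt {z : E} {r : ℝ} (hr : 0 < r) : HasCompactSupport (bmp z r) :=
  HasCompactSupport.of_support_subset_isCompact (isCompact_closedBall z (2 * r))
    ((subset_tsupport _).trans (bmp_tsupport hr))

theorem exists_M1 : ∃ M1 : ℝ, 0 ≤ M1 ∧ ∀ z : E, ∀ r : ℝ, 0 < r → ∀ y w : E,
    |fderiv ℝ (bmp z r) y w| ≤ M1 * r⁻¹ * ‖w‖ := by
  have h1 : Continuous (fderiv ℝ bump1) := bump1_smooth.continuous_fderiv (by simp)
  obtain ⟨M, hM⟩ := h1.bounded_above_of_compact_support (bump1.hasCompactSupport.fderiv ℝ)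
  refine ⟨|M|, abs_nonneg _, ?_⟩
  intro z r hr y w
  have h2 : HasFDerivAt (fun y : E => r⁻¹ • (y - z)) (r⁻¹ • ContinuousLinearMap.id ℝ E) y :=
    ((hasFDerivAt_id y).sub_const z).const_smul r⁻¹
  have h3 : HasFDerivAt bump1 (fderiv ℝ bump1 (r⁻¹ • (y - z))) (r⁻¹ • (y - z)) :=
    (bump1_smooth.differentiable (by simp) _).hasFDerivAt
  have h4 : fderiv ℝ (bmp z r) y = (fderiv ℝ bump1 (r⁻¹ • (y - z))).comp
      (r⁻¹ • ContinuousLinearMap.id ℝ E) := (h3.comp y h2).fderiv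
  rw [h4]
  have h5 : ((fderiv ℝ bump1 (r⁻¹ • (y - z))).comp (r⁻¹ • ContinuousLinearMap.id ℝ E)) w
      = r⁻¹ * fderiv ℝ bump1 (r⁻¹ • (y - z)) w := by simp
  rw [h5, abs_mul, abs_of_pos (inv_pos.mpr hr)]
  have h6 : |fderiv ℝ bump1 (r⁻¹ • (y - z)) w| ≤ |M| * ‖w‖ := by
    rw [← Real.norm_eq_abs]
    exact ((fderiv ℝ bump1 (r⁻¹ • (y - z))).le_opNorm w).trans
      (mul_le_mul_of_nonneg_right ((hM _).trans (le_abs_self M)) (norm_nonneg _))
  calc r⁻¹ * |fderiv ℝ bump1 (r⁻¹ • (y - z)) w| ≤ r⁻¹ * (|M| * ‖w‖) :=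
        mul_le_mul_of_nonneg_left h6 (inv_pos.mpr hr).le
    _ = |M| * r⁻¹ * ‖w‖ := by ring

theorem norm_et : ‖et‖ ≤ 1 := by
  rw [Prod.norm_def]; simp

theorem norm_ei (i : Fin 3) : ‖ei i‖ ≤ 1 := by
  rw [Prod.norm_def]
  refine max_le (by simp) ((pi_norm_le_iff_of_nonneg zero_le_one).mpr fun j => ?_)
  by_cases h : j = i
  · subst h; simp
  · simp [Pi.single_apply, h]

theorem finrank_E : Module.finrank ℝ E = 4 := by
  simp [Module.finrank_prod]

variable {v : E → X} {p : E → ℝ}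

theorem Dis_bmp (hv : Continuous v) (hp : Continuous p) {T : ℝ} {β : NNReal} (hβ : 0 < β)
    (hH : ∃ C : NNReal, HolderOnWith C β v (Set.Icc (0 : ℝ) T ×ˢ (Set.univ : Set (Fin 3 → ℝ))))
    (hd : WeakDiv T v) (hm : WeakMom T v p) {K : Set E} (hK : IsCompact K)
    (hKT : K ⊆ Set.Ioo (0 : ℝ) T ×ˢ (Set.univ : Set (Fin 3 → ℝ))) {ε : ℝ} (hε : 0 < ε) :
    ∃ r0 : ℝ, 0 < r0 ∧ ∀ z ∈ K, ∀ r : ℝ, 0 < r → r ≤ r0 →
      tsupport (bmp z r) ⊆ Set.Ioo (0 : ℝ) T ×ˢ (Set.univ : Set (Fin 3 → ℝ)) ∧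
      |Dis v p (bmp z r)| ≤ ε * r ^ (3 + (β : ℝ)) := by
  obtain ⟨H, hH⟩ := hH
  obtain ⟨M1, hM1, hder⟩ := exists_M1
  obtain ⟨δ, hδ, hδU⟩ := hK.exists_thickening_subset_open (isOpen_Ioo.prod isOpen_univ) hKT
  set K2 : Set E := Metric.cthickening (δ / 2) K with hK2
  have hK2c : IsCompact K2 := hK.cthickening
  have hK2U : K2 ⊆ Set.Ioo (0 : ℝ) T ×ˢ (Set.univ : Set (Fin 3 → ℝ)) :=
    (Metric.cthickening_subset_thickening' hδ (half_lt_self hδ) K).trans hδU
  obtain ⟨Mv, hMv⟩ := hK2c.exists_bound_of_continuousOn hv.continuousOn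
  set N : ℝ := |Mv| with hN
  have hNn : 0 ≤ N := abs_nonneg _
  have hβ' : (0 : ℝ) < β := hβ
  set cb : ℝ := (2 : ℝ) ^ (β : ℝ) with hcb
  have hcb0 : 0 ≤ cb := Real.rpow_nonneg (by norm_num) _
  set κ : ℝ := (volume : Measure E).real (Metric.closedBall (0 : E) 1) with hκ
  have hκ0 : 0 ≤ κ := measureReal_nonneg
  have hHn : (0 : ℝ) ≤ H := H.coe_nonneg
  set A : ℝ := 16 * κ * M1 * (3 / 2 * (1 + 3 * N) * (H * cb) ^ 2) with hA
  set B : ℝ := 16 * κ * M1 * (3 * (H * cb)) with hB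
  have hA0 : 0 ≤ A := by positivity
  have hB0 : 0 ≤ B := by positivity
  set om : ℝ := ε / (2 * (B + 1)) with hom
  have hom0 : 0 < om := by positivity
  have hBom : B * om ≤ ε / 2 := by
    rw [hom]
    rw [mul_div_assoc', div_le_div_iff₀ (by positivity) (by norm_num)]
    nlinarith
  -- uniform continuity of the pressure
  have h1 := hK.uniformContinuousAt_of_continuousAt p (fun a _ => hp.continuousAt)
    (Metric.dist_mem_uniformity hom0)
  obtain ⟨δ2, hδ2, h2⟩ := Metric.mem_uniformity_dist.mp h1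
  -- the radius
  have hrβ : Tendsto (fun r : ℝ => A * r ^ (β : ℝ)) (𝓝 0) (𝓝 0) := by
    have := (Real.continuousAt_rpow_const 0 (β : ℝ) (Or.inr hβ'.le)).tendsto
    rw [Real.zero_rpow hβ'.ne'] at this
    simpa using this.const_mul A
  obtain ⟨r1, hr1, hr1'⟩ := Metric.eventually_nhds_iff.mp
    ((tendsto_order.1 hrβ).2 (ε / 2) (half_pos hε))
  refine ⟨min (r1 / 2) (min (δ / 4) (δ2 / 4)), by positivity, ?_⟩
  intro z hz r hr hrr
  have hrr1 : r < r1 := (hrr.trans (min_le_left _ _)).trans_lt (half_lt_self hr1)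
  have hrδ : 2 * r ≤ δ / 2 := by
    have := (hrr.trans (min_le_right _ _)).trans (min_le_left _ _)
    linarith
  have hrδ2 : 2 * r < δ2 := by
    have := (hrr.trans (min_le_right _ _)).trans (min_le_right _ _)
    linarith
  have hArβ : A * r ^ (β : ℝ) ≤ ε / 2 := by
    refine (hr1' ?_).le
    rw [Real.dist_eq, sub_zero, abs_of_pos hr]
    exact hrr1
  have hball : Metric.closedBall z (2 * r) ⊆ K2 := by
    intro y hy
    rw [hK2]
    refine Metric.mem_cthickening_of_dist_le y z _ K hz ?_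
    exact (Metric.mem_closedBall.mp hy).trans hrδ
  have hsupp : tsupport (bmp z r) ⊆ Set.Ioo (0 : ℝ) T ×ˢ (Set.univ : Set (Fin 3 → ℝ)) :=
    (bmp_tsupport hr).trans (hball.trans hK2U)
  refine ⟨hsupp, ?_⟩
  rw [Dis_galilean hv hp hd hm (bmp_smooth z r) (bmp_cpt hr) hsupp (v z) (p z)]
  set h : ℝ := H * (2 * r) ^ (β : ℝ) with hh
  have hh0 : 0 ≤ h := by positivity
  set J : ℝ := 3 / 2 * h ^ 2 * (M1 * r⁻¹ * (1 + 3 * N)) + om * (3 * h * (M1 * r⁻¹)) with hJ
  have hJ0 : 0 ≤ J := by positivity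
  have hIcc : ∀ y ∈ K2, y ∈ Set.Icc (0 : ℝ) T ×ˢ (Set.univ : Set (Fin 3 → ℝ)) := by
    intro y hy
    have := hK2U hy
    exact ⟨⟨this.1.1.le, this.1.2.le⟩, mem_univ _⟩
  have hzz : z ∈ Metric.closedBall z (2 * r) := Metric.mem_closedBall_self (by positivity)
  have hdw : ∀ y, |fderiv ℝ (bmp z r) y et| ≤ M1 * r⁻¹ := fun y =>
    (hder z r hr y et).trans (by
      calc M1 * r⁻¹ * ‖et‖ ≤ M1 * r⁻¹ * 1 :=
            mul_le_mul_of_nonneg_left norm_et (by positivity)
        _ = M1 * r⁻¹ := mul_one _)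
  have hdi : ∀ y i, |fderiv ℝ (bmp z r) y (ei i)| ≤ M1 * r⁻¹ := fun y i =>
    (hder z r hr y (ei i)).trans (by
      calc M1 * r⁻¹ * ‖ei i‖ ≤ M1 * r⁻¹ * 1 :=
            mul_le_mul_of_nonneg_left (norm_ei i) (by positivity)
        _ = M1 * r⁻¹ := mul_one _)
  have hbound : ∀ y, ‖(∑ i : Fin 3, (v y i - v z i) ^ 2) / 2
        * (fderiv ℝ (bmp z r) y et + ∑ j : Fin 3, v y j * fderiv ℝ (bmp z r) y (ei j))
      + (p y - p z) * ∑ j : Fin 3, (v y j - v z j) * fderiv ℝ (bmp z r) y (ei j)‖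
      ≤ (Metric.closedBall z (2 * r)).indicator (fun _ => J) y := by
    intro y
    by_cases hy : y ∈ Metric.closedBall z (2 * r)
    · rw [indicator_of_mem hy]
      have hyK := hball hy
      have hvy : ∀ j, |v y j| ≤ N := fun j =>
        ((norm_le_pi_norm (v y) j).trans (hMv y hyK)).trans (le_abs_self _)
      have hvz : ‖v y - v z‖ ≤ h := by
        have := hH.dist_le_of_le (hIcc y hyK) (hIcc z (hball hzz)) (Metric.mem_closedBall.mp hy)
        rwa [dist_eq_norm] at this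
      have hvzj : ∀ j, |v y j - v z j| ≤ h := fun j => (norm_le_pi_norm (v y - v z) j).trans hvz
      have hpz : |p y - p z| ≤ om := by
        have hdist : dist z y < δ2 := by
          rw [dist_comm]; exact (Metric.mem_closedBall.mp hy).trans_lt hrδ2
        have h4 := h2 hdist hz
        rw [← Real.dist_eq, dist_comm]
        exact (show dist (p z) (p y) < om from h4).le
      have b1 : |(∑ i : Fin 3, (v y i - v z i) ^ 2) / 2| ≤ 3 / 2 * h ^ 2 := by
        rw [abs_of_nonneg (by positivity)]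
        have : ∀ i ∈ (Finset.univ : Finset (Fin 3)), (v y i - v z i) ^ 2 ≤ h ^ 2 := fun i _ => by
          rw [← sq_abs]; exact pow_le_pow_left₀ (abs_nonneg _) (hvzj i) 2
        have h5 := Finset.sum_le_sum this
        simp only [Finset.sum_const, Finset.card_univ, Fintype.card_fin, nsmul_eq_mul] at h5
        push_cast at h5
        linarith
      have b2 : |fderiv ℝ (bmp z r) y et + ∑ j : Fin 3, v y j * fderiv ℝ (bmp z r) y (ei j)|
          ≤ M1 * r⁻¹ * (1 + 3 * N) := by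
        refine (abs_add_le _ _).trans ?_
        have h5 : |∑ j : Fin 3, v y j * fderiv ℝ (bmp z r) y (ei j)| ≤ 3 * (N * (M1 * r⁻¹)) := by
          refine (Finset.abs_sum_le_sum_abs _ _).trans ?_
          have : ∀ j ∈ (Finset.univ : Finset (Fin 3)),
              |v y j * fderiv ℝ (bmp z r) y (ei j)| ≤ N * (M1 * r⁻¹) := fun j _ => by
            rw [abs_mul]
            exact mul_le_mul (hvy j) (hdi y j) (abs_nonneg _) hNn
          refine (Finset.sum_le_sum this).trans_eq ?_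
          simp
        have h6 := hdw y
        calc _ ≤ M1 * r⁻¹ + 3 * (N * (M1 * r⁻¹)) := add_le_add h6 h5
          _ = M1 * r⁻¹ * (1 + 3 * N) := by ring
      have b3 : |∑ j : Fin 3, (v y j - v z j) * fderiv ℝ (bmp z r) y (ei j)|
          ≤ 3 * h * (M1 * r⁻¹) := by
        refine (Finset.abs_sum_le_sum_abs _ _).trans ?_
        have : ∀ j ∈ (Finset.univ : Finset (Fin 3)),
            |(v y j - v z j) * fderiv ℝ (bmp z r) y (ei j)| ≤ h * (M1 * r⁻¹) := fun j _ => by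
          rw [abs_mul]
          exact mul_le_mul (hvzj j) (hdi y j) (abs_nonneg _) hh0
        refine (Finset.sum_le_sum this).trans_eq ?_
        simp
        ring
      rw [Real.norm_eq_abs]
      refine (abs_add_le _ _).trans ?_
      rw [abs_mul, abs_mul]
      exact add_le_add (mul_le_mul b1 b2 (abs_nonneg _) (by positivity))
        (mul_le_mul hpz b3 (abs_nonneg _) hom0.le)
    · have z2 : fderiv ℝ (bmp z r) y = 0 :=
        image_eq_zero_of_notMem_tsupport fun h => hy (bmp_tsupport hr (tsupport_fderiv_subset ℝ h))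
      rw [indicator_of_notMem hy]
      simp [z2]
  have hfin : (volume : Measure E) (Metric.closedBall z (2 * r)) < ⊤ :=
    (isCompact_closedBall z (2 * r)).measure_lt_top
  have h7 := norm_integral_le_of_norm_le
    ((integrable_indicator_iff measurableSet_closedBall).mpr
      (integrableOn_const (μ := (volume : Measure E)) (C := J) hfin.ne))
    (Eventually.of_forall hbound)
  rw [integral_indicator measurableSet_closedBall, setIntegral_const, smul_eq_mul,
    Real.norm_eq_abs] at h7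
  refine h7.trans ?_
  have hvol : (volume : Measure E).real (Metric.closedBall z (2 * r)) = (2 * r) ^ 4 * κ := by
    rw [hκ, measureReal_def, measureReal_def,
      Measure.addHaar_closedBall' _ z (by positivity : (0 : ℝ) ≤ 2 * r), finrank_E,
      ENNReal.toReal_mul, ENNReal.toReal_ofReal (by positivity)]
  rw [hvol]
  have hh2 : h = H * cb * r ^ (β : ℝ) := by
    rw [hh, Real.mul_rpow (by norm_num) hr.le]; ring
  have hr3 : r ^ (3 + (β : ℝ)) = r ^ 3 * r ^ (β : ℝ) := by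
    rw [Real.rpow_add hr]
    congr 1
    exact_mod_cast Real.rpow_natCast r 3
  have hfinal : (2 * r) ^ 4 * κ * J
      = (A * r ^ (β : ℝ) + B * om) * (r ^ 3 * r ^ (β : ℝ)) := by
    rw [hJ, hh2, hA, hB]
    field_simp
    ring
  rw [hfinal, hr3]
  exact mul_le_mul_of_nonneg_right (by linarith) (by positivity)

end Pool.Agent.EUL22
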